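import Mathlib

set_option autoImplicit false

namespace Pool.Agent.Helper64.Tiling

/-- The group `ℤ^n`. -/
abbrev Vec (n : ℕ) : Type := Fin n → ℤ

/-- The space `{0,1}^(ℤ^n)` (with the product topology). -/
abbrev Config (n : ℕ) : Type := Vec n → Bool

/-- The shift action `(g · x) h = x (h + g)`. -/
def shift {n : ℕ} (g : Vec n) (x : Config n) : Config n := fun h => x (h + g)

/-- The free part of the Bernoulli shift. -/
def FreePart (n : ℕ) : Set (Config n) := {x | ∀ g : Vec n, g ≠ 0 → shift g x ≠ x}

theorem shift_shift {n : ℕ} (g h : Vec n) (x : Config n) :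
    shift g (shift h x) = shift (g + h) x := by
  funext t
  show x (t + g + h) = x (t + (g + h))
  rw [add_assoc]

theorem shift_mem {n : ℕ} (g : Vec n) {x : Config n} (hx : x ∈ FreePart n) :
    shift g x ∈ FreePart n := by
  intro h hh heq
  apply hx h hh
  funext t
  have h1 := congrFun heq (t - g)
  have h2 : x (t - g + h + g) = x (t - g + g) := h1
  rw [sub_add_cancel, show t - g + h + g = t + h by abel] at h2
  exact h2

/-- The action of `ℤ^n` on the free part. -/
def act {n : ℕ} (g : Vec n) (x : FreePart n) : FreePart n := ⟨shift g x.1, shift_mem g x.2⟩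

/-- The translates `g + T`, for `T ∈ 𝒯` and `g ∈ B T`, form a tiling of `ℤ^n`: every point of `ℤ^n`
belongs to exactly one of them. -/
def IsTiling {n : ℕ} (𝒯 : Set (Finset (Vec n))) (B : Finset (Vec n) → Set (Vec n)) : Prop :=
  ∀ z : Vec n, ∃! p : Finset (Vec n) × Vec n, p.1 ∈ 𝒯 ∧ p.2 ∈ B p.1 ∧ z - p.2 ∈ p.1

/-- `𝒯` tiles `ℤ^n`. -/
def Tiles {n : ℕ} (𝒯 : Set (Finset (Vec n))) : Prop := ∃ B, IsTiling 𝒯 B

/-- The free part of the Bernoulli shift admits a continuous tiling with `𝒯`: relatively clopen
sets `C T`, `T ∈ 𝒯`, such that for every point `x` of the free part the translates `g + T` with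
`g · x ∈ C T` form a tiling of `ℤ^n`. -/
def HasContinuousTiling {n : ℕ} (𝒯 : Set (Finset (Vec n))) : Prop :=
  ∃ C : Finset (Vec n) → Set (FreePart n), (∀ T ∈ 𝒯, IsClopen (C T)) ∧
    ∀ x : FreePart n, IsTiling 𝒯 fun T => {g | act g x ∈ C T}

/-- Inputs of the decision problems: lists of tiles, each given by the list of its cells. -/
abbrev Input (n : ℕ) : Type := List (List (Vec n))

/-- An input is valid if its tiles are nonempty. -/
def Valid {n : ℕ} (L : Input n) : Prop := ∀ l ∈ L, l ≠ []

/-- The set of tiles given by an input. -/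
def tileSet {n : ℕ} (L : Input n) : Set (Finset (Vec n)) := {T | ∃ l ∈ L, l.toFinset = T}

end Pool.Agent.Helper64.Tiling
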