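import Mathlib
import Pool.Agent.Helper64.Tiling.Defs

set_option autoImplicit false

namespace Pool.Agent.Helper64.Tiling

/-! Locally constant functions on the free part. -/

variable {n : ℕ}

/-- `x` and `y` agree on the box of radius `r`. -/
def Agree (r : ℕ) (x y : Config n) : Prop := ∀ h : Vec n, (∀ i, |h i| ≤ r) → x h = y h

theorem Agree.symm {r : ℕ} {x y : Config n} (h : Agree r x y) : Agree r y x :=
  fun t ht => (h t ht).symm

theorem Agree.trans {r : ℕ} {x y z : Config n} (h : Agree r x y) (h' : Agree r y z) :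
    Agree r x z := fun t ht => (h t ht).trans (h' t ht)

theorem Agree.mono {r s : ℕ} {x y : Config n} (h : Agree s x y) (hrs : r ≤ s) : Agree r x y :=
  fun t ht => h t fun i => (ht i).trans (by exact_mod_cast hrs)

theorem Agree.shift {r k : ℕ} {x y : Config n} (h : Agree (r + k) x y) {g : Vec n}
    (hg : ∀ i, |g i| ≤ k) : Agree r (shift g x) (shift g y) := by
  intro t ht
  apply h
  intro i
  have h1 := ht i
  have h2 := hg i
  have h3 : |t i + g i| ≤ |t i| + |g i| := abs_add_le _ _
  show |t i + g i| ≤ ((r + k : ℕ) : ℤ)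
  push_cast
  linarith

theorem agree_eq {x y : Config n} (h : ∀ r, Agree r x y) : x = y := by
  funext t
  obtain ⟨r, hr⟩ : ∃ r : ℕ, ∀ i, |t i| ≤ r := by
    refine ⟨∑ i, (t i).natAbs, fun i => ?_⟩
    have h1 : (t i).natAbs ≤ ∑ i, (t i).natAbs :=
      Finset.single_le_sum (f := fun i => (t i).natAbs) (fun _ _ => Nat.zero_le _)
        (Finset.mem_univ i)
    rw [Int.abs_eq_natAbs]
    exact_mod_cast h1
  exact h r t hr

/-- every vector lies in some box -/
theorem exists_box (t : Vec n) : ∃ r : ℕ, ∀ i, |t i| ≤ r := by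
  refine ⟨∑ i, (t i).natAbs, fun i => ?_⟩
  have h1 : (t i).natAbs ≤ ∑ i, (t i).natAbs :=
    Finset.single_le_sum (f := fun i => (t i).natAbs) (fun _ _ => Nat.zero_le _)
      (Finset.mem_univ i)
  rw [Int.abs_eq_natAbs]
  exact_mod_cast h1

/-- the finite box -/
noncomputable def box (n r : ℕ) : Finset (Vec n) := Finset.Icc (fun _ => -(r : ℤ)) (fun _ => (r : ℤ))

theorem mem_box {r : ℕ} {t : Vec n} : t ∈ box n r ↔ ∀ i, |t i| ≤ r := by
  unfold box
  rw [Finset.mem_Icc]
  constructor
  · rintro ⟨h1, h2⟩ i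
    rw [abs_le]
    exact ⟨h1 i, h2 i⟩
  · intro h
    exact ⟨fun i => (abs_le.1 (h i)).1, fun i => (abs_le.1 (h i)).2⟩

/-- locally constant functions -/
def LC {α : Type} (f : FreePart n → α) : Prop :=
  ∀ x, ∃ r : ℕ, ∀ y : FreePart n, Agree r x.1 y.1 → f y = f x

theorem isOpen_agree (r : ℕ) (x : Config n) : IsOpen {y : Config n | Agree r x y} := by
  have h : {y : Config n | Agree r x y} = ⋂ t ∈ box n r, {y : Config n | x t = y t} := by
    ext y
    simp only [Set.mem_ofPred_eq, Set.mem_iInter]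
    exact ⟨fun h t ht => h t (mem_box.1 ht), fun h t ht => h t (mem_box.2 ht)⟩
  rw [h]
  apply isOpen_biInter_finset
  intro t _
  have h1 : {y : Config n | x t = y t} = (fun y : Config n => y t) ⁻¹' {x t} := by
    ext y
    exact eq_comm
  rw [h1]
  exact (isOpen_discrete _).preimage (continuous_apply t)

theorem LC.isOpen {α : Type} {f : FreePart n → α} (hf : LC f) (S : Set α) :
    IsOpen {x | f x ∈ S} := by
  rw [isOpen_iff_forall_mem_open]
  intro x hx
  obtain ⟨r, hr⟩ := hf x
  refine ⟨{y | Agree r x.1 y.1}, fun y hy => ?_, ?_, fun t _ => rfl⟩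
  · show f y ∈ S
    rw [hr y hy]
    exact hx
  · exact (isOpen_agree r x.1).preimage continuous_subtype_val

theorem LC.isClopen {α : Type} {f : FreePart n → α} (hf : LC f) (S : Set α) :
    IsClopen {x | f x ∈ S} := by
  refine ⟨⟨?_⟩, hf.isOpen S⟩
  exact hf.isOpen Sᶜ

/-- an open set contains a box neighbourhood of each of its points -/
theorem exists_agree_of_isOpen {U : Set (Config n)} (hU : IsOpen U) {x : Config n} (hx : x ∈ U) :
    ∃ r : ℕ, ∀ y, Agree r x y → y ∈ U := by
  rw [isOpen_pi_iff] at hU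
  obtain ⟨I, u, hu, hI⟩ := hU x hx
  choose ρ hρ using fun t : Vec n => exists_box t
  refine ⟨I.sup ρ, fun y hy => hI ?_⟩
  intro t ht
  have h1 : x t = y t := hy t fun i => (hρ t i).trans (by
    have : ρ t ≤ I.sup ρ := Finset.le_sup (f := ρ) ht
    exact_mod_cast this)
  rw [← h1]
  exact (hu t ht).2

theorem LC.act {α : Type} {f : FreePart n → α} (hf : LC f) (g : Vec n) :
    LC fun x => f (act g x) := by
  intro x
  obtain ⟨k, hk⟩ := exists_box g
  obtain ⟨r, hr⟩ := hf (Tiling.act g x)
  exact ⟨r + k, fun y hy => hr (Tiling.act g y) (hy.shift hk)⟩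

/-- a function depending on finitely many locally constant functions is locally constant -/
theorem LC.of_finite {α β ι : Type} (S : Finset ι) (F : ι → FreePart n → β)
    (hF : ∀ i ∈ S, LC (F i)) (f : FreePart n → α)
    (hf : ∀ x y, (∀ i ∈ S, F i x = F i y) → f x = f y) : LC f := by
  classical
  intro x
  choose! r hr using fun i (hi : i ∈ S) => hF i hi x
  refine ⟨S.sup r, fun y hy => hf y x fun i hi => hr i hi y (hy.mono (Finset.le_sup hi))⟩

theorem LC.prodMk {α β : Type} {f : FreePart n → α} {g : FreePart n → β} (hf : LC f)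
    (hg : LC g) : LC fun x => (f x, g x) := by
  intro x
  obtain ⟨r, hr⟩ := hf x
  obtain ⟨s, hs⟩ := hg x
  exact ⟨max r s, fun y hy => by
    show (f y, g y) = (f x, g x)
    rw [hr y (hy.mono (le_max_left _ _)), hs y (hy.mono (le_max_right _ _))]⟩

end Pool.Agent.Helper64.Tiling
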