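import Mathlib
import Pool.Agent.Helper64.Tiling.Local

set_option autoImplicit false

namespace Pool.Agent.Helper64.Tiling

/-! Planar translations, proper colourings and greedy recursion on the free part. -/

variable {n : ℕ}

/-- the embedding of `ℤ²` into `ℤ^n` as the first two coordinates -/
def flat (g : ℤ × ℤ) : Vec n := fun i => if i.val = 0 then g.1 else if i.val = 1 then g.2 else 0

theorem flat_zero : (flat (0, 0) : Vec n) = 0 := by
  funext i
  simp [flat]

theorem flat_add (g h : ℤ × ℤ) : (flat (g + h) : Vec n) = flat g + flat h := by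
  funext i
  simp only [flat, Pi.add_apply, Prod.fst_add, Prod.snd_add]
  split_ifs <;> simp

theorem flat_neg (g : ℤ × ℤ) : (flat (-g) : Vec n) = -flat g := by
  funext i
  simp only [flat, Pi.neg_apply, Prod.fst_neg, Prod.snd_neg]
  split_ifs <;> simp

theorem flat_sub (g h : ℤ × ℤ) : (flat (g - h) : Vec n) = flat g - flat h := by
  rw [sub_eq_add_neg, flat_add, flat_neg, ← sub_eq_add_neg]

theorem flat_injective (hn : 2 ≤ n) : Function.Injective (flat : ℤ × ℤ → Vec n) := by
  intro g h hgh
  have h0 := congrFun hgh ⟨0, by omega⟩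
  have h1 := congrFun hgh ⟨1, by omega⟩
  simp only [flat, if_true] at h0 h1
  simp at h1
  exact Prod.ext h0 h1

/-- sup norm on `ℤ²`: `g` lies in the box of radius `r` -/
def Near (r : ℤ) (g : ℤ × ℤ) : Prop := |g.1| ≤ r ∧ |g.2| ≤ r

theorem near_iff {r : ℤ} {g : ℤ × ℤ} :
    Near r g ↔ (-r ≤ g.1 ∧ g.1 ≤ r) ∧ (-r ≤ g.2 ∧ g.2 ≤ r) := by
  unfold Near
  rw [abs_le, abs_le]

/-- the planar action -/
def mv (g : ℤ × ℤ) (x : FreePart n) : FreePart n := act (flat g) x

theorem mv_zero (x : FreePart n) : mv (0, 0) x = x := by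
  apply Subtype.ext
  funext t
  show x.1 (t + flat (0, 0)) = x.1 t
  rw [flat_zero, add_zero]

theorem mv_mv (g h : ℤ × ℤ) (x : FreePart n) : mv g (mv h x) = mv (g + h) x := by
  apply Subtype.ext
  show shift (flat g) (shift (flat h) x.1) = shift (flat (g + h)) x.1
  rw [shift_shift, flat_add]

theorem act_act (g h : Vec n) (x : FreePart n) : act g (act h x) = act (g + h) x := by
  apply Subtype.ext
  exact shift_shift _ _ _

theorem flat_box {r : ℕ} {g : ℤ × ℤ} (hg : Near r g) (i : Fin n) : |(flat g : Vec n) i| ≤ r := by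
  unfold flat
  split_ifs
  · exact hg.1
  · exact hg.2
  · simp

theorem LC.mv {α : Type} {f : FreePart n → α} (hf : LC f) (g : ℤ × ℤ) :
    LC fun x => f (mv g x) := hf.act (flat g)

/-- the finite planar box -/
noncomputable def pbox (r : ℤ) : Finset (ℤ × ℤ) := Finset.Icc (-r) r ×ˢ Finset.Icc (-r) r

theorem mem_pbox {r : ℤ} {g : ℤ × ℤ} : g ∈ pbox r ↔ Near r g := by
  unfold pbox
  rw [Finset.mem_product, Finset.mem_Icc, Finset.mem_Icc, near_iff]

/-- The least radius of a window distinguishing `x` from its translates by short vectors. -/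
theorem exists_radius (hn : 2 ≤ n) (R : ℤ) (x : FreePart n) :
    ∃ r : ℕ, ∀ g, Near R g → g ≠ (0, 0) → ¬ Agree r (mv g x).1 x.1 := by
  classical
  have h1 : ∀ g : ℤ × ℤ, ∃ r : ℕ, g ≠ (0, 0) → ¬ Agree r (mv g x).1 x.1 := by
    intro g
    by_cases hg : g = (0, 0)
    · exact ⟨0, fun h => absurd hg h⟩
    · by_contra hcon
      push Not at hcon
      have h2 : (mv g x).1 = x.1 := agree_eq fun r => (hcon r).2
      have h3 : (flat g : Vec n) ≠ 0 := by
        intro h4
        rw [← flat_zero] at h4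
        exact hg (flat_injective hn h4)
      exact x.2 _ h3 h2
  choose r hr using h1
  refine ⟨(pbox R).sup r, fun g hg hg0 h => hr g hg0 (h.mono ?_)⟩
  exact Finset.le_sup (f := r) (mem_pbox.2 hg)

/-- A locally constant proper colouring. -/
theorem exists_coloring (hn : 2 ≤ n) (R : ℕ) :
    ∃ c : FreePart n → ℕ, LC c ∧ ∀ x g, Near R g → g ≠ (0, 0) → c (mv g x) ≠ c x := by
  classical
  let ρ : FreePart n → ℕ := fun x => Nat.find (exists_radius hn R x)
  have hρ : ∀ x : FreePart n, ∀ g, Near R g → g ≠ (0, 0) → ¬ Agree (ρ x) (mv g x).1 x.1 :=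
    fun x => Nat.find_spec (exists_radius hn R x)
  let E : ℕ → FreePart n → Finset (Vec n) := fun r x => (box n r).filter fun t => x.1 t = true
  have hE : ∀ (r : ℕ) (x y : FreePart n), E r x = E r y → Agree r x.1 y.1 := by
    intro r x y h t ht
    have h1 : t ∈ E r x ↔ t ∈ E r y := by rw [h]
    simp only [E, Finset.mem_filter, mem_box.2 ht, true_and] at h1
    cases hx : x.1 t <;> cases hy : y.1 t <;> simp_all
  obtain ⟨e, he⟩ := exists_injective_nat (ℕ × Finset (Vec n))
  have key : ∀ (s : ℕ) (x y : FreePart n), s ≤ ρ x → Agree (ρ x + R) x.1 y.1 → ∀ g, Near R g →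
      (Agree s (mv g y).1 y.1 ↔ Agree s (mv g x).1 x.1) := by
    intro s x y hs hxy g hg
    have h1 : Agree s x.1 y.1 := hxy.mono (by omega)
    have h2 : Agree s (mv g x).1 (mv g y).1 :=
      (hxy.mono (show s + R ≤ ρ x + R by omega)).shift (flat_box hg)
    exact ⟨fun h => h2.trans (h.trans h1.symm), fun h => h2.symm.trans (h.trans h1)⟩
  have hρlc : ∀ x y : FreePart n, Agree (ρ x + R) x.1 y.1 → ρ y = ρ x := by
    intro x y hxy
    rw [Nat.find_eq_iff]
    refine ⟨fun g hg hg0 h => hρ x g hg hg0 ((key (ρ x) x y le_rfl hxy g hg).1 h), ?_⟩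
    intro s hs h
    exact Nat.find_min (exists_radius hn R x) hs fun g hg hg0 h' =>
      h g hg hg0 ((key s x y hs.le hxy g hg).2 h')
  refine ⟨fun x => e (ρ x, E (ρ x) x), ?_, ?_⟩
  · intro x
    refine ⟨ρ x + R, fun y hy => ?_⟩
    have h1 := hρlc x y hy
    have h2 : E (ρ x) y = E (ρ x) x := by
      apply Finset.filter_congr
      intro t ht
      rw [hy t (mem_box.1 (by
        rw [mem_box] at ht ⊢
        intro i
        exact (ht i).trans (by exact_mod_cast Nat.le_add_right _ _)))]
    show e (ρ y, E (ρ y) y) = e (ρ x, E (ρ x) x)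
    rw [h1, h2]
  · intro x g hg hg0 heq
    have h1 := he heq
    rw [Prod.mk.injEq] at h1
    have h2 := h1.2
    rw [h1.1] at h2
    exact hρ x g hg hg0 (hE _ _ _ h2)

/-- Greedy recursion along a colouring: the value at `x` is computed from the values at the nearby
points of smaller colour. -/
theorem exists_greedy {α : Type} (c : FreePart n → ℕ) (hc : LC c) (R : ℕ)
    (Φ : (ℤ × ℤ → Option α) → α) :
    ∃ D : FreePart n → α, LC D ∧ ∀ x, D x = Φ (fun g => open Classical in
      if g ≠ (0, 0) ∧ Near R g ∧ c (mv g x) < c x then some (D (mv g x)) else none) := by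
  classical
  let D : FreePart n → α := (measure c).wf.fix fun x rec => Φ fun g =>
    if h : g ≠ (0, 0) ∧ Near R g ∧ c (mv g x) < c x then some (rec (mv g x) h.2.2) else none
  have hD : ∀ x, D x = Φ (fun g =>
      if g ≠ (0, 0) ∧ Near R g ∧ c (mv g x) < c x then some (D (mv g x)) else none) := by
    intro x
    show (measure c).wf.fix _ x = _
    rw [WellFounded.fix_eq]
    congr 1
  have hlc : ∀ (m : ℕ) (x : FreePart n), c x = m → ∃ r : ℕ, ∀ y : FreePart n,
      Agree r x.1 y.1 → D y = D x := by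
    intro m
    induction m using Nat.strong_induction_on with
    | _ m ih =>
      intro x hx
      have h1 : ∀ g : ℤ × ℤ, ∃ r : ℕ, Near R g → ∀ y : FreePart n, Agree r x.1 y.1 →
          c (mv g y) = c (mv g x) ∧ (c (mv g x) < c x → D (mv g y) = D (mv g x)) := by
        intro g
        obtain ⟨r1, hr1⟩ := (hc.mv g) x
        by_cases hg : Near R g ∧ c (mv g x) < c x
        · obtain ⟨r2, hr2⟩ := ih (c (mv g x)) (hx ▸ hg.2) (mv g x) rfl
          refine ⟨max r1 (r2 + R), fun _ y hy => ⟨hr1 y (hy.mono (le_max_left _ _)), fun _ => ?_⟩⟩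
          exact hr2 (mv g y) ((hy.mono (le_max_right _ _)).shift (flat_box hg.1))
        · refine ⟨r1, fun hg' y hy => ⟨hr1 y hy, fun h => absurd ⟨hg', h⟩ hg⟩⟩
      choose r hr using h1
      obtain ⟨r0, hr0⟩ := hc x
      refine ⟨max r0 ((pbox R).sup r), fun y hy => ?_⟩
      rw [hD y, hD x]
      congr 1
      funext g
      have hcx := hr0 y (hy.mono (le_max_left _ _))
      by_cases hg : Near R g
      · have h2 := hr g hg y (hy.mono ((Finset.le_sup (f := r) (mem_pbox.2 hg)).trans
          (le_max_right _ _)))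
        rw [h2.1, hcx]
        by_cases hlt : c (mv g x) < c x
        · rw [h2.2 hlt]
        · rw [if_neg (fun h => hlt h.2.2), if_neg (fun h => hlt h.2.2)]
      · rw [if_neg (fun h => hg h.2.1), if_neg (fun h => hg h.2.1)]
  exact ⟨D, fun x => hlc (c x) x rfl, hD⟩

end Pool.Agent.Helper64.Tiling
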