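import Mathlib
import Pool.Agent.Helper64.Tiling.Greedy

set_option autoImplicit false

namespace Pool.Agent.Helper64.Tiling

/-! Clopen markers surrounded by rectangles whose side lines keep distance. -/

variable {n : ℕ}

/-- two lines at distance at least `N` -/
def FarZ (N a b : ℤ) : Prop := a + N ≤ b ∨ b + N ≤ a

/-- the extents of a rectangle around a marker: to the left, right, bottom, top -/
structure Ext where
  a1 : ℤ
  a2 : ℤ
  b1 : ℤ
  b2 : ℤ

/-- the sides of the rectangle `q` at the origin keep distance from those of `q'` at `g` -/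
def Far (N : ℤ) (q : Ext) (g : ℤ × ℤ) (q' : Ext) : Prop :=
  (FarZ N (-q.a1) (g.1 - q'.a1) ∧ FarZ N (-q.a1) (g.1 + q'.a2) ∧
    FarZ N q.a2 (g.1 - q'.a1) ∧ FarZ N q.a2 (g.1 + q'.a2)) ∧
  (FarZ N (-q.b1) (g.2 - q'.b1) ∧ FarZ N (-q.b1) (g.2 + q'.b2) ∧
    FarZ N q.b2 (g.2 - q'.b1) ∧ FarZ N q.b2 (g.2 + q'.b2))

theorem Far.symm {N : ℤ} {q : Ext} {g : ℤ × ℤ} {q' : Ext} (h : Far N q g q') :
    Far N q' (-g) q := by
  unfold Far FarZ at *
  simp only [Prod.fst_neg, Prod.snd_neg]
  omega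

/-- extents in the right range, `K = 1024 N` -/
def SizeOK (K : ℤ) (q : Ext) : Prop :=
  (K + 1 ≤ q.a1 ∧ q.a1 ≤ 2 * K + 1) ∧ (K + 1 ≤ q.a2 ∧ q.a2 ≤ 2 * K + 1) ∧
  (K + 1 ≤ q.b1 ∧ q.b1 ≤ 2 * K + 1) ∧ (K + 1 ≤ q.b2 ∧ q.b2 ≤ 2 * K + 1)

theorem exists_far (N : ℤ) (hN : 1 ≤ N) (S : Finset ℤ) (hS : S.card ≤ 512) :
    ∃ a, 1024 * N + 1 ≤ a ∧ a ≤ 2 * (1024 * N) + 1 ∧ ∀ t ∈ S, FarZ N a t := by
  classical
  by_contra hcon
  push Not at hcon
  have h1 : Finset.Icc (1024 * N + 1) (2 * (1024 * N) + 1) ⊆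
      S.biUnion fun t => Finset.Ioo (t - N) (t + N) := by
    intro a ha
    rw [Finset.mem_Icc] at ha
    obtain ⟨t, ht, hfar⟩ := hcon a ha.1 ha.2
    rw [Finset.mem_biUnion]
    refine ⟨t, ht, ?_⟩
    rw [Finset.mem_Ioo]
    unfold FarZ at hfar
    omega
  have h2 := Finset.card_le_card h1
  have h3 := Finset.card_biUnion_le_card_mul S (fun t => Finset.Ioo (t - N) (t + N))
    (2 * N - 1).toNat (fun t _ => by
      rw [Int.card_Ioo]
      omega)
  rw [Int.card_Icc] at h2
  have h4 : S.card * (2 * N - 1).toNat ≤ 512 * (2 * N - 1).toNat := Nat.mul_le_mul_right _ hS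
  omega

theorem packing (K : ℤ) (hK : 0 ≤ K) (S : Finset (ℤ × ℤ)) (h1 : ∀ g ∈ S, Near (8 * K + 4) g)
    (h2 : ∀ g ∈ S, ∀ g' ∈ S, g ≠ g' → ¬ Near K (g' - g)) : S.card ≤ 256 := by
  classical
  have h3 : S.card ≤ ((Finset.Ico (0 : ℤ) 16) ×ˢ (Finset.Ico (0 : ℤ) 16)).card := by
    apply Finset.card_le_card_of_injOn
      (fun g => ((g.1 + (8 * K + 4)) / (K + 1), (g.2 + (8 * K + 4)) / (K + 1)))
    · intro g hg
      have h4 := near_iff.1 (h1 g hg)
      simp only [Finset.coe_product, Finset.coe_Ico, Set.mem_prod, Set.mem_Ico]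
      refine ⟨⟨Int.ediv_nonneg (by omega) (by omega), ?_⟩,
        Int.ediv_nonneg (by omega) (by omega), ?_⟩
      · apply Int.ediv_lt_of_lt_mul (by omega)
        linarith [h4.1.2]
      · apply Int.ediv_lt_of_lt_mul (by omega)
        linarith [h4.2.2]
    · intro g hg g' hg' heq
      by_contra hne
      apply h2 g hg g' hg' hne
      simp only [Prod.mk.injEq] at heq
      have e1 := Int.mul_ediv_add_emod (g.1 + (8 * K + 4)) (K + 1)
      have e2 := Int.mul_ediv_add_emod (g'.1 + (8 * K + 4)) (K + 1)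
      have e3 := Int.mul_ediv_add_emod (g.2 + (8 * K + 4)) (K + 1)
      have e4 := Int.mul_ediv_add_emod (g'.2 + (8 * K + 4)) (K + 1)
      have m1 := Int.emod_nonneg (g.1 + (8 * K + 4)) (show K + 1 ≠ 0 by omega)
      have m2 := Int.emod_nonneg (g'.1 + (8 * K + 4)) (show K + 1 ≠ 0 by omega)
      have m3 := Int.emod_nonneg (g.2 + (8 * K + 4)) (show K + 1 ≠ 0 by omega)
      have m4 := Int.emod_nonneg (g'.2 + (8 * K + 4)) (show K + 1 ≠ 0 by omega)
      have l1 := Int.emod_lt_of_pos (g.1 + (8 * K + 4)) (show 0 < K + 1 by omega)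
      have l2 := Int.emod_lt_of_pos (g'.1 + (8 * K + 4)) (show 0 < K + 1 by omega)
      have l3 := Int.emod_lt_of_pos (g.2 + (8 * K + 4)) (show 0 < K + 1 by omega)
      have l4 := Int.emod_lt_of_pos (g'.2 + (8 * K + 4)) (show 0 < K + 1 by omega)
      rw [heq.1] at e1
      rw [heq.2] at e3
      rw [near_iff]
      simp only [Prod.fst_sub, Prod.snd_sub]
      refine ⟨⟨?_, ?_⟩, ?_, ?_⟩ <;> linarith
  refine h3.trans ?_
  rw [Finset.card_product, Int.card_Ico]
  decide

/-- The rule for the greedy recursion: take the point as a marker if no marker of smaller colour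
is near, and then choose extents keeping distance from the neighbours. -/
noncomputable def rule (N : ℤ) (nb : ℤ × ℤ → Option (Option Ext)) : Option Ext :=
  open Classical in
  if ∃ g q, Near (1024 * N) g ∧ nb g = some (some q) then none
  else some (@Classical.epsilon Ext ⟨⟨0, 0, 0, 0⟩⟩ fun q => SizeOK (1024 * N) q ∧
    ∀ g q', nb g = some (some q') → Far N q g q')

/-- Clopen markers with extents. -/
theorem exists_markers (hn : 2 ≤ n) (N : ℕ) (hN : 1 ≤ N) :
    ∃ (c : FreePart n → ℕ) (D : FreePart n → Option Ext), LC c ∧ LC D ∧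
      (∀ x g, Near (8 * (1024 * N) + 4) g → g ≠ (0, 0) → c (mv g x) ≠ c x) ∧
      (∀ x, D x = none → ∃ g q, Near (1024 * N) g ∧ D (mv g x) = some q) ∧
      (∀ x q, D x = some q → SizeOK (1024 * N) q) ∧
      ∀ x q g q', g ≠ (0, 0) → Near (8 * (1024 * N) + 4) g → D x = some q →
        D (mv g x) = some q' → Far N q g q' := by
  classical
  obtain ⟨c, hc, hcol⟩ := exists_coloring (n := n) hn (8 * (1024 * N) + 4)
  have hcast : ((8 * (1024 * N) + 4 : ℕ) : ℤ) = 8 * (1024 * (N : ℤ)) + 4 := by push_cast; ring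
  rw [hcast] at hcol
  obtain ⟨D, hDlc, hD⟩ := exists_greedy c hc (8 * (1024 * N) + 4) (rule (N : ℤ))
  rw [hcast] at hD
  let nb : FreePart n → ℤ × ℤ → Option (Option Ext) := fun x g =>
    if g ≠ (0, 0) ∧ Near (8 * (1024 * (N : ℤ)) + 4) g ∧ c (mv g x) < c x then
      some (D (mv g x)) else none
  have hD' : ∀ x, D x = rule N (nb x) := hD
  have hnb : ∀ x g q, nb x g = some (some q) ↔ (g ≠ (0, 0) ∧
      Near (8 * (1024 * (N : ℤ)) + 4) g ∧ c (mv g x) < c x) ∧ D (mv g x) = some q := by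
    intro x g q
    by_cases h : g ≠ (0, 0) ∧ Near (8 * (1024 * (N : ℤ)) + 4) g ∧ c (mv g x) < c x
    · simp only [nb, if_pos h, Option.some.injEq, h, true_and, ne_eq, not_false_eq_true, and_self]
    · simp only [nb, if_neg h, reduceCtorEq, h, false_and]
  have hnone : ∀ x, D x = none ↔ ∃ g q, Near (1024 * (N : ℤ)) g ∧ nb x g = some (some q) := by
    intro x
    rw [hD' x]
    unfold rule
    by_cases h : ∃ g q, Near (1024 * (N : ℤ)) g ∧ nb x g = some (some q)
    · rw [if_pos h]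
      exact ⟨fun _ => h, fun _ => rfl⟩
    · rw [if_neg h]
      exact ⟨fun h' => absurd h' (by simp), fun h' => absurd h' h⟩
  have hmono : ∀ g, Near (1024 * (N : ℤ)) g → Near (8 * (1024 * (N : ℤ)) + 4) g := by
    intro g hg
    rw [near_iff] at *
    omega
  have hsep' : ∀ x q g q', D x = some q → D (mv g x) = some q' → g ≠ (0, 0) →
      Near (1024 * (N : ℤ)) g → ¬ c (mv g x) < c x := by
    intro x q g q' h1 h2 hg hnear hlt
    have h3 : D x = none := (hnone x).2 ⟨g, q', hnear, (hnb x g q').2 ⟨⟨hg, hmono g hnear, hlt⟩, h2⟩⟩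
    rw [h1] at h3
    exact absurd h3 (by simp)
  have hback : ∀ (g : ℤ × ℤ) (x : FreePart n), mv (-g) (mv g x) = x := by
    intro g x
    rw [mv_mv, neg_add_cancel]
    exact mv_zero x
  have hsep : ∀ x q g q', D x = some q → D (mv g x) = some q' → g ≠ (0, 0) →
      ¬ Near (1024 * (N : ℤ)) g := by
    intro x q g q' h1 h2 hg hnear
    have hne := hcol x g (hmono g hnear) hg
    rcases lt_or_gt_of_ne hne with h | h
    · exact hsep' x q g q' h1 h2 hg hnear h
    · have hg' : -g ≠ (0, 0) := by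
        intro h0
        apply hg
        rw [← neg_neg g, h0]
        rfl
      have hnear' : Near (1024 * (N : ℤ)) (-g) := by
        rw [near_iff] at *
        simp only [Prod.fst_neg, Prod.snd_neg]
        omega
      apply hsep' (mv g x) q' (-g) q h2 (by rw [hback]; exact h1) hg' hnear'
      rw [hback]
      exact h
  -- the choice of extents is possible
  have hchoice : ∀ x q, D x = some q → SizeOK (1024 * (N : ℤ)) q ∧
      ∀ g q', nb x g = some (some q') → Far N q g q' := by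
    intro x q hx
    have h1 : ¬ ∃ g q, Near (1024 * (N : ℤ)) g ∧ nb x g = some (some q) := by
      rw [← hnone, hx]
      simp
    have h2 : q = @Classical.epsilon Ext ⟨⟨0, 0, 0, 0⟩⟩ fun q => SizeOK (1024 * (N : ℤ)) q ∧
        ∀ g q', nb x g = some (some q') → Far N q g q' := by
      have h3 := hD' x
      unfold rule at h3
      rw [if_neg h1, hx] at h3
      exact Option.some.inj h3
    suffices hex : ∃ q : Ext, SizeOK (1024 * (N : ℤ)) q ∧
        ∀ g q', nb x g = some (some q') → Far N q g q' by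
      rw [h2]
      exact @Classical.epsilon_spec_aux Ext ⟨⟨0, 0, 0, 0⟩⟩ (fun q => SizeOK (1024 * (N : ℤ)) q ∧
        ∀ g q', nb x g = some (some q') → Far N q g q') hex
    let S : Finset (ℤ × ℤ) := (pbox (8 * (1024 * (N : ℤ)) + 4)).filter fun g =>
      ∃ q, nb x g = some (some q)
    have hS1 : ∀ g ∈ S, Near (8 * (1024 * (N : ℤ)) + 4) g := by
      intro g hg
      exact mem_pbox.1 (Finset.mem_filter.1 hg).1
    have hScard : S.card ≤ 256 := by
      apply packing (1024 * (N : ℤ)) (by positivity) S hS1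
      intro g hg g' hg' hne
      obtain ⟨q1, hq1⟩ := (Finset.mem_filter.1 hg).2
      obtain ⟨q2, hq2⟩ := (Finset.mem_filter.1 hg').2
      rw [hnb] at hq1 hq2
      apply hsep (mv g x) q1 (g' - g) q2 hq1.2 (by rw [mv_mv, sub_add_cancel]; exact hq2.2)
      intro h0
      apply hne
      have h4 : g' - g + g = (0, 0) + g := by rw [h0]
      rw [sub_add_cancel] at h4
      rw [h4]
      exact (zero_add g).symm
    haveI : Nonempty Ext := ⟨⟨0, 0, 0, 0⟩⟩
    choose! e he using fun (g : ℤ × ℤ) (hg : g ∈ S) => (Finset.mem_filter.1 hg).2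
    have hcard : ∀ f1 f2 : ℤ × ℤ → ℤ, (S.image f1 ∪ S.image f2).card ≤ 512 := by
      intro f1 f2
      have h3 := Finset.card_union_le (S.image f1) (S.image f2)
      have h4 := Finset.card_image_le (s := S) (f := f1)
      have h5 := Finset.card_image_le (s := S) (f := f2)
      omega
    have hN' : (1 : ℤ) ≤ N := by exact_mod_cast hN
    obtain ⟨a1, ha1, ha1', ha1''⟩ := exists_far N hN' _
      (hcard (fun g => -(g.1 - (e g).a1)) (fun g => -(g.1 + (e g).a2)))
    obtain ⟨a2, ha2, ha2', ha2''⟩ := exists_far N hN' _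
      (hcard (fun g => g.1 - (e g).a1) (fun g => g.1 + (e g).a2))
    obtain ⟨b1, hb1, hb1', hb1''⟩ := exists_far N hN' _
      (hcard (fun g => -(g.2 - (e g).b1)) (fun g => -(g.2 + (e g).b2)))
    obtain ⟨b2, hb2, hb2', hb2''⟩ := exists_far N hN' _
      (hcard (fun g => g.2 - (e g).b1) (fun g => g.2 + (e g).b2))
    refine ⟨⟨a1, a2, b1, b2⟩, ⟨⟨ha1, ha1'⟩, ⟨ha2, ha2'⟩, ⟨hb1, hb1'⟩, hb2, hb2'⟩, ?_⟩
    intro g q' hq'
    have hgS : g ∈ S := by
      refine Finset.mem_filter.2 ⟨mem_pbox.2 ((hnb x g q').1 hq').1.2.1, q', hq'⟩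
    have hq : e g = q' := by
      have := he g hgS
      rw [hq'] at this
      exact (Option.some.inj (Option.some.inj this)).symm
    have hm : ∀ f1 f2 : ℤ × ℤ → ℤ, f1 g ∈ S.image f1 ∪ S.image f2 ∧
        f2 g ∈ S.image f1 ∪ S.image f2 := fun f1 f2 =>
      ⟨Finset.mem_union_left _ (Finset.mem_image_of_mem _ hgS),
        Finset.mem_union_right _ (Finset.mem_image_of_mem _ hgS)⟩
    have k1 := ha1'' _ (hm (fun g => -(g.1 - (e g).a1)) (fun g => -(g.1 + (e g).a2))).1
    have k2 := ha1'' _ (hm (fun g => -(g.1 - (e g).a1)) (fun g => -(g.1 + (e g).a2))).2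
    have k3 := ha2'' _ (hm (fun g => g.1 - (e g).a1) (fun g => g.1 + (e g).a2)).1
    have k4 := ha2'' _ (hm (fun g => g.1 - (e g).a1) (fun g => g.1 + (e g).a2)).2
    have k5 := hb1'' _ (hm (fun g => -(g.2 - (e g).b1)) (fun g => -(g.2 + (e g).b2))).1
    have k6 := hb1'' _ (hm (fun g => -(g.2 - (e g).b1)) (fun g => -(g.2 + (e g).b2))).2
    have k7 := hb2'' _ (hm (fun g => g.2 - (e g).b1) (fun g => g.2 + (e g).b2)).1
    have k8 := hb2'' _ (hm (fun g => g.2 - (e g).b1) (fun g => g.2 + (e g).b2)).2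
    simp only [hq] at k1 k2 k3 k4 k5 k6 k7 k8
    unfold Far
    unfold FarZ at *
    dsimp only
    omega
  refine ⟨c, D, hc, hDlc, hcol, ?_, fun x q hx => (hchoice x q hx).1, ?_⟩
  · intro x hx
    obtain ⟨g, q, hg, hq⟩ := (hnone x).1 hx
    exact ⟨g, q, hg, ((hnb x g q).1 hq).2⟩
  · intro x q g q' hg hnear h1 h2
    have hne := hcol x g hnear hg
    rcases lt_or_gt_of_ne hne with h | h
    · exact (hchoice x q h1).2 g q' ((hnb x g q').2 ⟨⟨hg, hnear, h⟩, h2⟩)
    · have hg' : -g ≠ (0, 0) := by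
        intro h0
        apply hg
        rw [← neg_neg g, h0]
        rfl
      have hnear' : Near (8 * (1024 * (N : ℤ)) + 4) (-g) := by
        rw [near_iff] at *
        simp only [Prod.fst_neg, Prod.snd_neg]
        omega
      have h3 := (hchoice (mv g x) q' h2).2 (-g) q ((hnb (mv g x) (-g) q).2
        ⟨⟨hg', hnear', by rw [hback]; exact h⟩, by rw [hback]; exact h1⟩)
      have h4 := h3.symm
      rwa [neg_neg] at h4

end Pool.Agent.Helper64.Tiling
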