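import Mathlib
import Pool.Agent.Helper64.Tiling.Markers

set_option autoImplicit false

namespace Pool.Agent.Helper64.Tiling

/-! Clopen partition of the planar orbits into rectangles with long sides. -/

variable {n : ℕ}

/-- the point `w` lies in the rectangle with extents `q` around `g` -/
def InR (q : Ext) (g w : ℤ × ℤ) : Prop :=
  g.1 - q.a1 ≤ w.1 ∧ w.1 < g.1 + q.a2 ∧ g.2 - q.b1 ≤ w.2 ∧ w.2 < g.2 + q.b2

/-- `o` is the marker of least colour whose rectangle contains `w` -/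
def Owner (c : FreePart n → ℕ) (D : FreePart n → Option Ext) (x : FreePart n) (w o : ℤ × ℤ) :
    Prop :=
  ∃ q, D (mv o x) = some q ∧ InR q o w ∧
    ∀ o' q', D (mv o' x) = some q' → InR q' o' w → c (mv o x) ≤ c (mv o' x)

/-- vertical lines of the rectangles near `o` -/
def VLine (K : ℤ) (D : FreePart n → Option Ext) (x : FreePart n) (o : ℤ × ℤ) (t : ℤ) : Prop :=
  ∃ g q, Near (4 * K + 2) (g - o) ∧ D (mv g x) = some q ∧ (t = g.1 - q.a1 ∨ t = g.1 + q.a2)

/-- horizontal lines of the rectangles near `o` -/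
def HLine (K : ℤ) (D : FreePart n → Option Ext) (x : FreePart n) (o : ℤ × ℤ) (t : ℤ) : Prop :=
  ∃ g q, Near (4 * K + 2) (g - o) ∧ D (mv g x) = some q ∧ (t = g.2 - q.b1 ∨ t = g.2 + q.b2)

/-- rectangles `[l, r) × [b, t)` -/
structure Rect where
  l : ℤ
  r : ℤ
  b : ℤ
  t : ℤ

/-- the point `w` lies in `Q` -/
def Rect.Mem (Q : Rect) (w : ℤ × ℤ) : Prop := Q.l ≤ w.1 ∧ w.1 < Q.r ∧ Q.b ≤ w.2 ∧ w.2 < Q.t

/-- translation of a rectangle -/
def Rect.add (Q : Rect) (v : ℤ × ℤ) : Rect := ⟨Q.l + v.1, Q.r + v.1, Q.b + v.2, Q.t + v.2⟩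

/-- `Q` is the rectangle of the partition containing `w` -/
def AbsRect (K : ℤ) (c : FreePart n → ℕ) (D : FreePart n → Option Ext) (x : FreePart n)
    (w : ℤ × ℤ) (Q : Rect) : Prop :=
  ∃ o, Owner c D x w o ∧ Q.Mem w ∧
    (VLine K D x o Q.l ∧ VLine K D x o Q.r ∧ ∀ t, VLine K D x o t → t ≤ Q.l ∨ Q.r ≤ t) ∧
    (HLine K D x o Q.b ∧ HLine K D x o Q.t ∧ ∀ t, HLine K D x o t → t ≤ Q.b ∨ Q.t ≤ t)

/-- what is known about the markers -/
structure MarkerData (N K : ℤ) (c : FreePart n → ℕ) (D : FreePart n → Option Ext) : Prop where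
  hK : 0 ≤ K
  hNK : N ≤ 2 * K
  proper : ∀ x g, Near (8 * K + 4) g → g ≠ (0, 0) → c (mv g x) ≠ c x
  dense : ∀ x, D x = none → ∃ g q, Near K g ∧ D (mv g x) = some q
  size : ∀ x q, D x = some q → SizeOK K q
  far : ∀ x q g q', g ≠ (0, 0) → Near (8 * K + 4) g → D x = some q →
    D (mv g x) = some q' → Far N q g q'

section

variable {N K : ℤ} {c : FreePart n → ℕ} {D : FreePart n → Option Ext}

theorem InR.near {q : Ext} (hq : SizeOK K q) {g w : ℤ × ℤ} (h : InR q g w) :
    Near (2 * K + 1) (g - w) := by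
  unfold SizeOK InR at *
  rw [near_iff]
  simp only [Prod.fst_sub, Prod.snd_sub]
  omega

theorem exists_owner (h : MarkerData N K c D) (x : FreePart n) (w : ℤ × ℤ) :
    ∃ o, Owner c D x w o := by
  classical
  have h1 : ∃ o q, D (mv o x) = some q ∧ InR q o w := by
    by_cases hw : ∃ q, D (mv w x) = some q
    · obtain ⟨q, hq⟩ := hw
      refine ⟨w, q, hq, ?_⟩
      have := h.size _ _ hq
      have hK := h.hK
      unfold SizeOK InR at *
      omega
    · have h2 : D (mv w x) = none := by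
        cases h3 : D (mv w x) with
        | none => rfl
        | some q => exact absurd ⟨q, h3⟩ hw
      obtain ⟨g, q, hg, hq⟩ := h.dense _ h2
      rw [mv_mv] at hq
      refine ⟨g + w, q, hq, ?_⟩
      have := h.size _ _ hq
      have hK := h.hK
      rw [near_iff] at hg
      unfold SizeOK InR at *
      simp only [Prod.fst_add, Prod.snd_add]
      omega
  let P : ℕ → Prop := fun m => ∃ o q, D (mv o x) = some q ∧ InR q o w ∧ c (mv o x) = m
  have hP : ∃ m, P m := by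
    obtain ⟨o, q, h2, h3⟩ := h1
    exact ⟨_, o, q, h2, h3, rfl⟩
  obtain ⟨o, q, h2, h3, h4⟩ := Nat.find_spec hP
  refine ⟨o, q, h2, h3, fun o' q' h5 h6 => ?_⟩
  rw [h4]
  exact Nat.find_min' hP ⟨o', q', h5, h6, rfl⟩

theorem owner_unique (h : MarkerData N K c D) {x : FreePart n} {w o o' : ℤ × ℤ}
    (h1 : Owner c D x w o) (h2 : Owner c D x w o') : o = o' := by
  obtain ⟨q, hq, hR, hmin⟩ := h1
  obtain ⟨q', hq', hR', hmin'⟩ := h2
  have heq : c (mv o x) = c (mv o' x) := le_antisymm (hmin o' q' hq' hR') (hmin' o q hq hR)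
  by_contra hne
  have hn1 := near_iff.1 (hR.near (h.size _ _ hq))
  have hn2 := near_iff.1 (hR'.near (h.size _ _ hq'))
  have hK := h.hK
  have h3 := h.proper (mv o' x) (o - o') (by
    rw [near_iff]
    simp only [Prod.fst_sub, Prod.snd_sub] at *
    omega) (fun h0 => hne (by
      have h4 : o - o' = 0 := h0
      exact sub_eq_zero.1 h4))
  rw [mv_mv, sub_add_cancel] at h3
  exact h3 heq

theorem vline_bdd (h : MarkerData N K c D) {x : FreePart n} {o : ℤ × ℤ} {t : ℤ}
    (ht : VLine K D x o t) : o.1 - (6 * K + 3) ≤ t ∧ t ≤ o.1 + (6 * K + 3) := by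
  obtain ⟨g, q, hg, hq, ht⟩ := ht
  have h1 := h.size _ _ hq
  rw [near_iff] at hg
  unfold SizeOK at h1
  simp only [Prod.fst_sub, Prod.snd_sub] at hg
  omega

theorem hline_bdd (h : MarkerData N K c D) {x : FreePart n} {o : ℤ × ℤ} {t : ℤ}
    (ht : HLine K D x o t) : o.2 - (6 * K + 3) ≤ t ∧ t ≤ o.2 + (6 * K + 3) := by
  obtain ⟨g, q, hg, hq, ht⟩ := ht
  have h1 := h.size _ _ hq
  rw [near_iff] at hg
  unfold SizeOK at h1
  simp only [Prod.fst_sub, Prod.snd_sub] at hg
  omega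

/-- neighbouring lines -/
theorem exists_lines {P : ℤ → Prop} {lo hi w a b : ℤ} (hP : ∀ t, P t → lo ≤ t ∧ t ≤ hi)
    (ha : P a) (haw : a ≤ w) (hb : P b) (hbw : w < b) :
    ∃ l r, P l ∧ P r ∧ l ≤ w ∧ w < r ∧ ∀ t, P t → t ≤ l ∨ r ≤ t := by
  obtain ⟨l, ⟨hl, hlw⟩, hl'⟩ := Int.exists_greatest_of_bdd (P := fun t => P t ∧ t ≤ w)
    ⟨w, fun t ht => ht.2⟩ ⟨a, ha, haw⟩
  obtain ⟨r, ⟨hr, hrw⟩, hr'⟩ := Int.exists_least_of_bdd (P := fun t => P t ∧ w < t)
    ⟨w, fun t ht => ht.2.le⟩ ⟨b, hb, hbw⟩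
  refine ⟨l, r, hl, hr, hlw, hrw, fun t ht => ?_⟩
  by_cases h : t ≤ w
  · exact Or.inl (hl' t ⟨ht, h⟩)
  · exact Or.inr (hr' t ⟨ht, not_le.1 h⟩)

theorem near_zero (h : MarkerData N K c D) (o : ℤ × ℤ) : Near (4 * K + 2) (o - o) := by
  have := h.hK
  rw [near_iff]
  simp only [sub_self, Prod.fst_zero, Prod.snd_zero]
  omega

theorem exists_absRect (h : MarkerData N K c D) (x : FreePart n) (w : ℤ × ℤ) :
    ∃ Q, AbsRect K c D x w Q := by
  obtain ⟨o, ho⟩ := exists_owner h x w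
  obtain ⟨q, hq, hR, -⟩ := id ho
  obtain ⟨l, r, hl, hr, hlw, hwr, hlr⟩ := exists_lines (P := VLine K D x o)
    (fun t ht => vline_bdd h ht) ⟨o, q, near_zero h o, hq, Or.inl rfl⟩ hR.1
    ⟨o, q, near_zero h o, hq, Or.inr rfl⟩ hR.2.1
  obtain ⟨b, t, hb, ht, hbw, hwt, hbt⟩ := exists_lines (P := HLine K D x o)
    (fun t ht => hline_bdd h ht) ⟨o, q, near_zero h o, hq, Or.inl rfl⟩ hR.2.2.1
    ⟨o, q, near_zero h o, hq, Or.inr rfl⟩ hR.2.2.2
  exact ⟨⟨l, r, b, t⟩, o, ho, ⟨hlw, hwr, hbw, hwt⟩, ⟨hl, hr, hlr⟩, hb, ht, hbt⟩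

theorem absRect_unique (h : MarkerData N K c D) {x : FreePart n} {w : ℤ × ℤ} {Q Q' : Rect}
    (h1 : AbsRect K c D x w Q) (h2 : AbsRect K c D x w Q') : Q = Q' := by
  obtain ⟨o, ho, hm, ⟨v1, v2, v3⟩, u1, u2, u3⟩ := h1
  obtain ⟨o', ho', hm', ⟨v1', v2', v3'⟩, u1', u2', u3'⟩ := h2
  have := owner_unique h ho ho'
  subst this
  have e1 := v3 _ v1'
  have e2 := v3 _ v2'
  have e3 := v3' _ v1
  have e4 := v3' _ v2
  have e5 := u3 _ u1'
  have e6 := u3 _ u2'
  have e7 := u3' _ u1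
  have e8 := u3' _ u2
  unfold Rect.Mem at hm hm'
  cases Q
  cases Q'
  simp only at *
  rw [Rect.mk.injEq]
  omega

/-- the rectangle of a point is the rectangle of each of its points -/
theorem absRect_mem (h : MarkerData N K c D) {x : FreePart n} {w w' : ℤ × ℤ} {Q : Rect}
    (h1 : AbsRect K c D x w Q) (h2 : Q.Mem w') : AbsRect K c D x w' Q := by
  obtain ⟨o, ho, hm, ⟨v1, v2, v3⟩, u1, u2, u3⟩ := h1
  refine ⟨o, ?_, h2, ⟨v1, v2, v3⟩, u1, u2, u3⟩
  obtain ⟨q, hq, hR, hmin⟩ := ho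
  have key : ∀ o' q', D (mv o' x) = some q' → Near (4 * K + 2) (o' - o) →
      (InR q' o' w' ↔ InR q' o' w) := by
    intro o' q' hq' hnear
    have e1 := v3 _ ⟨o', q', hnear, hq', Or.inl rfl⟩
    have e2 := v3 _ ⟨o', q', hnear, hq', Or.inr rfl⟩
    have e3 := u3 _ ⟨o', q', hnear, hq', Or.inl rfl⟩
    have e4 := u3 _ ⟨o', q', hnear, hq', Or.inr rfl⟩
    unfold Rect.Mem InR at *
    omega
  have hR' : InR q o w' := (key o q hq (near_zero h o)).2 hR
  refine ⟨q, hq, hR', fun o' q' hq' hR2 => ?_⟩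
  have hnear : Near (4 * K + 2) (o' - o) := by
    have hn1 := near_iff.1 (hR'.near (h.size _ _ hq))
    have hn2 := near_iff.1 (hR2.near (h.size _ _ hq'))
    rw [near_iff]
    simp only [Prod.fst_sub, Prod.snd_sub] at *
    omega
  exact hmin o' q' hq' ((key o' q' hq' hnear).1 hR2)

/-- the sides are long -/
theorem absRect_size (h : MarkerData N K c D) {x : FreePart n} {w : ℤ × ℤ} {Q : Rect}
    (h1 : AbsRect K c D x w Q) : N ≤ Q.r - Q.l ∧ N ≤ Q.t - Q.b := by
  obtain ⟨o, ho, hm, ⟨v1, v2, v3⟩, u1, u2, u3⟩ := h1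
  have hNK := h.hNK
  have hK := h.hK
  constructor
  · obtain ⟨g, q, hg, hq, hl⟩ := v1
    obtain ⟨g', q', hg', hq', hr⟩ := v2
    by_cases hgg : g = g'
    · subst hgg
      rw [hq] at hq'
      have hqq := Option.some.inj hq'
      subst hqq
      have h3 := h.size _ _ hq
      unfold SizeOK at h3
      unfold Rect.Mem at hm
      omega
    · have h4 : Near (8 * K + 4) (g' - g) := by
        rw [near_iff] at *
        simp only [Prod.fst_sub, Prod.snd_sub] at *
        omega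
      have h5 := h.far (mv g x) q (g' - g) q' (fun h0 => hgg (by
        have h4 : g' - g = 0 := h0
        exact (sub_eq_zero.1 h4).symm)) h4 hq (by rw [mv_mv, sub_add_cancel]; exact hq')
      unfold Far FarZ at h5
      unfold Rect.Mem at hm
      simp only [Prod.fst_sub, Prod.snd_sub] at h5
      omega
  · obtain ⟨g, q, hg, hq, hl⟩ := u1
    obtain ⟨g', q', hg', hq', hr⟩ := u2
    by_cases hgg : g = g'
    · subst hgg
      rw [hq] at hq'
      have hqq := Option.some.inj hq'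
      subst hqq
      have h3 := h.size _ _ hq
      unfold SizeOK at h3
      unfold Rect.Mem at hm
      omega
    · have h4 : Near (8 * K + 4) (g' - g) := by
        rw [near_iff] at *
        simp only [Prod.fst_sub, Prod.snd_sub] at *
        omega
      have h5 := h.far (mv g x) q (g' - g) q' (fun h0 => hgg (by
        have h4 : g' - g = 0 := h0
        exact (sub_eq_zero.1 h4).symm)) h4 hq (by rw [mv_mv, sub_add_cancel]; exact hq')
      unfold Far FarZ at h5
      unfold Rect.Mem at hm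
      simp only [Prod.fst_sub, Prod.snd_sub] at h5
      omega

theorem InR.translate {q : Ext} {g w : ℤ × ℤ} (v : ℤ × ℤ) :
    InR q (g + v) (w + v) ↔ InR q g w := by
  unfold InR
  simp only [Prod.fst_add, Prod.snd_add]
  omega

theorem owner_translate (x : FreePart n) (v w o : ℤ × ℤ) :
    Owner c D (mv v x) w o → Owner c D x (w + v) (o + v) := by
  rintro ⟨q, hq, hR, hmin⟩
  rw [mv_mv] at hq
  refine ⟨q, hq, (InR.translate v).2 hR, fun o' q' hq' hR' => ?_⟩
  have h1 := hmin (o' - v) q' (by rw [mv_mv, sub_add_cancel]; exact hq') (by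
    rw [← InR.translate v, sub_add_cancel]
    exact hR')
  rw [mv_mv, mv_mv, sub_add_cancel] at h1
  exact h1

theorem vline_translate (x : FreePart n) (v o : ℤ × ℤ) (t : ℤ) :
    VLine K D (mv v x) o t ↔ VLine K D x (o + v) (t + v.1) := by
  constructor
  · rintro ⟨g, q, hg, hq, ht⟩
    rw [mv_mv] at hq
    refine ⟨g + v, q, by rwa [add_sub_add_right_eq_sub], hq, ?_⟩
    simp only [Prod.fst_add]
    omega
  · rintro ⟨g, q, hg, hq, ht⟩
    refine ⟨g - v, q, ?_, by rw [mv_mv, sub_add_cancel]; exact hq, ?_⟩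
    · rwa [show g - v - o = g - (o + v) by abel]
    · simp only [Prod.fst_sub]
      omega

theorem hline_translate (x : FreePart n) (v o : ℤ × ℤ) (t : ℤ) :
    HLine K D (mv v x) o t ↔ HLine K D x (o + v) (t + v.2) := by
  constructor
  · rintro ⟨g, q, hg, hq, ht⟩
    rw [mv_mv] at hq
    refine ⟨g + v, q, by rwa [add_sub_add_right_eq_sub], hq, ?_⟩
    simp only [Prod.snd_add]
    omega
  · rintro ⟨g, q, hg, hq, ht⟩
    refine ⟨g - v, q, ?_, by rw [mv_mv, sub_add_cancel]; exact hq, ?_⟩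
    · rwa [show g - v - o = g - (o + v) by abel]
    · simp only [Prod.snd_sub]
      omega

theorem absRect_translate {x : FreePart n} {v w : ℤ × ℤ} {Q : Rect}
    (h1 : AbsRect K c D (mv v x) w Q) : AbsRect K c D x (w + v) (Q.add v) := by
  obtain ⟨o, ho, hm, ⟨v1, v2, v3⟩, u1, u2, u3⟩ := h1
  refine ⟨o + v, owner_translate x v w o ho, ?_, ⟨(vline_translate x v o _).1 v1,
    (vline_translate x v o _).1 v2, ?_⟩, (hline_translate x v o _).1 u1,
    (hline_translate x v o _).1 u2, ?_⟩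
  · unfold Rect.Mem Rect.add at *
    simp only [Prod.fst_add, Prod.snd_add]
    omega
  · intro t ht
    have h2 := v3 (t - v.1) ((vline_translate x v o _).2 (by rwa [sub_add_cancel]))
    unfold Rect.add
    simp only
    omega
  · intro t ht
    have h2 := u3 (t - v.2) ((hline_translate x v o _).2 (by rwa [sub_add_cancel]))
    unfold Rect.add
    simp only
    omega

theorem absRect_congr (h : MarkerData N K c D) {x y : FreePart n}
    (hxy : ∀ g, Near (8 * K + 4) g → c (mv g x) = c (mv g y) ∧ D (mv g x) = D (mv g y))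
    {Q : Rect} (h1 : AbsRect K c D x (0, 0) Q) : AbsRect K c D y (0, 0) Q := by
  have hK := h.hK
  obtain ⟨o, ⟨q, hq, hR, hmin⟩, hm, ⟨v1, v2, v3⟩, u1, u2, u3⟩ := h1
  have ho : Near (2 * K + 1) o := by
    have := hR.near (h.size _ _ hq)
    rwa [show o - (0, 0) = o from sub_zero o] at this
  have ho' : Near (8 * K + 4) o := by
    rw [near_iff] at *
    omega
  have hg' : ∀ g, Near (4 * K + 2) (g - o) → Near (8 * K + 4) g := by
    intro g hg
    rw [near_iff] at *
    simp only [Prod.fst_sub, Prod.snd_sub] at hg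
    omega
  have hv : ∀ t, VLine K D x o t ↔ VLine K D y o t := by
    intro t
    constructor
    · rintro ⟨g, q, hg, hq, ht⟩
      exact ⟨g, q, hg, by rw [← (hxy g (hg' g hg)).2]; exact hq, ht⟩
    · rintro ⟨g, q, hg, hq, ht⟩
      exact ⟨g, q, hg, by rw [(hxy g (hg' g hg)).2]; exact hq, ht⟩
  have hh : ∀ t, HLine K D x o t ↔ HLine K D y o t := by
    intro t
    constructor
    · rintro ⟨g, q, hg, hq, ht⟩
      exact ⟨g, q, hg, by rw [← (hxy g (hg' g hg)).2]; exact hq, ht⟩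
    · rintro ⟨g, q, hg, hq, ht⟩
      exact ⟨g, q, hg, by rw [(hxy g (hg' g hg)).2]; exact hq, ht⟩
  refine ⟨o, ⟨q, by rw [← (hxy o ho').2]; exact hq, hR, fun o' q' hq' hR' => ?_⟩, hm,
    ⟨(hv _).1 v1, (hv _).1 v2, fun t ht => v3 t ((hv t).2 ht)⟩, (hh _).1 u1, (hh _).1 u2,
    fun t ht => u3 t ((hh t).2 ht)⟩
  have h2 : Near (8 * K + 4) o' := by
    have := hR'.near (h.size _ _ hq')
    rw [show o' - (0, 0) = o' from sub_zero o'] at this
    rw [near_iff] at *
    omega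
  have h3 := hmin o' q' (by rw [(hxy o' h2).2]; exact hq') hR'
  rw [(hxy o ho').1, (hxy o' h2).1] at h3
  exact h3

end

/-- A clopen partition into rectangles with sides at least `N`. -/
theorem exists_rectPart (hn : 2 ≤ n) (N : ℕ) (hN : 1 ≤ N) :
    ∃ Q : FreePart n → Rect, LC Q ∧ ∀ x, (Q x).Mem (0, 0) ∧
      (N : ℤ) ≤ (Q x).r - (Q x).l ∧ (N : ℤ) ≤ (Q x).t - (Q x).b ∧
      ∀ w, (Q x).Mem w → (Q (mv w x)).add w = Q x := by
  classical
  obtain ⟨c, D, hc, hD, h1, h2, h3, h4⟩ := exists_markers (n := n) hn N hN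
  have h : MarkerData (N : ℤ) (1024 * N) c D := ⟨by positivity, by
    have : (0 : ℤ) ≤ N := by positivity
    linarith, h1, h2, h3, h4⟩
  choose Q hQ using fun x => exists_absRect h x (0, 0)
  refine ⟨Q, ?_, fun x => ?_⟩
  · apply LC.of_finite (pbox (8 * (1024 * (N : ℤ)) + 4))
      (fun g x => (c (mv g x), D (mv g x)))
    · intro g _
      exact (hc.mv g).prodMk (hD.mv g)
    · intro x y hxy
      have h5 := absRect_congr h (x := x) (y := y) (fun g hg => by
        have := hxy g (mem_pbox.2 hg)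
        rw [Prod.mk.injEq] at this
        exact this) (hQ x)
      exact absRect_unique h h5 (hQ y)
  · have h5 := hQ x
    obtain ⟨o, ho, hm, -⟩ := id h5
    have h6 := absRect_size h h5
    refine ⟨hm, h6.1, h6.2, fun w hw => ?_⟩
    have h7 := absRect_translate (hQ (mv w x))
    rw [show ((0, 0) : ℤ × ℤ) + w = w from zero_add w] at h7
    exact absRect_unique h h7 (absRect_mem h h5 hw)

end Pool.Agent.Helper64.Tiling
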