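import Mathlib
import Pool.Agent.Helper64.Tiling.RectPart

set_option autoImplicit false

namespace Pool.Agent.Helper64.Tiling

/-! If all large rectangles can be tiled then there is a continuous tiling. -/

variable {n : ℕ}

/-- planar tiles -/
abbrev PTile : Type := Finset (ℤ × ℤ)

/-- the planar region `R` can be tiled with translates of tiles from `𝒯` -/
def TilesRegion (𝒯 : Set PTile) (R : Set (ℤ × ℤ)) : Prop :=
  ∃ P : Set (PTile × (ℤ × ℤ)), (∀ p ∈ P, p.1 ∈ 𝒯 ∧ ∀ z, z - p.2 ∈ p.1 → z ∈ R) ∧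
    ∀ z ∈ R, ∃! p, p ∈ P ∧ z - p.2 ∈ p.1

/-- the rectangle of width `W` and height `H` at the origin -/
def rect (W H : ℤ) : Set (ℤ × ℤ) := {z | 0 ≤ z.1 ∧ z.1 < W ∧ 0 ≤ z.2 ∧ z.2 < H}

/-- the flat copy of a planar tile -/
noncomputable def flatTile (T : PTile) : Finset (Vec n) := T.image flat

theorem flatTile_injective (hn : 2 ≤ n) : Function.Injective (flatTile : PTile → Finset (Vec n)) :=
  Finset.image_injective (flat_injective hn)

theorem mem_flatTile {T : PTile} {z : Vec n} : z ∈ flatTile T ↔ ∃ v ∈ T, flat v = z := by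
  unfold flatTile
  rw [Finset.mem_image]

theorem continuousTiling_of_rectangles (hn : 2 ≤ n) (𝒯 : Set PTile)
    (h0 : ∀ T ∈ 𝒯, ((0, 0) : ℤ × ℤ) ∈ T) (N : ℕ) (hN : 1 ≤ N)
    (hrect : ∀ W H : ℤ, (N : ℤ) ≤ W → (N : ℤ) ≤ H → TilesRegion 𝒯 (rect W H)) :
    HasContinuousTiling (n := n) (flatTile '' 𝒯) := by
  classical
  obtain ⟨Q, hQlc, hQ⟩ := exists_rectPart (n := n) hn N hN
  choose! P hP1 hP2 using hrect
  let S : Finset (Vec n) → Set Rect := fun T => {R | ∃ T0 ∈ 𝒯, T = flatTile T0 ∧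
    (T0, (-R.l, -R.b)) ∈ P (R.r - R.l) (R.t - R.b)}
  refine ⟨fun T => {x | Q x ∈ S T}, fun T _ => hQlc.isClopen _, fun x z => ?_⟩
  -- the rectangle of the point `z`
  set y : FreePart n := act z x with hy
  have hmove : ∀ v : ℤ × ℤ, act (z - flat v) x = mv (-v) y := by
    intro v
    unfold mv
    rw [hy, act_act, flat_neg]
    congr 1
    abel
  obtain ⟨hmem, hw, hh, htr⟩ := hQ y
  obtain ⟨⟨T0, p⟩, ⟨hT0P, hT0z⟩, huniq⟩ := hP2 _ _ hw hh (-(Q y).l, -(Q y).b) (by
    unfold Rect.Mem at hmem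
    unfold rect
    simp only [Set.mem_ofPred_eq]
    omega)
  have hT0 : T0 ∈ 𝒯 := (hP1 _ _ hw hh _ hT0P).1
  let v : ℤ × ℤ := (-(Q y).l, -(Q y).b) - p
  have hv : v ∈ T0 := hT0z
  have hpr : p ∈ rect ((Q y).r - (Q y).l) ((Q y).t - (Q y).b) := by
    apply (hP1 _ _ hw hh _ hT0P).2 p
    simp only [sub_self]
    exact h0 T0 hT0
  have hmemv : (Q y).Mem (-v) := by
    unfold rect at hpr
    unfold Rect.Mem
    simp only [Set.mem_ofPred_eq] at hpr
    simp only [v, Prod.fst_neg, Prod.snd_neg, Prod.fst_sub, Prod.snd_sub]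
    omega
  have hQv := htr (-v) hmemv
  refine ⟨(flatTile T0, z - flat v), ⟨⟨T0, hT0, rfl⟩, ?_, ?_⟩, ?_⟩
  · show Q (act (z - flat v) x) ∈ S (flatTile T0)
    rw [hmove]
    refine ⟨T0, hT0, rfl, ?_⟩
    have k1 : (Q (mv (-v) y)).l + (-v).1 = (Q y).l := congrArg Rect.l hQv
    have k2 : (Q (mv (-v) y)).r + (-v).1 = (Q y).r := congrArg Rect.r hQv
    have k3 : (Q (mv (-v) y)).b + (-v).2 = (Q y).b := congrArg Rect.b hQv
    have k4 : (Q (mv (-v) y)).t + (-v).2 = (Q y).t := congrArg Rect.t hQv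
    have k5 : v.1 = -(Q y).l - p.1 := rfl
    have k6 : v.2 = -(Q y).b - p.2 := rfl
    rw [Prod.fst_neg] at k1 k2
    rw [Prod.snd_neg] at k3 k4
    have e1 : (-(Q (mv (-v) y)).l, -(Q (mv (-v) y)).b) = p := by
      apply Prod.ext
      · show -(Q (mv (-v) y)).l = p.1
        omega
      · show -(Q (mv (-v) y)).b = p.2
        omega
    have e2 : (Q (mv (-v) y)).r - (Q (mv (-v) y)).l = (Q y).r - (Q y).l ∧
        (Q (mv (-v) y)).t - (Q (mv (-v) y)).b = (Q y).t - (Q y).b := by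
      omega
    rw [e1, e2.1, e2.2]
    exact hT0P
  · show z - (z - flat v) ∈ flatTile T0
    rw [sub_sub_cancel]
    exact mem_flatTile.2 ⟨v, hv, rfl⟩
  · rintro ⟨T, g⟩ ⟨-, hg, hz⟩
    obtain ⟨T1, hT1, rfl, hT1P⟩ := hg
    obtain ⟨u, hu, hug⟩ := mem_flatTile.1 hz
    simp only at hug hT1P
    have hg' : g = z - flat u := by
      rw [hug]
      abel
    subst hg'
    rw [hmove] at hT1P
    obtain ⟨hmem', hw', hh', htr'⟩ := hQ (mv (-u) y)
    have hr1 : (-(Q (mv (-u) y)).l, -(Q (mv (-u) y)).b) + u ∈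
        rect ((Q (mv (-u) y)).r - (Q (mv (-u) y)).l) ((Q (mv (-u) y)).t - (Q (mv (-u) y)).b) := by
      apply (hP1 _ _ hw' hh' _ hT1P).2
      simp only [add_sub_cancel_left]
      exact hu
    have hmemu : (Q (mv (-u) y)).Mem u := by
      unfold rect at hr1
      unfold Rect.Mem
      simp only [Set.mem_ofPred_eq, Prod.fst_add, Prod.snd_add] at hr1
      omega
    have hQu := htr' u hmemu
    rw [mv_mv, add_neg_cancel, show mv 0 y = y from mv_zero y] at hQu
    have k1 : (Q y).l + u.1 = (Q (mv (-u) y)).l := congrArg Rect.l hQu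
    have k2 : (Q y).r + u.1 = (Q (mv (-u) y)).r := congrArg Rect.r hQu
    have k3 : (Q y).b + u.2 = (Q (mv (-u) y)).b := congrArg Rect.b hQu
    have k4 : (Q y).t + u.2 = (Q (mv (-u) y)).t := congrArg Rect.t hQu
    have e1 : (T1, (-((Q y).l + u.1), -((Q y).b + u.2))) ∈
        P ((Q y).r - (Q y).l) ((Q y).t - (Q y).b) := by
      rw [show (Q y).r - (Q y).l = (Q (mv (-u) y)).r - (Q (mv (-u) y)).l by omega,
        show (Q y).t - (Q y).b = (Q (mv (-u) y)).t - (Q (mv (-u) y)).b by omega, k1, k3]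
      exact hT1P
    have e2 := huniq (T1, (-((Q y).l + u.1), -((Q y).b + u.2))) ⟨e1, by
      have e3 : ((-(Q y).l, -(Q y).b) : ℤ × ℤ) - (-((Q y).l + u.1), -((Q y).b + u.2)) = u := by
        apply Prod.ext
        · simp only [Prod.fst_sub]
          ring
        · simp only [Prod.snd_sub]
          ring
      rw [e3]
      exact hu⟩
    rw [Prod.mk.injEq] at e2
    obtain ⟨e4, e5⟩ := e2
    subst e4
    have e6 : v = u := by
      show ((-(Q y).l, -(Q y).b) : ℤ × ℤ) - p = u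
      rw [← e5]
      apply Prod.ext
      · simp only [Prod.fst_sub]
        ring
      · simp only [Prod.snd_sub]
        ring
    rw [e6]

end Pool.Agent.Helper64.Tiling
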