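import Mathlib
import Pool.Agent.Helper64.Tiling.Positive

set_option autoImplicit false

namespace Pool.Agent.Helper64.Tiling

/-! Block-shaped tiles with coded edges. -/

/-- A description of a block: width, height, and the codes of the left, bottom, right and top
edges; the code `0` stands for a plain edge. -/
structure Desc where
  w : ℤ
  h : ℤ
  l : ℤ
  b : ℤ
  r : ℤ
  t : ℤ

/-- edge codes -/
def CodeOK (m c : ℤ) : Prop := c = 0 ∨ (3 ≤ c ∧ c ≤ m - 2)

/-- admissible descriptions for the parameters `m`, `k` -/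
structure Good (m k : ℤ) (d : Desc) : Prop where
  hm : 5 ≤ m
  hk : 4 * m + 10 ≤ k
  hw : d.w = k ∨ d.w = k + 1
  hh : d.h = k ∨ d.h = k + 1
  hl : CodeOK m d.l
  hb : CodeOK m d.b
  hr : CodeOK m d.r
  ht : CodeOK m d.t

/-- The cells of a block. A left edge with code `l ≠ 0` lacks the cells `(1, m + 2 + s)`,
`1 ≤ s ≤ m`, `s ≠ l`; a bottom edge with code `b ≠ 0` lacks the cells `(3, 1 + s)`, `s ≠ b`; the
blocks with the same codes on the right or top edge have the corresponding extra cells. -/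
def Cell (m : ℤ) (d : Desc) (z : ℤ × ℤ) : Prop :=
  (0 ≤ z.1 ∧ z.1 < d.w ∧ 0 ≤ z.2 ∧ z.2 < d.h ∧
    (d.l = 0 ∨ z.1 ≠ 1 ∨ z.2 ≤ m + 2 ∨ 2 * m + 2 < z.2 ∨ z.2 = m + 2 + d.l) ∧
    (d.b = 0 ∨ z.1 ≠ 3 ∨ z.2 ≤ 1 ∨ m + 1 < z.2 ∨ z.2 = 1 + d.b)) ∨
  (d.r ≠ 0 ∧ z.1 = d.w + 1 ∧ m + 2 < z.2 ∧ z.2 ≤ 2 * m + 2 ∧ z.2 ≠ m + 2 + d.r) ∨
  (d.t ≠ 0 ∧ z.1 = 3 ∧ d.h + 1 < z.2 ∧ z.2 ≤ d.h + m + 1 ∧ z.2 ≠ d.h + 1 + d.t)

theorem cell_iff (m : ℤ) (d : Desc) (x y : ℤ) : Cell m d (x, y) ↔
  ((0 ≤ x ∧ x < d.w ∧ 0 ≤ y ∧ y < d.h ∧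
    (d.l = 0 ∨ x ≠ 1 ∨ y ≤ m + 2 ∨ 2 * m + 2 < y ∨ y = m + 2 + d.l) ∧
    (d.b = 0 ∨ x ≠ 3 ∨ y ≤ 1 ∨ m + 1 < y ∨ y = 1 + d.b)) ∨
  (d.r ≠ 0 ∧ x = d.w + 1 ∧ m + 2 < y ∧ y ≤ 2 * m + 2 ∧ y ≠ m + 2 + d.r) ∨
  (d.t ≠ 0 ∧ x = 3 ∧ d.h + 1 < y ∧ y ≤ d.h + m + 1 ∧ y ≠ d.h + 1 + d.t)) := Iff.rfl

/-- vertically isolated cells -/
theorem isolated {m k : ℤ} {d : Desc} (hd : Good m k d) {x y : ℤ} (h : Cell m d (x, y)) :
    Cell m d (x, y + 1) ∨ Cell m d (x, y - 1) ∨ (d.l ≠ 0 ∧ x = 1 ∧ y = m + 2 + d.l) ∨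
      (d.b ≠ 0 ∧ x = 3 ∧ y = 1 + d.b) := by
  obtain ⟨hm, hk, hw, hh, hl, hb, hr, ht⟩ := hd
  have hh' : k ≤ d.h := by omega
  unfold CodeOK at hl hb hr ht
  rcases h with ⟨x0, x1, y0, y1, cl, cb⟩ | ⟨r0, hx, y0, y1, hy⟩ | ⟨t0, hx, y0, y1, hy⟩
  · simp only at x0 x1 y0 y1 cl cb
    clear hw hh hr ht
    by_cases hx1 : x = 1
    · subst hx1
      by_cases hl0 : d.l = 0
      · by_cases hy : y + 1 < d.h
        · left
          left
          exact ⟨x0, x1, by omega, hy, Or.inl hl0, Or.inr (Or.inl (by omega))⟩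
        · right
          left
          left
          exact ⟨x0, x1, by omega, by omega, Or.inl hl0, Or.inr (Or.inl (by omega))⟩
      · by_cases hy2 : y = m + 2 + d.l
        · exact Or.inr (Or.inr (Or.inl ⟨hl0, rfl, hy2⟩))
        · by_cases hy3 : y ≤ m + 2
          · by_cases hy4 : y + 1 ≤ m + 2
            · left
              left
              exact ⟨x0, x1, by omega, by omega, Or.inr (Or.inr (Or.inl hy4)),
                Or.inr (Or.inl (by omega))⟩
            · right
              left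
              left
              exact ⟨x0, x1, by omega, by omega, Or.inr (Or.inr (Or.inl (by omega))),
                Or.inr (Or.inl (by omega))⟩
          · have hy4 : 2 * m + 2 < y := by omega
            by_cases hy5 : y + 1 < d.h
            · left
              left
              exact ⟨x0, x1, by omega, hy5, Or.inr (Or.inr (Or.inr (Or.inl (by omega)))),
                Or.inr (Or.inl (by omega))⟩
            · right
              left
              left
              exact ⟨x0, x1, by omega, by omega, Or.inr (Or.inr (Or.inr (Or.inl (by omega)))),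
                Or.inr (Or.inl (by omega))⟩
    · by_cases hx3 : x = 3
      · subst hx3
        by_cases hb0 : d.b = 0
        · by_cases hy : y + 1 < d.h
          · left
            left
            exact ⟨x0, x1, by omega, hy, Or.inr (Or.inl (by omega)), Or.inl hb0⟩
          · right
            left
            left
            exact ⟨x0, x1, by omega, by omega, Or.inr (Or.inl (by omega)), Or.inl hb0⟩
        · by_cases hy2 : y = 1 + d.b
          · exact Or.inr (Or.inr (Or.inr ⟨hb0, rfl, hy2⟩))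
          · by_cases hy3 : y ≤ 1
            · by_cases hy4 : y + 1 ≤ 1
              · left
                left
                exact ⟨x0, x1, by omega, by omega, Or.inr (Or.inl (by omega)),
                  Or.inr (Or.inr (Or.inl hy4))⟩
              · right
                left
                left
                exact ⟨x0, x1, by omega, by omega, Or.inr (Or.inl (by omega)),
                  Or.inr (Or.inr (Or.inl (by omega)))⟩
            · have hy4 : m + 1 < y := by omega
              by_cases hy5 : y + 1 < d.h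
              · left
                left
                exact ⟨x0, x1, by omega, hy5, Or.inr (Or.inl (by omega)),
                  Or.inr (Or.inr (Or.inr (Or.inl (by omega))))⟩
              · right
                left
                left
                exact ⟨x0, x1, by omega, by omega, Or.inr (Or.inl (by omega)),
                  Or.inr (Or.inr (Or.inr (Or.inl (by omega))))⟩
      · by_cases hy : y + 1 < d.h
        · left
          left
          exact ⟨x0, x1, by omega, hy, Or.inr (Or.inl hx1), Or.inr (Or.inl hx3)⟩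
        · right
          left
          left
          exact ⟨x0, x1, by omega, by omega, Or.inr (Or.inl hx1), Or.inr (Or.inl hx3)⟩
  · simp only at hx y0 y1 hy
    clear hw hh hl hb ht
    by_cases h1 : y < m + 2 + d.r
    · by_cases h2 : y = m + 3
      · left
        right
        left
        exact ⟨r0, hx, by omega, by omega, by omega⟩
      · right
        left
        right
        left
        exact ⟨r0, hx, by omega, by omega, by omega⟩
    · by_cases h2 : y = 2 * m + 2
      · right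
        left
        right
        left
        exact ⟨r0, hx, by omega, by omega, by omega⟩
      · left
        right
        left
        exact ⟨r0, hx, by omega, by omega, by omega⟩
  · simp only at hx y0 y1 hy
    clear hw hh hl hb hr
    by_cases h1 : y < d.h + 1 + d.t
    · by_cases h2 : y = d.h + 2
      · left
        right
        right
        exact ⟨t0, hx, by omega, by omega, by omega⟩
      · right
        left
        right
        right
        exact ⟨t0, hx, by omega, by omega, by omega⟩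
    · by_cases h2 : y = d.h + m + 1
      · right
        left
        right
        right
        exact ⟨t0, hx, by omega, by omega, by omega⟩
      · left
        right
        right
        exact ⟨t0, hx, by omega, by omega, by omega⟩

theorem Good.le_w {m k : ℤ} {d : Desc} (hd : Good m k d) : k ≤ d.w ∧ d.w ≤ k + 1 := by
  have := hd.hw
  omega

theorem Good.le_h {m k : ℤ} {d : Desc} (hd : Good m k d) : k ≤ d.h ∧ d.h ≤ k + 1 := by
  have := hd.hh
  omega

theorem CodeOK.of_ne {m c : ℤ} (h : CodeOK m c) (h0 : c ≠ 0) : 3 ≤ c ∧ c ≤ m - 2 :=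
  h.resolve_left h0

theorem cell_left {m k : ℤ} {d : Desc} (hd : Good m k d) {y : ℤ} (h0 : 0 ≤ y) (h1 : y < d.h) :
    Cell m d (0, y) := by
  have h2 := hd.le_w
  have h3 := hd.hk
  have h4 := hd.hm
  exact Or.inl ⟨le_rfl, by simp only; omega, h0, h1, Or.inr (Or.inl (by simp only; omega)),
    Or.inr (Or.inl (by simp only; omega))⟩

theorem cell_zero {m k : ℤ} {d : Desc} (hd : Good m k d) : Cell m d (0, 0) := by
  have h2 := hd.le_h
  have h3 := hd.hk
  have h4 := hd.hm
  exact cell_left hd le_rfl (by omega)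

theorem cell_bottom {m k : ℤ} {d : Desc} (hd : Good m k d) {x : ℤ} (h0 : 0 ≤ x) (h1 : x < d.w) :
    Cell m d (x, 0) := by
  have h2 := hd.le_h
  have h3 := hd.hk
  have h4 := hd.hm
  exact Or.inl ⟨h0, h1, le_rfl, by simp only; omega, Or.inr (Or.inr (Or.inl (by simp only; omega))),
    Or.inr (Or.inr (Or.inl (by simp only; omega)))⟩

/-- cells above the coded zone -/
theorem cell_high {m k : ℤ} {d : Desc} {x y : ℤ} (hd : Good m k d) (h0 : 0 ≤ x) (h1 : x < d.w)
    (h2 : 2 * m + 2 < y) (h3 : y < d.h) : Cell m d (x, y) := by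
  have h4 := hd.hm
  exact Or.inl ⟨h0, h1, by simp only; omega, h3, Or.inr (Or.inr (Or.inr (Or.inl h2))),
    Or.inr (Or.inr (Or.inr (Or.inl (by simp only; omega))))⟩

/-- extra cells on the right -/
theorem cell_right {m : ℤ} {d : Desc} (hr : d.r ≠ 0) {x s : ℤ} (hx : x = d.w + 1) (h1 : 1 ≤ s)
    (h2 : s ≤ m) (h3 : s ≠ d.r) : Cell m d (x, m + 2 + s) :=
  Or.inr (Or.inl ⟨hr, hx, by simp only; omega, by simp only; omega, by simp only; omega⟩)

/-- extra cells on top -/
theorem cell_top {m : ℤ} {d : Desc} (ht : d.t ≠ 0) {y s : ℤ} (hy : y = d.h + 1 + s) (h1 : 1 ≤ s)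
    (h2 : s ≤ m) (h3 : s ≠ d.t) : Cell m d (3, y) :=
  Or.inr (Or.inr ⟨ht, rfl, by simp only; omega, by simp only; omega, by simp only; omega⟩)

/-- A coded right edge forces the right neighbour. -/
theorem forward_right {m k : ℤ} {d d' : Desc} (hd : Good m k d) (hd' : Good m k d')
    (hr : d.r ≠ 0) {u u' : ℤ × ℤ}
    (hdisj : ∀ y : ℤ × ℤ, Cell m d (y - u) → Cell m d' (y - u') → False)
    (hz : Cell m d' (u + (d.w + 1, m + 2 + d.r) - u')) :
    d'.l = d.r ∧ u' = u + (d.w, 0) := by
  obtain ⟨u1, u2⟩ := u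
  obtain ⟨v1, v2⟩ := u'
  have hdisj' : ∀ x y x' y' : ℤ, x + u1 = x' + v1 → y + u2 = y' + v2 → Cell m d (x, y) →
      Cell m d' (x', y') → False := by
    intro x y x' y' h1 h2 h3 h4
    apply hdisj (x + u1, y + u2)
    · rwa [show ((x + u1, y + u2) : ℤ × ℤ) - (u1, u2) = (x, y) by
        apply Prod.ext <;> simp]
    · rwa [show ((x + u1, y + u2) : ℤ × ℤ) - (v1, v2) = (x', y') by
        apply Prod.ext <;> simp <;> omega]
  have hz' : Cell m d' (u1 + (d.w + 1) - v1, u2 + (m + 2 + d.r) - v2) := hz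
  have hm := hd.hm
  have hk := hd.hk
  obtain ⟨hw1, hw2⟩ := hd.le_w
  obtain ⟨hh1, hh2⟩ := hd.le_h
  obtain ⟨hw1', hw2'⟩ := hd'.le_w
  obtain ⟨hh1', hh2'⟩ := hd'.le_h
  obtain ⟨hr1, hr2⟩ := hd.hr.of_ne hr
  have hl' := hd'.hl
  have hb' := hd'.hb
  rcases isolated hd' hz' with h | h | ⟨h1, h2, h3⟩ | ⟨h1, h2, h3⟩
  · exfalso
    refine hdisj' (d.w + 1) (m + 2 + (d.r + 1)) _ _ ?_ ?_
      (cell_right hr rfl (by omega) (by omega) (by omega)) h <;> omega
  · exfalso
    refine hdisj' (d.w + 1) (m + 2 + (d.r - 1)) _ _ ?_ ?_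
      (cell_right hr rfl (by omega) (by omega) (by omega)) h <;> omega
  · -- the left edge of `d'`
    obtain ⟨hl1, hl2⟩ := hl'.of_ne h1
    have hcc : d'.l = d.r := by
      by_contra hne
      rcases lt_or_gt_of_ne hne with hlt | hgt
      · refine hdisj' (d.w + 1) (m + 2 + (d.r - d'.l)) 1 (m + 2) ?_ ?_
          (cell_right hr rfl (by omega) (by omega) (by omega)) (Or.inl ⟨by simp, by simp only; omega,
            by simp only; omega, by simp only; omega, Or.inr (Or.inr (Or.inl le_rfl)),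
            Or.inr (Or.inl (by simp))⟩) <;> omega
      · refine hdisj' (d.w + 1) (m + 2 + (m + 1 + d.r - d'.l)) 1 (2 * m + 3) ?_ ?_
          (cell_right hr rfl (by omega) (by omega) (by omega))
          (cell_high hd' (by omega) (by omega) (by omega) (by omega)) <;> omega
    refine ⟨hcc, ?_⟩
    apply Prod.ext
    · show v1 = u1 + d.w
      omega
    · show v2 = u2 + 0
      omega
  · exfalso
    obtain ⟨hb1, hb2⟩ := hb'.of_ne h1
    refine hdisj' (d.w - 2) (k - 1) 0 (k - 1 - (m + 1 + d.r - d'.b)) ?_ ?_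
      (cell_high hd (by omega) (by omega) (by omega) (by omega))
      (cell_left hd' (by omega) (by omega)) <;> omega

/-- A coded top edge forces the upper neighbour. -/
theorem forward_top {m k : ℤ} {d d' : Desc} (hd : Good m k d) (hd' : Good m k d')
    (ht : d.t ≠ 0) {u u' : ℤ × ℤ}
    (hdisj : ∀ y : ℤ × ℤ, Cell m d (y - u) → Cell m d' (y - u') → False)
    (hz : Cell m d' (u + (3, d.h + 1 + d.t) - u')) :
    d'.b = d.t ∧ u' = u + (0, d.h) := by
  obtain ⟨u1, u2⟩ := u
  obtain ⟨v1, v2⟩ := u'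
  have hdisj' : ∀ x y x' y' : ℤ, x + u1 = x' + v1 → y + u2 = y' + v2 → Cell m d (x, y) →
      Cell m d' (x', y') → False := by
    intro x y x' y' h1 h2 h3 h4
    apply hdisj (x + u1, y + u2)
    · rwa [show ((x + u1, y + u2) : ℤ × ℤ) - (u1, u2) = (x, y) by
        apply Prod.ext <;> simp]
    · rwa [show ((x + u1, y + u2) : ℤ × ℤ) - (v1, v2) = (x', y') by
        apply Prod.ext <;> simp <;> omega]
  have hz' : Cell m d' (u1 + 3 - v1, u2 + (d.h + 1 + d.t) - v2) := hz
  have hm := hd.hm
  have hk := hd.hk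
  obtain ⟨hw1, hw2⟩ := hd.le_w
  obtain ⟨hh1, hh2⟩ := hd.le_h
  obtain ⟨hw1', hw2'⟩ := hd'.le_w
  obtain ⟨hh1', hh2'⟩ := hd'.le_h
  obtain ⟨ht1, ht2⟩ := hd.ht.of_ne ht
  have hl' := hd'.hl
  have hb' := hd'.hb
  rcases isolated hd' hz' with h | h | ⟨h1, h2, h3⟩ | ⟨h1, h2, h3⟩
  · exfalso
    refine hdisj' 3 (d.h + 1 + (d.t + 1)) _ _ ?_ ?_
      (cell_top ht rfl (by omega) (by omega) (by omega)) h <;> omega
  · exfalso
    refine hdisj' 3 (d.h + 1 + (d.t - 1)) _ _ ?_ ?_
      (cell_top ht rfl (by omega) (by omega) (by omega)) h <;> omega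
  · exfalso
    obtain ⟨hl1, hl2⟩ := hl'.of_ne h1
    refine hdisj' 2 (d.h - 1) 0 (m + d'.l - d.t) ?_ ?_
      (cell_high hd (by omega) (by omega) (by omega) (by omega))
      (cell_left hd' (by omega) (by omega)) <;> omega
  · obtain ⟨hb1, hb2⟩ := hb'.of_ne h1
    have hcc : d'.b = d.t := by
      by_contra hne
      rcases lt_or_gt_of_ne hne with hlt | hgt
      · refine hdisj' 3 (d.h + 1 + (d.t - d'.b)) 3 1 ?_ ?_
          (cell_top ht rfl (by omega) (by omega) (by omega)) (Or.inl ⟨by simp, by simp only; omega,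
            by simp, by simp only; omega, Or.inr (Or.inl (by simp)),
            Or.inr (Or.inr (Or.inl le_rfl))⟩) <;> omega
      · refine hdisj' 3 (d.h + 1 + (m + 1 + d.t - d'.b)) 3 (m + 2) ?_ ?_
          (cell_top ht rfl (by omega) (by omega) (by omega)) (Or.inl ⟨by simp, by simp only; omega,
            by simp only; omega, by simp only; omega, Or.inr (Or.inl (by simp)),
            Or.inr (Or.inr (Or.inr (Or.inl (by simp only; omega))))⟩) <;> omega
    refine ⟨hcc, ?_⟩
    apply Prod.ext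
    · show v1 = u1 + 0
      omega
    · show v2 = u2 + d.h
      omega

end Pool.Agent.Helper64.Tiling
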