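import Mathlib
import Pool.Agent.Helper64.Tiling.Shape

set_option autoImplicit false

namespace Pool.Agent.Helper64.Tiling

/-! The finite sets of cells of block-shaped tiles, and their parity. -/

/-- The cells determine the description. -/
theorem desc_unique {m k : ℤ} {d d' : Desc} (hd : Good m k d) (hd' : Good m k d')
    (h : ∀ z, Cell m d z ↔ Cell m d' z) : d = d' := by
  have hm := hd.hm
  have hk := hd.hk
  obtain ⟨hw1, hw2⟩ := hd.le_w
  obtain ⟨hh1, hh2⟩ := hd.le_h
  obtain ⟨hw1', hw2'⟩ := hd'.le_w
  obtain ⟨hh1', hh2'⟩ := hd'.le_h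
  have ew : d.w = d'.w := by
    have key : ∀ e e' : Desc, Good m k e → Good m k e' → (∀ z, Cell m e z → Cell m e' z) →
        e.w ≤ e'.w := by
      intro e e' he he' hee
      obtain ⟨a1, a2⟩ := he.le_w
      obtain ⟨a3, a4⟩ := he.le_h
      obtain ⟨b1, b2⟩ := he'.le_w
      obtain ⟨b3, b4⟩ := he'.le_h
      by_contra hlt
      have h1 := hee (k, k - 1) (cell_high he (by omega) (by omega) (by omega) (by omega))
      rcases h1 with ⟨_, h2, _⟩ | ⟨_, h2, _⟩ | ⟨_, h2, _⟩
      · simp only at h2
        omega
      · simp only at h2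
        omega
      · simp only at h2
        omega
    exact le_antisymm (key d d' hd hd' fun z => (h z).1) (key d' d hd' hd fun z => (h z).2)
  have eh : d.h = d'.h := by
    have key : ∀ e e' : Desc, Good m k e → Good m k e' → (∀ z, Cell m e z → Cell m e' z) →
        e.h ≤ e'.h := by
      intro e e' he he' hee
      obtain ⟨a1, a2⟩ := he.le_w
      obtain ⟨a3, a4⟩ := he.le_h
      obtain ⟨b1, b2⟩ := he'.le_w
      obtain ⟨b3, b4⟩ := he'.le_h
      by_contra hlt
      have h1 := hee (4, k) (cell_high he (by omega) (by omega) (by omega) (by omega))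
      rcases h1 with ⟨_, _, _, h2, _⟩ | ⟨_, h2, _⟩ | ⟨_, h2, _⟩
      · simp only at h2
        omega
      · simp only at h2
        omega
      · simp only at h2
        omega
    exact le_antisymm (key d d' hd hd' fun z => (h z).1) (key d' d hd' hd fun z => (h z).2)
  -- the left edges
  have el : d.l = d'.l := by
    have key : ∀ e e' : Desc, Good m k e → Good m k e' → (∀ z, Cell m e z → Cell m e' z) →
        e'.l = 0 ∨ e.l = e'.l := by
      intro e e' he he' hee
      obtain ⟨a1, a2⟩ := he.le_w
      obtain ⟨a3, a4⟩ := he.le_h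
      obtain ⟨b1, b2⟩ := he'.le_w
      obtain ⟨b3, b4⟩ := he'.le_h
      by_contra hcon
      push Not at hcon
      obtain ⟨c1, c2⟩ := he'.hl.of_ne hcon.1
      rcases he.hl with h0 | ⟨h1, h2⟩
      · have h1 := hee (1, m + 3) (Or.inl ⟨by simp, by simp only; omega, by simp only; omega,
          by simp only; omega, Or.inl h0, Or.inr (Or.inl (by simp))⟩)
        rcases h1 with ⟨_, _, _, _, h2, _⟩ | ⟨_, h2, _⟩ | ⟨_, h2, _⟩
        · simp only at h2
          omega
        · simp only at h2
          omega
        · simp only at h2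
          omega
      · have h1 := hee (1, m + 2 + e.l) (Or.inl ⟨by simp, by simp only; omega, by simp only; omega,
          by simp only; omega, Or.inr (Or.inr (Or.inr (Or.inr rfl))), Or.inr (Or.inl (by simp))⟩)
        rcases h1 with ⟨_, _, _, _, h2, _⟩ | ⟨_, h2, _⟩ | ⟨_, h2, _⟩
        · simp only at h2
          omega
        · simp only at h2
          omega
        · simp only at h2
          omega
    rcases key d d' hd hd' fun z => (h z).1 with h1 | h1
    · rcases key d' d hd' hd fun z => (h z).2 with h2 | h2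
      · rw [h1, h2]
      · exact h2.symm
    · exact h1
  have eb : d.b = d'.b := by
    have key : ∀ e e' : Desc, Good m k e → Good m k e' → (∀ z, Cell m e z → Cell m e' z) →
        e'.b = 0 ∨ e.b = e'.b := by
      intro e e' he he' hee
      obtain ⟨a1, a2⟩ := he.le_w
      obtain ⟨a3, a4⟩ := he.le_h
      obtain ⟨b1, b2⟩ := he'.le_w
      obtain ⟨b3, b4⟩ := he'.le_h
      by_contra hcon
      push Not at hcon
      obtain ⟨c1, c2⟩ := he'.hb.of_ne hcon.1
      rcases he.hb with h0 | ⟨h1, h2⟩
      · have h1 := hee (3, 2) (Or.inl ⟨by simp, by simp only; omega, by simp,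
          by simp only; omega, Or.inr (Or.inl (by simp)), Or.inl h0⟩)
        rcases h1 with ⟨_, _, _, _, _, h2⟩ | ⟨_, h2, _⟩ | ⟨_, _, h2, _⟩
        · simp only at h2
          omega
        · simp only at h2
          omega
        · simp only at h2
          omega
      · have h1 := hee (3, 1 + e.b) (Or.inl ⟨by simp, by simp only; omega, by simp only; omega,
          by simp only; omega, Or.inr (Or.inl (by simp)),
          Or.inr (Or.inr (Or.inr (Or.inr rfl)))⟩)
        rcases h1 with ⟨_, _, _, _, _, h2⟩ | ⟨_, h2, _⟩ | ⟨_, _, h2, _⟩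
        · simp only at h2
          omega
        · simp only at h2
          omega
        · simp only at h2
          omega
    rcases key d d' hd hd' fun z => (h z).1 with h1 | h1
    · rcases key d' d hd' hd fun z => (h z).2 with h2 | h2
      · rw [h1, h2]
      · exact h2.symm
    · exact h1
  have er : d.r = d'.r := by
    have key : ∀ e e' : Desc, Good m k e → Good m k e' → e.w = e'.w →
        (∀ z, Cell m e z → Cell m e' z) → e.r = 0 ∨ e.r = e'.r := by
      intro e e' he he' hww hee
      obtain ⟨a1, a2⟩ := he.le_w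
      obtain ⟨a3, a4⟩ := he.le_h
      obtain ⟨b1, b2⟩ := he'.le_w
      obtain ⟨b3, b4⟩ := he'.le_h
      by_contra hcon
      push Not at hcon
      obtain ⟨c1, c2⟩ := he.hr.of_ne hcon.1
      rcases he'.hr with h0 | ⟨h1, h2⟩
      · have h1 := hee (e.w + 1, m + 2 + 1)
          (cell_right hcon.1 rfl (by omega) (by omega) (by omega))
        rcases h1 with ⟨_, h2, _⟩ | ⟨h2, _⟩ | ⟨_, h2, _⟩
        · simp only at h2
          omega
        · exact h2 h0
        · simp only at h2
          omega
      · have h1 := hee (e.w + 1, m + 2 + e'.r)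
          (cell_right hcon.1 rfl (by omega) (by omega) (fun h => hcon.2 h.symm))
        rcases h1 with ⟨_, h2, _⟩ | ⟨_, _, _, _, h2⟩ | ⟨_, h2, _⟩
        · simp only at h2
          omega
        · exact h2 rfl
        · simp only at h2
          omega
    rcases key d d' hd hd' ew fun z => (h z).1 with h1 | h1
    · rcases key d' d hd' hd ew.symm fun z => (h z).2 with h2 | h2
      · rw [h1, h2]
      · exact h2.symm
    · exact h1
  have et : d.t = d'.t := by
    have key : ∀ e e' : Desc, Good m k e → Good m k e' → e.h = e'.h →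
        (∀ z, Cell m e z → Cell m e' z) → e.t = 0 ∨ e.t = e'.t := by
      intro e e' he he' hhh hee
      obtain ⟨a1, a2⟩ := he.le_w
      obtain ⟨a3, a4⟩ := he.le_h
      obtain ⟨b1, b2⟩ := he'.le_w
      obtain ⟨b3, b4⟩ := he'.le_h
      by_contra hcon
      push Not at hcon
      obtain ⟨c1, c2⟩ := he.ht.of_ne hcon.1
      rcases he'.ht with h0 | ⟨h1, h2⟩
      · have h1 := hee (3, e.h + 1 + 1)
          (cell_top hcon.1 rfl (by omega) (by omega) (by omega))
        rcases h1 with ⟨_, _, _, h2, _⟩ | ⟨_, h2, _⟩ | ⟨h2, _⟩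
        · simp only at h2
          omega
        · simp only at h2
          omega
        · exact h2 h0
      · have h1 := hee (3, e.h + 1 + e'.t)
          (cell_top hcon.1 rfl (by omega) (by omega) (fun h => hcon.2 h.symm))
        rcases h1 with ⟨_, _, _, h2, _⟩ | ⟨_, h2, _⟩ | ⟨_, _, _, _, h2⟩
        · simp only at h2
          omega
        · simp only at h2
          omega
        · simp only at h2
          omega
    rcases key d d' hd hd' eh fun z => (h z).1 with h1 | h1
    · rcases key d' d hd' hd eh.symm fun z => (h z).2 with h2 | h2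
      · rw [h1, h2]
      · exact h2.symm
    · exact h1
  cases d
  cases d'
  simp only at ew eh el eb er et
  rw [ew, eh, el, eb, er, et]

/-- a vertical strip of `m` cells without the cell number `c`; empty for `c = 0` -/
noncomputable def strip (m c x y0 : ℤ) : Finset (ℤ × ℤ) :=
  if c = 0 then ∅ else {x} ×ˢ (Finset.Ioc y0 (y0 + m)).erase (y0 + c)

theorem mem_strip {m c x y0 : ℤ} {z : ℤ × ℤ} :
    z ∈ strip m c x y0 ↔ c ≠ 0 ∧ z.1 = x ∧ y0 < z.2 ∧ z.2 ≤ y0 + m ∧ z.2 ≠ y0 + c := by
  unfold strip
  split_ifs with h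
  · simp [h]
  · simp only [Finset.mem_product, Finset.mem_singleton, Finset.mem_erase, Finset.mem_Ioc, ne_eq, h,
      not_false_eq_true, true_and]
    tauto

theorem even_card_strip {m c x y0 : ℤ} (hm : m % 2 = 1) (hc : c = 0 ∨ (1 ≤ c ∧ c ≤ m)) :
    Even (strip m c x y0).card := by
  unfold strip
  split_ifs with h
  · simp
  · have h1 := hc.resolve_left h
    rw [Finset.card_product, Finset.card_singleton, one_mul, Finset.card_erase_of_mem
      (Finset.mem_Ioc.2 ⟨by omega, by omega⟩), Int.card_Ioc]
    rw [Nat.even_iff]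
    omega

/-- the finite set of cells of a block -/
noncomputable def cells (m : ℤ) (d : Desc) : Finset (ℤ × ℤ) :=
  ((Finset.Ico 0 d.w ×ˢ Finset.Ico 0 d.h) \ (strip m d.l 1 (m + 2) ∪ strip m d.b 3 1)) ∪
    (strip m d.r (d.w + 1) (m + 2) ∪ strip m d.t 3 (d.h + 1))

theorem mem_cells {m : ℤ} {d : Desc} {z : ℤ × ℤ} : z ∈ cells m d ↔ Cell m d z := by
  unfold cells Cell
  simp only [Finset.mem_union, Finset.mem_sdiff, Finset.mem_product, Finset.mem_Ico, mem_strip]
  have e1 : m + 2 + m = 2 * m + 2 := by ring
  have e2 : 1 + m = m + 1 := by ring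
  have e3 : d.h + 1 + m = d.h + m + 1 := by ring
  rw [e1, e2, e3]
  constructor
  · rintro (⟨⟨⟨h1, h2⟩, h3, h4⟩, h5⟩ | h | h)
    · left
      refine ⟨h1, h2, h3, h4, ?_, ?_⟩
      · by_contra hcon
        apply h5
        left
        push Not at hcon
        exact hcon
      · by_contra hcon
        apply h5
        right
        push Not at hcon
        exact hcon
    · exact Or.inr (Or.inl h)
    · exact Or.inr (Or.inr h)
  · rintro (⟨h1, h2, h3, h4, h5, h6⟩ | h | h)
    · left
      refine ⟨⟨⟨h1, h2⟩, h3, h4⟩, ?_⟩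
      rintro (⟨g1, g2, g3, g4, g5⟩ | ⟨g1, g2, g3, g4, g5⟩)
      · rcases h5 with h | h | h | h | h
        · exact g1 h
        · exact h g2
        · exact absurd g3 (not_lt.2 h)
        · exact absurd h (not_lt.2 g4)
        · exact g5 h
      · rcases h6 with h | h | h | h | h
        · exact g1 h
        · exact h g2
        · exact absurd g3 (not_lt.2 h)
        · exact absurd h (not_lt.2 g4)
        · exact g5 h
    · exact Or.inr (Or.inl h)
    · exact Or.inr (Or.inr h)

theorem even_card_cells {m k : ℤ} (hm : m % 2 = 1) (hk : k % 2 = 0) {d : Desc}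
    (hd : Good m k d) (hwh : d.w = k ∨ d.h = k) : Even (cells m d).card := by
  have hm5 := hd.hm
  have hk4 := hd.hk
  obtain ⟨hw1, hw2⟩ := hd.le_w
  obtain ⟨hh1, hh2⟩ := hd.le_h
  have hc : ∀ c, CodeOK m c → c = 0 ∨ (1 ≤ c ∧ c ≤ m) := by
    intro c hc
    unfold CodeOK at hc
    omega
  have e1 := even_card_strip (x := 1) (y0 := m + 2) hm (hc _ hd.hl)
  have e2 := even_card_strip (x := 3) (y0 := 1) hm (hc _ hd.hb)
  have e3 := even_card_strip (x := d.w + 1) (y0 := m + 2) hm (hc _ hd.hr)
  have e4 := even_card_strip (x := 3) (y0 := d.h + 1) hm (hc _ hd.ht)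
  unfold cells
  rw [Finset.card_union_of_disjoint, Finset.card_union_of_disjoint (s := strip m d.r _ _)]
  · refine Even.add ?_ (e3.add e4)
    rw [Finset.card_sdiff_of_subset, Finset.card_union_of_disjoint, Nat.even_sub]
    · refine ⟨fun _ => e1.add e2, fun _ => ?_⟩
      rw [Finset.card_product, Int.card_Ico, Int.card_Ico, Nat.even_mul]
      rcases hwh with h | h
      · left
        rw [Nat.even_iff]
        omega
      · right
        rw [Nat.even_iff]
        omega
    · rw [← Finset.card_union_of_disjoint]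
      · apply Finset.card_le_card
        intro z hz
        rw [Finset.mem_union, mem_strip, mem_strip] at hz
        rw [Finset.mem_product, Finset.mem_Ico, Finset.mem_Ico]
        rcases hz with ⟨_, h1, h2, h3, _⟩ | ⟨_, h1, h2, h3, _⟩
        · exact ⟨⟨by omega, by omega⟩, by omega, by omega⟩
        · exact ⟨⟨by omega, by omega⟩, by omega, by omega⟩
      · rw [Finset.disjoint_left]
        intro z h1 h2
        rw [mem_strip] at h1 h2
        omega
    · rw [Finset.disjoint_left]
      intro z h1 h2
      rw [mem_strip] at h1 h2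
      omega
    · intro z hz
      rw [Finset.mem_union, mem_strip, mem_strip] at hz
      rw [Finset.mem_product, Finset.mem_Ico, Finset.mem_Ico]
      rcases hz with ⟨_, h1, h2, h3, _⟩ | ⟨_, h1, h2, h3, _⟩
      · exact ⟨⟨by omega, by omega⟩, by omega, by omega⟩
      · exact ⟨⟨by omega, by omega⟩, by omega, by omega⟩
  · rw [Finset.disjoint_left]
    intro z h1 h2
    rw [mem_strip] at h1 h2
    omega
  · rw [Finset.disjoint_left]
    intro z h1 h2
    rw [Finset.mem_sdiff, Finset.mem_product, Finset.mem_Ico, Finset.mem_Ico] at h1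
    rw [Finset.mem_union, mem_strip, mem_strip] at h2
    obtain ⟨⟨⟨_, h3⟩, _, h4⟩, _⟩ := h1
    rcases h2 with ⟨_, h5, _⟩ | ⟨_, _, h5, _⟩
    · omega
    · omega

end Pool.Agent.Helper64.Tiling
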