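import Mathlib
import Pool.Agent.Helper64.Tiling.Cells

set_option autoImplicit false

namespace Pool.Agent.Helper64.Tiling

/-! Exact covers of rectangles by matching blocks. -/

/-- position of the block with index `i` -/
def pos (k : ℤ) (i : ℕ) : ℤ := if i = 0 then 0 else k * i + 1

/-- size of the block with index `i` -/
def siz (k : ℤ) (i : ℕ) : ℤ := if i = 0 then k + 1 else k

theorem pos_zero (k : ℤ) : pos k 0 = 0 := rfl

theorem pos_succ (k : ℤ) (i : ℕ) : pos k (i + 1) = pos k i + siz k i := by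
  unfold pos siz
  by_cases h : i = 0
  · subst h
    simp
  · simp only [h, if_false, Nat.succ_ne_zero]
    push_cast
    ring

theorem pos_eq (k : ℤ) (i : ℕ) : pos k (i + 1) = k * (i + 1) + 1 := by
  unfold pos
  simp

theorem siz_bound (k : ℤ) (i : ℕ) : k ≤ siz k i ∧ siz k i ≤ k + 1 := by
  unfold siz
  split_ifs <;> omega

theorem pos_mono {k : ℤ} (hk : 0 ≤ k) {i j : ℕ} (h : i < j) : pos k i + siz k i ≤ pos k j := by
  induction j with
  | zero => omega
  | succ j ih =>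
    rw [pos_succ]
    rcases Nat.lt_or_ge i j with h1 | h1
    · have := ih h1
      have := siz_bound k j
      omega
    · have : i = j := by omega
      subst this
      exact le_rfl

theorem pos_nonneg {k : ℤ} (hk : 0 ≤ k) (i : ℕ) : 0 ≤ pos k i := by
  unfold pos
  split_ifs
  · exact le_rfl
  · positivity

theorem exists_block {k : ℤ} (A : ℕ) {x : ℤ} (h0 : 0 ≤ x) (h1 : x < pos k (A + 1)) :
    ∃ i ≤ A, pos k i ≤ x ∧ x < pos k (i + 1) := by
  induction A with
  | zero => exact ⟨0, le_rfl, by rw [pos_zero]; exact h0, h1⟩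
  | succ A ih =>
    by_cases h : x < pos k (A + 1)
    · obtain ⟨i, hi, h2⟩ := ih h
      exact ⟨i, by omega, h2⟩
    · exact ⟨A + 1, le_rfl, not_lt.1 h, h1⟩

theorem unique_block {k : ℤ} (hk : 0 ≤ k) {i j : ℕ} {x : ℤ} (h1 : pos k i ≤ x)
    (h2 : x < pos k (i + 1)) (h3 : pos k j ≤ x) (h4 : x < pos k (j + 1)) : i = j := by
  rw [pos_succ] at h2 h4
  rcases lt_trichotomy i j with h | h | h
  · have := pos_mono hk h
    omega
  · exact h
  · have := pos_mono hk h
    omega

/-- a rectangular array of blocks with matching edges -/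
structure GridPre (m k : ℤ) (A B : ℕ) (d : ℕ → ℕ → Desc) : Prop where
  good : ∀ i j, i ≤ A → j ≤ B → Good m k (d i j)
  w : ∀ i j, i ≤ A → j ≤ B → (d i j).w = siz k i
  h : ∀ i j, i ≤ A → j ≤ B → (d i j).h = siz k j
  hr : ∀ i j, i < A → j ≤ B → (d (i + 1) j).l = (d i j).r
  ht : ∀ i j, i ≤ A → j < B → (d i (j + 1)).b = (d i j).t

/-- a rectangular array of blocks with matching edges and plain outer edges -/
structure GridOK (m k : ℤ) (A B : ℕ) (d : ℕ → ℕ → Desc) : Prop extends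
    GridPre m k A B d where
  l0 : ∀ j, j ≤ B → (d 0 j).l = 0
  rA : ∀ j, j ≤ B → (d A j).r = 0
  b0 : ∀ i, i ≤ A → (d i 0).b = 0
  tB : ∀ i, i ≤ A → (d i B).t = 0

/-- where the cells of a block are -/
theorem cell_pos {m k : ℤ} {A B : ℕ} {d : ℕ → ℕ → Desc} (h : GridPre m k A B d) {i j : ℕ}
    (hi : i ≤ A) (hj : j ≤ B) {z : ℤ × ℤ} (hz : Cell m (d i j) (z - (pos k i, pos k j))) :
    (pos k i ≤ z.1 ∧ z.1 < pos k (i + 1) ∧ pos k j ≤ z.2 ∧ z.2 < pos k (j + 1) ∧
      ((d i j).l = 0 ∨ z.1 ≠ pos k i + 1 ∨ z.2 ≤ pos k j + (m + 2) ∨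
        pos k j + (2 * m + 2) < z.2 ∨ z.2 = pos k j + (m + 2 + (d i j).l)) ∧
      ((d i j).b = 0 ∨ z.1 ≠ pos k i + 3 ∨ z.2 ≤ pos k j + 1 ∨ pos k j + (m + 1) < z.2 ∨
        z.2 = pos k j + (1 + (d i j).b))) ∨
    ((d i j).r ≠ 0 ∧ z.1 = pos k (i + 1) + 1 ∧ pos k j + (m + 2) < z.2 ∧
      z.2 ≤ pos k j + (2 * m + 2) ∧ z.2 ≠ pos k j + (m + 2 + (d i j).r)) ∨
    ((d i j).t ≠ 0 ∧ z.1 = pos k i + 3 ∧ pos k (j + 1) + 1 < z.2 ∧
      z.2 ≤ pos k (j + 1) + (m + 1) ∧ z.2 ≠ pos k (j + 1) + (1 + (d i j).t)) := by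
  have hw := h.w i j hi hj
  have hh := h.h i j hi hj
  rw [pos_succ, pos_succ]
  rcases hz with ⟨h1, h2, h3, h4, h5, h6⟩ | ⟨h1, h2, h3, h4, h5⟩ | ⟨h1, h2, h3, h4, h5⟩
  · left
    simp only [Prod.fst_sub, Prod.snd_sub] at h1 h2 h3 h4 h5 h6
    refine ⟨by omega, by omega, by omega, by omega, ?_, ?_⟩
    · rcases h5 with g | g | g | g | g
      · exact Or.inl g
      · exact Or.inr (Or.inl (by omega))
      · exact Or.inr (Or.inr (Or.inl (by omega)))
      · exact Or.inr (Or.inr (Or.inr (Or.inl (by omega))))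
      · exact Or.inr (Or.inr (Or.inr (Or.inr (by omega))))
    · rcases h6 with g | g | g | g | g
      · exact Or.inl g
      · exact Or.inr (Or.inl (by omega))
      · exact Or.inr (Or.inr (Or.inl (by omega)))
      · exact Or.inr (Or.inr (Or.inr (Or.inl (by omega))))
      · exact Or.inr (Or.inr (Or.inr (Or.inr (by omega))))
  · right
    left
    simp only [Prod.fst_sub, Prod.snd_sub] at h2 h3 h4 h5
    exact ⟨h1, by omega, by omega, by omega, by omega⟩
  · right
    right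
    simp only [Prod.fst_sub, Prod.snd_sub] at h2 h3 h4 h5
    exact ⟨h1, by omega, by omega, by omega, by omega⟩

theorem grid_subset {m k : ℤ} {A B : ℕ} {d : ℕ → ℕ → Desc} (h : GridOK m k A B d) {i j : ℕ}
    (hi : i ≤ A) (hj : j ≤ B) {z : ℤ × ℤ} (hz : Cell m (d i j) (z - (pos k i, pos k j))) :
    z ∈ rect (pos k (A + 1)) (pos k (B + 1)) := by
  have hg := h.good i j hi hj
  have hm := hg.hm
  have hk := hg.hk
  have hk0 : 0 ≤ k := by omega
  have hpi := pos_nonneg hk0 i
  have hpj := pos_nonneg hk0 j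
  have hA : pos k (i + 1) ≤ pos k (A + 1) := by
    rcases Nat.lt_or_ge i A with h1 | h1
    · have h2 := pos_mono hk0 (show i + 1 < A + 1 by omega)
      have h3 := siz_bound k (i + 1)
      omega
    · have : i = A := by omega
      rw [this]
  have hB : pos k (j + 1) ≤ pos k (B + 1) := by
    rcases Nat.lt_or_ge j B with h1 | h1
    · have h2 := pos_mono hk0 (show j + 1 < B + 1 by omega)
      have h3 := siz_bound k (j + 1)
      omega
    · have : j = B := by omega
      rw [this]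
  show 0 ≤ z.1 ∧ z.1 < _ ∧ 0 ≤ z.2 ∧ z.2 < _
  rcases cell_pos h.toGridPre hi hj hz with ⟨h1, h2, h3, h4, _⟩ | ⟨h1, h2, h3, h4, h5⟩ | ⟨h1, h2, h3, h4, h5⟩
  · exact ⟨by omega, by omega, by omega, by omega⟩
  · have hiA : i < A := by
      rcases Nat.lt_or_ge i A with h6 | h6
      · exact h6
      · have : i = A := by omega
        rw [this] at h1
        exact absurd (h.rA j hj) h1
    have h6 := pos_mono hk0 (show i + 1 < A + 1 by omega)
    have h7 := siz_bound k (i + 1)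
    have h8 := siz_bound k i
    have h9 := siz_bound k j
    rw [pos_succ] at h2 h6
    rw [pos_succ k j] at hB
    exact ⟨by omega, by omega, by omega, by omega⟩
  · have hjB : j < B := by
      rcases Nat.lt_or_ge j B with h6 | h6
      · exact h6
      · have : j = B := by omega
        rw [this] at h1
        exact absurd (h.tB i hi) h1
    have h6 := pos_mono hk0 (show j + 1 < B + 1 by omega)
    have h7 := siz_bound k (j + 1)
    have h8 := siz_bound k i
    have h9 := siz_bound k j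
    rw [pos_succ] at h3 h4 h6
    rw [pos_succ k i] at hA
    exact ⟨by omega, by omega, by omega, by omega⟩

theorem grid_exists {m k : ℤ} {A B : ℕ} {d : ℕ → ℕ → Desc} (h : GridOK m k A B d)
    {z : ℤ × ℤ} (hz : z ∈ rect (pos k (A + 1)) (pos k (B + 1))) :
    ∃ i j, i ≤ A ∧ j ≤ B ∧ Cell m (d i j) (z - (pos k i, pos k j)) := by
  obtain ⟨h1, h2, h3, h4⟩ := hz
  obtain ⟨i, hi, hi1, hi2⟩ := exists_block A h1 h2
  obtain ⟨j, hj, hj1, hj2⟩ := exists_block B h3 h4
  have hw := h.w i j hi hj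
  have hh := h.h i j hi hj
  rw [pos_succ] at hi2 hj2
  by_cases c1 : (d i j).l = 0 ∨ z.1 ≠ pos k i + 1 ∨ z.2 ≤ pos k j + (m + 2) ∨
        pos k j + (2 * m + 2) < z.2 ∨ z.2 = pos k j + (m + 2 + (d i j).l)
  · by_cases c2 : (d i j).b = 0 ∨ z.1 ≠ pos k i + 3 ∨ z.2 ≤ pos k j + 1 ∨
        pos k j + (m + 1) < z.2 ∨ z.2 = pos k j + (1 + (d i j).b)
    · refine ⟨i, j, hi, hj, Or.inl ?_⟩
      simp only [Prod.fst_sub, Prod.snd_sub]
      refine ⟨by omega, by omega, by omega, by omega, ?_, ?_⟩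
      · rcases c1 with g | g | g | g | g
        · exact Or.inl g
        · exact Or.inr (Or.inl (by omega))
        · exact Or.inr (Or.inr (Or.inl (by omega)))
        · exact Or.inr (Or.inr (Or.inr (Or.inl (by omega))))
        · exact Or.inr (Or.inr (Or.inr (Or.inr (by omega))))
      · rcases c2 with g | g | g | g | g
        · exact Or.inl g
        · exact Or.inr (Or.inl (by omega))
        · exact Or.inr (Or.inr (Or.inl (by omega)))
        · exact Or.inr (Or.inr (Or.inr (Or.inl (by omega))))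
        · exact Or.inr (Or.inr (Or.inr (Or.inr (by omega))))
    · push Not at c2
      obtain ⟨g1, g2, g3, g4, g5⟩ := c2
      -- the lower neighbour covers the cell
      have hj0 : j ≠ 0 := by
        rintro rfl
        exact g1 (h.b0 i hi)
      obtain ⟨j', rfl⟩ := Nat.exists_eq_succ_of_ne_zero hj0
      have ht := h.ht i j' hi (by omega)
      have hh' := h.h i j' hi (by omega)
      rw [Nat.succ_eq_add_one] at *
      rw [pos_succ] at g3 g4 g5
      refine ⟨i, j', hi, by omega, Or.inr (Or.inr ?_)⟩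
      simp only [Prod.fst_sub, Prod.snd_sub]
      exact ⟨by omega, by omega, by omega, by omega, by omega⟩
  · push Not at c1
    obtain ⟨g1, g2, g3, g4, g5⟩ := c1
    have hi0 : i ≠ 0 := by
      rintro rfl
      exact g1 (h.l0 j hj)
    obtain ⟨i', rfl⟩ := Nat.exists_eq_succ_of_ne_zero hi0
    have hr := h.hr i' j (by omega) hj
    have hw' := h.w i' j (by omega) hj
    rw [Nat.succ_eq_add_one] at *
    rw [pos_succ] at g2
    refine ⟨i', j, by omega, hj, Or.inr (Or.inl ?_)⟩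
    simp only [Prod.fst_sub, Prod.snd_sub]
    exact ⟨by omega, by omega, by omega, by omega, by omega⟩

theorem grid_unique {m k : ℤ} {A B : ℕ} {d : ℕ → ℕ → Desc} (h : GridPre m k A B d)
    {i j i' j' : ℕ} (hi : i ≤ A) (hj : j ≤ B) (hi' : i' ≤ A) (hj' : j' ≤ B) {z : ℤ × ℤ}
    (hz : Cell m (d i j) (z - (pos k i, pos k j)))
    (hz' : Cell m (d i' j') (z - (pos k i', pos k j'))) : i = i' ∧ j = j' := by
  have hg := h.good i j hi hj
  have hm := hg.hm
  have hk := hg.hk
  have hk0 : 0 ≤ k := by omega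
  -- own cell against a right extra cell
  have own_right : ∀ {i j i' j' : ℕ}, i ≤ A → j ≤ B → i' ≤ A → j' ≤ B →
      (pos k i ≤ z.1 ∧ z.1 < pos k (i + 1) ∧ pos k j ≤ z.2 ∧ z.2 < pos k (j + 1) ∧
      ((d i j).l = 0 ∨ z.1 ≠ pos k i + 1 ∨ z.2 ≤ pos k j + (m + 2) ∨
        pos k j + (2 * m + 2) < z.2 ∨ z.2 = pos k j + (m + 2 + (d i j).l)) ∧
      ((d i j).b = 0 ∨ z.1 ≠ pos k i + 3 ∨ z.2 ≤ pos k j + 1 ∨ pos k j + (m + 1) < z.2 ∨
        z.2 = pos k j + (1 + (d i j).b))) →
      ((d i' j').r ≠ 0 ∧ z.1 = pos k (i' + 1) + 1 ∧ pos k j' + (m + 2) < z.2 ∧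
      z.2 ≤ pos k j' + (2 * m + 2) ∧ z.2 ≠ pos k j' + (m + 2 + (d i' j').r)) → False := by
    rintro i j i' j' hi hj hi' hj' ⟨h1, h2, h3, h4, h5, -⟩ ⟨g1, g2, g3, g4, g5⟩
    have b1 := siz_bound k j'
    have b2 := siz_bound k (i' + 1)
    have ej : j' = j := unique_block hk0 (x := z.2) (by omega) (by rw [pos_succ]; omega) h3 h4
    have ei : i' + 1 = i := unique_block hk0 (x := z.1) (by omega) (by rw [pos_succ]; omega) h1 h2
    subst ej
    subst ei
    have hr := h.hr i' j' (by omega) hj'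
    rcases h5 with h5 | h5 | h5 | h5 | h5
    · exact g1 (by rw [← hr]; exact h5)
    · exact h5 g2
    · exact absurd g3 (not_lt.2 h5)
    · exact absurd h5 (not_lt.2 g4)
    · rw [hr] at h5
      exact g5 h5
  have own_top : ∀ {i j i' j' : ℕ}, i ≤ A → j ≤ B → i' ≤ A → j' ≤ B →
      (pos k i ≤ z.1 ∧ z.1 < pos k (i + 1) ∧ pos k j ≤ z.2 ∧ z.2 < pos k (j + 1) ∧
      ((d i j).l = 0 ∨ z.1 ≠ pos k i + 1 ∨ z.2 ≤ pos k j + (m + 2) ∨
        pos k j + (2 * m + 2) < z.2 ∨ z.2 = pos k j + (m + 2 + (d i j).l)) ∧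
      ((d i j).b = 0 ∨ z.1 ≠ pos k i + 3 ∨ z.2 ≤ pos k j + 1 ∨ pos k j + (m + 1) < z.2 ∨
        z.2 = pos k j + (1 + (d i j).b))) →
      ((d i' j').t ≠ 0 ∧ z.1 = pos k i' + 3 ∧ pos k (j' + 1) + 1 < z.2 ∧
      z.2 ≤ pos k (j' + 1) + (m + 1) ∧ z.2 ≠ pos k (j' + 1) + (1 + (d i' j').t)) → False := by
    rintro i j i' j' hi hj hi' hj' ⟨h1, h2, h3, h4, -, h5⟩ ⟨g1, g2, g3, g4, g5⟩
    have b1 := siz_bound k (j' + 1)
    have b2 := siz_bound k i'
    have ej : j' + 1 = j := unique_block hk0 (x := z.2) (by omega) (by rw [pos_succ]; omega) h3 h4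
    have ei : i' = i := unique_block hk0 (x := z.1) (by omega) (by rw [pos_succ]; omega) h1 h2
    subst ej
    subst ei
    have ht := h.ht i' j' hi' (by omega)
    rcases h5 with h5 | h5 | h5 | h5 | h5
    · exact g1 (by rw [← ht]; exact h5)
    · exact h5 g2
    · exact absurd g3 (not_lt.2 h5)
    · exact absurd h5 (not_lt.2 g4)
    · rw [ht] at h5
      exact g5 h5
  have right_top : ∀ {i j i' j' : ℕ},
      ((d i j).r ≠ 0 ∧ z.1 = pos k (i + 1) + 1 ∧ pos k j + (m + 2) < z.2 ∧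
      z.2 ≤ pos k j + (2 * m + 2) ∧ z.2 ≠ pos k j + (m + 2 + (d i j).r)) →
      ((d i' j').t ≠ 0 ∧ z.1 = pos k i' + 3 ∧ pos k (j' + 1) + 1 < z.2 ∧
      z.2 ≤ pos k (j' + 1) + (m + 1) ∧ z.2 ≠ pos k (j' + 1) + (1 + (d i' j').t)) → False := by
    rintro i j i' j' ⟨-, g2, -⟩ ⟨-, g2', -⟩
    have b1 := siz_bound k (i + 1)
    have b2 := siz_bound k i'
    have ei : i + 1 = i' := unique_block hk0 (x := z.1) (by omega) (by rw [pos_succ]; omega)
      (by omega) (by rw [pos_succ]; omega)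
    subst ei
    omega
  rcases cell_pos h hi hj hz with a | a | a <;> rcases cell_pos h hi' hj' hz' with b | b | b
  · obtain ⟨h1, h2, h3, h4, -⟩ := a
    obtain ⟨g1, g2, g3, g4, -⟩ := b
    exact ⟨unique_block hk0 h1 h2 g1 g2, unique_block hk0 h3 h4 g3 g4⟩
  · exact (own_right hi hj hi' hj' a b).elim
  · exact (own_top hi hj hi' hj' a b).elim
  · exact (own_right hi' hj' hi hj b a).elim
  · obtain ⟨-, h1, h2, h3, -⟩ := a
    obtain ⟨-, g1, g2, g3, -⟩ := b
    have b1 := siz_bound k (i + 1)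
    have b2 := siz_bound k (i' + 1)
    have b3 := siz_bound k j
    have b4 := siz_bound k j'
    have ei : i + 1 = i' + 1 := unique_block hk0 (x := z.1) (by omega) (by rw [pos_succ]; omega)
      (by omega) (by rw [pos_succ]; omega)
    have ej : j = j' := unique_block hk0 (x := z.2) (by omega) (by rw [pos_succ]; omega)
      (by omega) (by rw [pos_succ]; omega)
    exact ⟨by omega, ej⟩
  · exact (right_top a b).elim
  · exact (own_top hi' hj' hi hj b a).elim
  · exact (right_top b a).elim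
  · obtain ⟨-, h1, h2, h3, -⟩ := a
    obtain ⟨-, g1, g2, g3, -⟩ := b
    have b1 := siz_bound k i
    have b2 := siz_bound k i'
    have b3 := siz_bound k (j + 1)
    have b4 := siz_bound k (j' + 1)
    have ei : i = i' := unique_block hk0 (x := z.1) (by omega) (by rw [pos_succ]; omega)
      (by omega) (by rw [pos_succ]; omega)
    have ej : j + 1 = j' + 1 := unique_block hk0 (x := z.2) (by omega) (by rw [pos_succ]; omega)
      (by omega) (by rw [pos_succ]; omega)
    exact ⟨ei, by omega⟩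

end Pool.Agent.Helper64.Tiling
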