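import Mathlib
import Pool.Agent.Helper64.Tiling.Grid

set_option autoImplicit false

namespace Pool.Agent.Helper64.Tiling

/-! Stack machines and their tiles. -/

/-- operations on a stack -/
inductive Op (Γ : Type)
  | keep
  | push (a : Γ)
  | pop

/-- kinds of operations -/
inductive Kind
  | keep
  | push
  | pop

/-- the kind of an operation -/
def Op.kind {Γ : Type} : Op Γ → Kind
  | .keep => .keep
  | .push _ => .push
  | .pop => .pop

/-- the effect of an operation -/
def Op.apply {Γ : Type} : Op Γ → List Γ → List Γ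
  | .keep, s => s
  | .push a, s => a :: s
  | .pop, s => s.tail

/-- A machine with states `Q`, stacks indexed by `K`, stack symbols `Γ`: the new state and the
operations on the stacks depend on the state and the top symbols. -/
structure Mach (Q K Γ : Type) where
  tr : Q → (K → Option Γ) → Option (Q × (K → Op Γ))

section

variable {Q K Γ : Type}

/-- the symbols in position `i` of the stacks -/
def col (S : K → List Γ) (i : ℕ) : K → Option Γ := fun κ => (S κ)[i]?

/-- one step of the machine -/
def Mach.next (M : Mach Q K Γ) (c : Q × (K → List Γ)) : Option (Q × (K → List Γ)) :=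
  (M.tr c.1 (col c.2 0)).map fun p => (p.1, fun κ => (p.2 κ).apply (c.2 κ))

/-- the configuration after `t` steps (the configuration does not change after a halt) -/
def Mach.run (M : Mach Q K Γ) (c : Q × (K → List Γ)) : ℕ → Q × (K → List Γ)
  | 0 => c
  | t + 1 => (M.next (M.run c t)).getD (M.run c t)

/-- the machine halts -/
def Mach.Halts (M : Mach Q K Γ) (c : Q × (K → List Γ)) : Prop := ∃ t, M.next (M.run c t) = none

/-- colours of edges -/
inductive Color (Q K Γ : Type)
  | row0
  | seed
  | top
  | H (ks : K → Kind) (pay : K → Option Γ)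
  | C0 (q : Q) (s : K → Option Γ)
  | V (s : K → Option Γ) (f : Bool)

/-- a step of the machine, or nothing -/
def Mach.Step (M : Mach Q K Γ) (q : Q) (s : K → Option Γ) (q' : Q) (ops : K → Op Γ) : Prop :=
  (q' = q ∧ ops = fun _ => Op.keep) ∨ M.tr q s = some (q', ops)

/-- relation between the symbols in the zeroth column -/
def ColRel (ops : K → Op Γ) (s pay s' : K → Option Γ) : Prop := ∀ κ, match ops κ with
  | .keep => s' κ = s κ
  | .push a => s' κ = some a ∧ pay κ = s κ
  | .pop => s' κ = pay κ

/-- relation between the symbols in the other columns -/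
def CellRel (ks : K → Kind) (payL payR s s' : K → Option Γ) : Prop := ∀ κ, match ks κ with
  | .keep => s' κ = s κ
  | .push => s' κ = payL κ ∧ payR κ = s κ
  | .pop => s' κ = payR κ ∧ payL κ = s κ

/-- The blocks of the tile set that do not depend on the input. -/
inductive Fix (M : Mach Q K Γ) (k : ℤ) (code : Color Q K Γ → ℤ) : Desc → Prop
  | square : Fix M k code ⟨k, k, 0, 0, 0, 0⟩
  | row : Fix M k code ⟨k, k + 1, code .row0, 0, code .row0, code (.V (fun _ => none) false)⟩
  | rowEnd : Fix M k code ⟨k, k + 1, code .row0, 0, 0, code (.V (fun _ => none) true)⟩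
  | col (q : Q) (s : K → Option Γ) (q' : Q) (ops : K → Op Γ) (pay s' : K → Option Γ)
      (hstep : M.Step q s q' ops) (hrel : ColRel ops s pay s') :
      Fix M k code ⟨k + 1, k, 0, code (.C0 q s), code (.H (fun κ => (ops κ).kind) pay),
        code (.C0 q' s')⟩
  | colTop (q : Q) (s : K → Option Γ) (h : M.tr q s = none) :
      Fix M k code ⟨k + 1, k, 0, code (.C0 q s), code .top, 0⟩
  | cell (ks : K → Kind) (payL payR s s' : K → Option Γ) (h : CellRel ks payL payR s s') :
      Fix M k code ⟨k, k, code (.H ks payL), code (.V s false), code (.H ks payR),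
        code (.V s' false)⟩
  | cellEnd (ks : K → Kind) (payL s s' : K → Option Γ)
      (h : CellRel ks payL (fun _ => none) s s') :
      Fix M k code ⟨k, k, code (.H ks payL), code (.V s true), 0, code (.V s' true)⟩
  | cellTop (s : K → Option Γ) :
      Fix M k code ⟨k, k, code .top, code (.V s false), code .top, 0⟩
  | cellTopEnd (s : K → Option Γ) : Fix M k code ⟨k, k, code .top, code (.V s true), 0, 0⟩

/-- the blocks forming the seed for the initial configuration `c`; there are `2 e + 2` of them -/
def seedBlock (k : ℤ) (code : Color Q K Γ → ℤ) (c : Q × (K → List Γ)) (e i : ℕ) : Desc :=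
  ⟨siz k i, k + 1, if i = 0 then 0 else code .seed, 0,
    if i < 2 * e + 1 then code .seed else code .row0,
    if i = 0 then code (.C0 c.1 (col c.2 0)) else code (.V (col c.2 i) false)⟩

/-- good codes -/
structure CodeGood (m k : ℤ) (code : Color Q K Γ → ℤ) : Prop where
  hm : 5 ≤ m
  hk : 4 * m + 10 ≤ k
  hmod : m % 2 = 1
  hkmod : k % 2 = 0
  lo : ∀ c, 3 ≤ code c
  hi : ∀ c, code c ≤ m - 2
  inj : Function.Injective code

variable {M : Mach Q K Γ} {m k : ℤ} {code : Color Q K Γ → ℤ}

theorem CodeGood.ok (h : CodeGood m k code) (c : Color Q K Γ) : CodeOK m (code c) :=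
  Or.inr ⟨h.lo c, h.hi c⟩

theorem CodeGood.ne (h : CodeGood m k code) (c : Color Q K Γ) : code c ≠ 0 := by
  have := h.lo c
  omega

theorem codeOK_zero (m : ℤ) : CodeOK m 0 := Or.inl rfl

theorem Fix.good (h : CodeGood m k code) {d : Desc} (hd : Fix M k code d) : Good m k d := by
  cases hd <;> exact ⟨h.hm, h.hk, by simp, by simp,
    by first | exact codeOK_zero m | exact h.ok _, by first | exact codeOK_zero m | exact h.ok _,
    by first | exact codeOK_zero m | exact h.ok _, by first | exact codeOK_zero m | exact h.ok _⟩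

theorem Fix.size {d : Desc} (hd : Fix M k code d) : d.w = k ∨ d.h = k := by
  cases hd <;> simp

theorem seedBlock_good (h : CodeGood m k code) (c : Q × (K → List Γ)) (e i : ℕ) :
    Good m k (seedBlock k code c e i) := by
  unfold seedBlock
  refine ⟨h.hm, h.hk, ?_, Or.inr rfl, ?_, codeOK_zero m, ?_, ?_⟩
  · simp only
    unfold siz
    split_ifs
    · exact Or.inr rfl
    · exact Or.inl rfl
  · simp only
    split_ifs
    · exact codeOK_zero m
    · exact h.ok _
  · simp only
    split_ifs
    · exact h.ok _
    · exact h.ok _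
  · simp only
    split_ifs
    · exact h.ok _
    · exact h.ok _

theorem seedBlock_pre (h : CodeGood m k code) (c : Q × (K → List Γ)) (e : ℕ) :
    GridPre m k (2 * e + 1) 0 fun i _ => seedBlock k code c e i where
  good := fun i _ _ _ => seedBlock_good h c e i
  w := fun i _ _ _ => rfl
  h := fun i j _ hj => by
    have : j = 0 := by omega
    subst this
    rfl
  hr := fun i _ hi _ => by
    simp only [seedBlock, if_neg (Nat.succ_ne_zero i), if_pos hi]
  ht := fun _ j _ hj => by omega

/-- the seed -/
noncomputable def seedTile (m k : ℤ) (code : Color Q K Γ → ℤ) (c : Q × (K → List Γ)) (e : ℕ) :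
    PTile :=
  (Finset.range (2 * e + 2)).biUnion fun i =>
    (cells m (seedBlock k code c e i)).image fun z => z + (pos k i, 0)

theorem mem_seedTile {c : Q × (K → List Γ)} {e : ℕ} {z : ℤ × ℤ} :
    z ∈ seedTile m k code c e ↔
      ∃ i, i ≤ 2 * e + 1 ∧ Cell m (seedBlock k code c e i) (z - (pos k i, 0)) := by
  unfold seedTile
  simp only [Finset.mem_biUnion, Finset.mem_range, Finset.mem_image]
  constructor
  · rintro ⟨i, hi, y, hy, rfl⟩
    refine ⟨i, by omega, ?_⟩
    rw [add_sub_cancel_right]
    exact mem_cells.1 hy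
  · rintro ⟨i, hi, hz⟩
    exact ⟨i, by omega, _, mem_cells.2 hz, sub_add_cancel _ _⟩

theorem seedTile_unique (h : CodeGood m k code) {c : Q × (K → List Γ)} {e i i' : ℕ} {z : ℤ × ℤ}
    (hi : i ≤ 2 * e + 1) (hi' : i' ≤ 2 * e + 1)
    (hz : Cell m (seedBlock k code c e i) (z - (pos k i, 0)))
    (hz' : Cell m (seedBlock k code c e i') (z - (pos k i', 0))) : i = i' :=
  (grid_unique (seedBlock_pre h c e) hi (Nat.zero_le 0) hi' (Nat.zero_le 0) hz hz').1

theorem seedTile_ne (h : CodeGood m k code) {c : Q × (K → List Γ)} {e : ℕ} {d : Desc}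
    (hd : Good m k d) : seedTile m k code c e ≠ cells m d := by
  intro heq
  have h1 : (k + 5, 0) ∈ seedTile m k code c e := by
    rw [mem_seedTile]
    refine ⟨1, by omega, ?_⟩
    have : ((k + 5, 0) : ℤ × ℤ) - (pos k 1, 0) = (4, 0) := by
      apply Prod.ext
      · show k + 5 - pos k 1 = 4
        unfold pos
        simp
      · rfl
    rw [this]
    have hg := seedBlock_good h c e 1
    have h2 := hg.le_w
    have h3 := h.hm
    have h4 := h.hk
    exact cell_bottom hg (by omega) (by omega)
  rw [heq, mem_cells] at h1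
  have h2 := hd.le_w
  have h3 := h.hm
  have h4 := h.hk
  rcases h1 with ⟨_, g, _⟩ | ⟨_, g, _⟩ | ⟨_, g, _⟩
  · simp only at g
    omega
  · simp only at g
    omega
  · simp only at g
    omega

/-- the planar tile set for the initial configuration `c` -/
def planarTiles (M : Mach Q K Γ) (m k : ℤ) (code : Color Q K Γ → ℤ) (c : Q × (K → List Γ))
    (e : ℕ) : Set PTile :=
  {T | (∃ d, Fix M k code d ∧ cells m d = T) ∨ T = seedTile m k code c e}

theorem finite_good (m k : ℤ) : {d : Desc | Good m k d}.Finite := by
  let f : Desc → (ℤ × ℤ) × (ℤ × ℤ) × (ℤ × ℤ) := fun d => ((d.w, d.h), (d.l, d.b), (d.r, d.t))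
  have hf : Function.Injective f := by
    intro d d' h
    cases d
    cases d'
    simp only [f, Prod.mk.injEq] at h
    obtain ⟨⟨h1, h2⟩, ⟨h3, h4⟩, h5, h6⟩ := h
    rw [h1, h2, h3, h4, h5, h6]
  let I : Set ℤ := Set.Icc (-(|k| + |m| + 5)) (|k| + |m| + 5)
  have hI : I.Finite := Set.finite_Icc _ _
  apply Set.Finite.of_injOn (f := f) (t := (I ×ˢ I) ×ˢ (I ×ˢ I) ×ˢ (I ×ˢ I)) _ hf.injOn
  · exact (hI.prod hI).prod ((hI.prod hI).prod (hI.prod hI))
  · intro d hd
    have hw := hd.le_w
    have hh := hd.le_h
    have hk1 := le_abs_self k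
    have hk2 := neg_abs_le k
    have hm1 := le_abs_self m
    have hm2 := neg_abs_le m
    have hc : ∀ c, CodeOK m c → c ∈ I := by
      intro c hc
      unfold CodeOK at hc
      exact Set.mem_Icc.2 ⟨by omega, by omega⟩
    have hwI : d.w ∈ I := Set.mem_Icc.2 ⟨by omega, by omega⟩
    have hhI : d.h ∈ I := Set.mem_Icc.2 ⟨by omega, by omega⟩
    exact ⟨⟨hwI, hhI⟩, ⟨hc _ hd.hl, hc _ hd.hb⟩, hc _ hd.hr, hc _ hd.ht⟩

theorem finite_fix (h : CodeGood m k code) : {d : Desc | Fix M k code d}.Finite :=
  (finite_good m k).subset fun _ hd => Fix.good h hd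

theorem finite_planarTiles (h : CodeGood m k code) (c : Q × (K → List Γ)) (e : ℕ) :
    (planarTiles M m k code c e).Finite := by
  have h1 : planarTiles M m k code c e =
      (cells m '' {d : Desc | Fix M k code d}) ∪ {seedTile m k code c e} := by
    ext T
    simp only [planarTiles, Set.mem_ofPred_eq, Set.mem_union, Set.mem_image,
      Set.mem_singleton_iff]
  rw [h1]
  exact ((finite_fix h).image _).union (Set.finite_singleton _)

theorem zero_mem_planarTiles (h : CodeGood m k code) {c : Q × (K → List Γ)} {e : ℕ} {T : PTile}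
    (hT : T ∈ planarTiles M m k code c e) : ((0, 0) : ℤ × ℤ) ∈ T := by
  rcases hT with ⟨d, hd, rfl⟩ | rfl
  · exact mem_cells.2 (cell_zero (Fix.good h hd))
  · rw [mem_seedTile]
    refine ⟨0, by omega, ?_⟩
    rw [pos_zero, sub_self]
    exact cell_zero (seedBlock_good h c e 0)

/-- codes exist -/
theorem exists_code [Finite Q] [Finite K] [Finite Γ] :
    ∃ (m k : ℤ) (code : Color Q K Γ → ℤ), CodeGood m k code := by
  classical
  have hfin : Finite (Color Q K Γ) := by
    have hKind : Finite Kind := by
      apply Finite.of_injective (β := Fin 3) (fun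
        | .keep => 0
        | .push => 1
        | .pop => 2)
      intro a b h
      cases a <;> cases b <;> simp_all
    apply Finite.of_injective (β := (Fin 3) ⊕ ((K → Kind) × (K → Option Γ)) ⊕
      (Q × (K → Option Γ)) ⊕ ((K → Option Γ) × Bool)) (fun
        | .row0 => Sum.inl 0
        | .seed => Sum.inl 1
        | .top => Sum.inl 2
        | .H ks pay => Sum.inr (Sum.inl (ks, pay))
        | .C0 q s => Sum.inr (Sum.inr (Sum.inl (q, s)))
        | .V s f => Sum.inr (Sum.inr (Sum.inr (s, f))))
    intro a b h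
    cases a <;> cases b <;> simp_all
  obtain ⟨N, ⟨e⟩⟩ := Finite.exists_equiv_fin (Color Q K Γ)
  refine ⟨2 * N + 5, 8 * N + 30, fun c => ((e c : ℕ) : ℤ) + 3, by omega, by omega, by omega,
    by omega, fun c => by omega, fun c => ?_, ?_⟩
  · have := (e c).2
    omega
  · intro a b hab
    simp only [add_left_inj, Nat.cast_inj] at hab
    exact e.injective (Fin.ext hab)

end

end Pool.Agent.Helper64.Tiling
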