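import Mathlib
import Pool.Agent.Helper64.Tiling.Machine

set_option autoImplicit false

namespace Pool.Agent.Helper64.Tiling

open Turing StateTransition Relation

/-! A stack machine with an undecidable halting problem. -/

section halts

variable {Q K Γ : Type} (M : Mach Q K Γ)

theorem reaches_run (c : Q × (K → List Γ)) (t : ℕ) : Reaches M.next c (M.run c t) := by
  induction t with
  | zero => exact ReflTransGen.refl
  | succ t ih =>
    show Reaches M.next c ((M.next (M.run c t)).getD (M.run c t))
    cases h : M.next (M.run c t) with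
    | none => exact ih
    | some d => exact ReflTransGen.tail ih h

theorem run_of_reaches {c d : Q × (K → List Γ)} (h : Reaches M.next c d) :
    ∃ t, M.run c t = d := by
  induction h with
  | refl => exact ⟨0, rfl⟩
  | tail _ h2 ih =>
    obtain ⟨t, rfl⟩ := ih
    refine ⟨t + 1, ?_⟩
    show (M.next (M.run c t)).getD (M.run c t) = _
    rw [show M.next (M.run c t) = _ from h2]
    rfl

theorem eval_dom_iff (c : Q × (K → List Γ)) : (eval M.next c).Dom ↔ M.Halts c := by
  constructor
  · intro h
    obtain ⟨h1, h2⟩ := mem_eval.1 ⟨h, rfl⟩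
    obtain ⟨t, ht⟩ := run_of_reaches M h1
    exact ⟨t, by rw [ht]; exact h2⟩
  · rintro ⟨t, ht⟩
    exact (mem_eval.2 ⟨reaches_run M c t, ht⟩).1

/-- restriction of a machine to a closed set of states -/
def Mach.restrict (P : Q → Prop) (hP : ∀ q s p, P q → M.tr q s = some p → P p.1) :
    Mach {q // P q} K Γ where
  tr := fun q s => match h : M.tr q.1 s with
    | none => none
    | some p => some (⟨p.1, hP q.1 s p q.2 h⟩, p.2)

theorem restrict_next (P : Q → Prop) (hP : ∀ q s p, P q → M.tr q s = some p → P p.1)
    (c : {q // P q} × (K → List Γ)) :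
    ((M.restrict P hP).next c).map (fun d => (d.1.1, d.2)) = M.next (c.1.1, c.2) := by
  have h1 : ((M.restrict P hP).tr c.1 (col c.2 0)).map (fun p => (p.1.1, p.2)) =
      M.tr c.1.1 (col c.2 0) := by
    unfold Mach.restrict
    simp only
    split
    · rename_i h
      rw [h]
      rfl
    · rename_i p h
      exact h.symm
  unfold Mach.next
  rw [← h1, Option.map_map, Option.map_map]
  rfl

theorem restrict_run (P : Q → Prop) (hP : ∀ q s p, P q → M.tr q s = some p → P p.1)
    (c : {q // P q} × (K → List Γ)) (t : ℕ) :
    (((M.restrict P hP).run c t).1.1, ((M.restrict P hP).run c t).2) =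
      M.run (c.1.1, c.2) t := by
  induction t with
  | zero => rfl
  | succ t ih =>
    show (((((M.restrict P hP).next ((M.restrict P hP).run c t)).getD
      ((M.restrict P hP).run c t))).1.1, ((((M.restrict P hP).next
      ((M.restrict P hP).run c t)).getD ((M.restrict P hP).run c t))).2) =
      (M.next (M.run (c.1.1, c.2) t)).getD (M.run (c.1.1, c.2) t)
    rw [← ih, ← restrict_next M P hP ((M.restrict P hP).run c t)]
    cases (M.restrict P hP).next ((M.restrict P hP).run c t) <;> rfl

theorem restrict_halts (P : Q → Prop) (hP : ∀ q s p, P q → M.tr q s = some p → P p.1)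
    (c : {q // P q} × (K → List Γ)) :
    (M.restrict P hP).Halts c ↔ M.Halts (c.1.1, c.2) := by
  unfold Mach.Halts
  refine exists_congr fun t => ?_
  rw [← restrict_run M P hP c t, ← restrict_next M P hP ((M.restrict P hP).run c t)]
  cases (M.restrict P hP).next ((M.restrict P hP).run c t) <;> simp

end halts

section micro

variable {K Γ Λ σ : Type} [DecidableEq K]

/-- the machine that performs the elementary statements of a program one at a time -/
def micro (tr : Λ → TM2.Stmt (fun _ : K => Γ) Λ σ) :
    Mach (Option (TM2.Stmt (fun _ : K => Γ) Λ σ) × σ) K Γ where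
  tr := fun q s => match q with
    | (none, _) => none
    | (some (.push k f q), v) =>
      some ((some q, v), fun κ => if κ = k then .push (f v) else .keep)
    | (some (.peek k f q), v) => some ((some q, f v (s k)), fun _ => .keep)
    | (some (.pop k f q), v) =>
      some ((some q, f v (s k)), fun κ => if κ = k then .pop else .keep)
    | (some (.load a q), v) => some ((some q, a v), fun _ => .keep)
    | (some (.branch f q₁ q₂), v) => some ((some (cond (f v) q₁ q₂), v), fun _ => .keep)
    | (some (.goto f), v) => some ((some (tr (f v)), v), fun _ => .keep)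
    | (some .halt, v) => some ((none, v), fun _ => .keep)

variable (tr : Λ → TM2.Stmt (fun _ : K => Γ) Λ σ)

/-- the configuration of the micro machine for a configuration of the program -/
def toC (c : TM2.Cfg (fun _ : K => Γ) Λ σ) :
    (Option (TM2.Stmt (fun _ : K => Γ) Λ σ) × σ) × (K → List Γ) :=
  ((c.l.map tr, c.var), c.stk)

theorem micro_push (k : K) (f : σ → Γ) (q : TM2.Stmt (fun _ : K => Γ) Λ σ) (v : σ)
    (S : K → List Γ) : (micro tr).next ((some (.push k f q), v), S) =
      some ((some q, v), Function.update S k (f v :: S k)) := by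
  have h1 : (fun κ => Op.apply (if κ = k then Op.push (f v) else Op.keep) (S κ)) =
      Function.update S k (f v :: S k) := by
    funext κ
    by_cases h : κ = k
    · subst h
      simp [Op.apply]
    · simp [h, Op.apply]
  rw [← h1]
  rfl

theorem micro_peek (k : K) (f : σ → Option Γ → σ) (q : TM2.Stmt (fun _ : K => Γ) Λ σ) (v : σ)
    (S : K → List Γ) : (micro tr).next ((some (.peek k f q), v), S) =
      some ((some q, f v (S k).head?), S) := by
  rw [List.head?_eq_getElem?]
  rfl

theorem micro_pop (k : K) (f : σ → Option Γ → σ) (q : TM2.Stmt (fun _ : K => Γ) Λ σ) (v : σ)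
    (S : K → List Γ) : (micro tr).next ((some (.pop k f q), v), S) =
      some ((some q, f v (S k).head?), Function.update S k (S k).tail) := by
  have h1 : (fun κ => Op.apply (if κ = k then (Op.pop : Op Γ) else Op.keep) (S κ)) =
      Function.update S k (S k).tail := by
    funext κ
    by_cases h : κ = k
    · subst h
      simp [Op.apply]
    · simp [h, Op.apply]
  rw [List.head?_eq_getElem?, ← h1]
  rfl

theorem micro_stepAux (q : TM2.Stmt (fun _ : K => Γ) Λ σ) (v : σ) (S : K → List Γ) :
    Reaches₁ (micro tr).next ((some q, v), S) (toC tr (TM2.stepAux q v S)) := by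
  induction q generalizing v S with
  | push k f q ih => exact TransGen.head (micro_push tr k f q v S) (ih v _)
  | peek k f q ih => exact TransGen.head (micro_peek tr k f q v S) (ih _ _)
  | pop k f q ih => exact TransGen.head (micro_pop tr k f q v S) (ih _ _)
  | load a q ih => exact TransGen.head rfl (ih _ _)
  | branch f q₁ q₂ ih₁ ih₂ =>
    refine TransGen.head (b := ((some (cond (f v) q₁ q₂), v), S)) rfl ?_
    rw [TM2.stepAux]
    cases f v
    · exact ih₂ v S
    · exact ih₁ v S
  | goto f => exact TransGen.single rfl
  | halt => exact TransGen.single rfl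

theorem micro_respects : Respects (TM2.step tr) (micro tr).next fun a b => toC tr a = b := by
  rw [fun_respects]
  rintro ⟨l, v, S⟩
  cases l with
  | none => rfl
  | some l => exact micro_stepAux tr (tr l) v S

theorem micro_halts (c : TM2.Cfg (fun _ : K => Γ) Λ σ) :
    (micro tr).Halts (toC tr c) ↔ (eval (TM2.step tr) c).Dom := by
  rw [← eval_dom_iff]
  exact tr_eval_dom (micro_respects tr) rfl

theorem micro_closed [Inhabited Λ] {S : Finset Λ} (hS : TM2.Supports tr S)
    (q : Option (TM2.Stmt (fun _ : K => Γ) Λ σ) × σ) (s : K → Option Γ)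
    (p : (Option (TM2.Stmt (fun _ : K => Γ) Λ σ) × σ) × (K → Op Γ))
    (hq : q.1 ∈ TM2.stmts tr S) (hp : (micro tr).tr q s = some p) : p.1.1 ∈ TM2.stmts tr S := by
  classical
  obtain ⟨q, v⟩ := q
  cases q with
  | none => exact absurd hp (by simp [micro])
  | some q =>
    cases q with
    | push k f q =>
      cases hp
      exact TM2.stmts_trans (by simp [TM2.stmts₁, TM2.stmts₁_self]) hq
    | peek k f q =>
      cases hp
      exact TM2.stmts_trans (by simp [TM2.stmts₁, TM2.stmts₁_self]) hq
    | pop k f q =>
      cases hp
      exact TM2.stmts_trans (by simp [TM2.stmts₁, TM2.stmts₁_self]) hq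
    | load a q =>
      cases hp
      exact TM2.stmts_trans (by simp [TM2.stmts₁, TM2.stmts₁_self]) hq
    | branch f q₁ q₂ =>
      cases hp
      refine TM2.stmts_trans ?_ hq
      cases f v <;> simp [TM2.stmts₁, TM2.stmts₁_self]
    | goto f =>
      cases hp
      have h1 := TM2.stmts_supportsStmt hS hq v
      simp only [TM2.stmts, Finset.some_mem_insertNone, Finset.mem_biUnion]
      exact ⟨_, h1, TM2.stmts₁_self⟩
    | halt =>
      cases hp
      simp only [TM2.stmts, Finset.none_mem_insertNone]

/-- for every program with finitely many labels there is a finite machine halting when the program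
does -/
theorem exists_finite_machine [Inhabited Λ] [Finite σ] {L : Finset Λ} (hL : TM2.Supports tr L)
    (v : σ) : ∃ (Q : Type) (_ : Finite Q) (M : Mach Q K Γ) (q0 : Q), ∀ S : K → List Γ,
      M.Halts (q0, S) ↔ (eval (TM2.step tr) ⟨some default, v, S⟩).Dom := by
  classical
  let P : Option (TM2.Stmt (fun _ : K => Γ) Λ σ) × σ → Prop := fun q => q.1 ∈ TM2.stmts tr L
  have hP : ∀ q s p, P q → (micro tr).tr q s = some p → P p.1 :=
    fun q s p h1 h2 => micro_closed tr hL q s p h1 h2
  have hfin : Finite {q // P q} := by
    apply Finite.of_injective (β := {q // q ∈ TM2.stmts tr L} × σ)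
      (fun q => (⟨q.1.1, q.2⟩, q.1.2))
    rintro ⟨⟨a, b⟩, h⟩ ⟨⟨a', b'⟩, h'⟩ heq
    have h1 : a = a' := congrArg Subtype.val (congrArg Prod.fst heq)
    have h2 : b = b' := congrArg Prod.snd heq
    subst h1
    subst h2
    rfl
  have h0 : P (some (tr default), v) := by
    show some (tr default) ∈ TM2.stmts tr L
    simp only [TM2.stmts, Finset.some_mem_insertNone, Finset.mem_biUnion]
    exact ⟨_, hL.1, TM2.stmts₁_self⟩
  refine ⟨{q // P q}, hfin, (micro tr).restrict P hP, ⟨_, h0⟩, fun S => ?_⟩
  rw [restrict_halts]
  exact micro_halts tr ⟨some default, v, S⟩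

end micro

open PartrecToTM2 ToPartrec

instance : Finite K' := by
  apply Finite.of_injective (β := Fin 4) (fun
    | .main => 0
    | .rev => 1
    | .aux => 2
    | .stack => 3)
  intro a b h
  cases a <;> cases b <;> simp_all

/-- for every code there is a finite machine halting when the code does -/
theorem exists_machine (c : Code) :
    ∃ (Q : Type) (_ : Finite Q) (M : Mach Q K' Γ') (q0 : Q), ∀ v : List ℕ,
      M.Halts (q0, K'.elim (trList v) [] [] []) ↔ (c.eval v).Dom := by
  let i : Inhabited Λ' := ⟨trNormal c Cont'.halt⟩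
  obtain ⟨Q, hQ, M, q0, h⟩ := @exists_finite_machine K' Γ' Λ' (Option Γ') _ tr i _ _
    (tr_supports c Cont'.halt) none
  refine ⟨Q, hQ, M, q0, fun v => (h _).trans ?_⟩
  have h1 : eval (TM2.step tr) ⟨some (@default _ i), none, K'.elim (trList v) [] [] []⟩ =
      PartrecToTM2.halt <$> Code.eval c v := PartrecToTM2.tr_eval c v
  rw [h1]
  rfl

/-- the body of a loop counting the length of a list of ones -/
def lenBody : Code :=
  .comp (.case .zero' (.cons (.comp .succ .zero') (.cons (.comp .succ .tail)
    (.comp .tail (.comp .tail .tail))))) (.cons .tail .id)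

theorem lenBody_nil (a : ℕ) : lenBody.eval [a] = pure [0, a] := by
  simp [lenBody]

theorem lenBody_cons (a : ℕ) (l : List ℕ) :
    lenBody.eval (a :: 1 :: l) = pure (1 :: (a + 1) :: l) := by
  simp [lenBody]

theorem fix_lenBody (a n : ℕ) :
    (Code.fix lenBody).eval (a :: List.replicate n 1) = pure [a + n] := by
  induction n generalizing a with
  | zero =>
    apply Part.eq_some_iff.2
    rw [Code.eval]
    apply PFun.fix_stop
    show _ ∈ (lenBody.eval [a]).map _
    rw [lenBody_nil]
    simp
  | succ n ih =>
    apply Part.eq_some_iff.2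
    rw [Code.eval]
    have h1 : [a + (n + 1)] ∈ (Code.fix lenBody).eval ((a + 1) :: List.replicate n 1) := by
      rw [ih (a + 1)]
      simp [add_assoc, add_comm 1 n]
    rw [Code.eval] at h1
    refine (PFun.mem_fix_iff.2 (Or.inr ⟨_, ?_, h1⟩))
    rw [List.replicate_succ, lenBody_cons]
    simp

/-- counting the length of a list of ones -/
def lenCode : Code := .comp (.fix lenBody) .zero'

theorem lenCode_eval (n : ℕ) : lenCode.eval (List.replicate n 1) = pure [n] := by
  have h := fix_lenBody 0 n
  rw [zero_add] at h
  rw [← h]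
  exact Part.bind_some _ _

/-- There is a finite machine with an undecidable halting problem. -/
theorem exists_universal : ∃ (Q : Type) (_ : Finite Q) (M : Mach Q K' Γ') (q0 : Q),
    ¬ ∃ g : ℕ → Bool, Computable g ∧ ∀ e, (g e = true ↔
      M.Halts (q0, K'.elim (trList (List.replicate (e + 1) 1)) [] [] [])) := by
  have hpart : Partrec fun v : List.Vector ℕ 1 =>
      (Denumerable.ofNat Nat.Partrec.Code (v.head - 1)).eval 0 := by
    apply Nat.Partrec.Code.eval_part.comp _ (Computable.const 0)
    apply (Computable.ofNat Nat.Partrec.Code).comp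
    exact (Primrec.nat_sub.comp Primrec.vector_head (Primrec.const 1)).to_comp
  obtain ⟨cu, hcu⟩ := Code.exists_code (Nat.Partrec'.part_iff.2 hpart)
  obtain ⟨Q, hQ, M, q0, h⟩ := exists_machine (.comp cu lenCode)
  refine ⟨Q, hQ, M, q0, ?_⟩
  rintro ⟨g, hg, hg'⟩
  have key : ∀ c : Nat.Partrec.Code, g (Encodable.encode c) = true ↔ (c.eval 0).Dom := by
    intro c
    rw [hg', h]
    have h1 : (Code.comp cu lenCode).eval (List.replicate (Encodable.encode c + 1) 1) =
        cu.eval [Encodable.encode c + 1] := by
      show (lenCode.eval _ >>= cu.eval) = _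
      rw [lenCode_eval]
      exact Part.bind_some _ _
    rw [h1, hcu ⟨[Encodable.encode c + 1], rfl⟩]
    have h2 : (List.Vector.head (⟨[Encodable.encode c + 1], rfl⟩ : List.Vector ℕ 1)) =
        Encodable.encode c + 1 := rfl
    rw [h2]
    simp
  apply ComputablePred.halting_problem 0
  apply ComputablePred.computable_iff.2
  refine ⟨fun c => g (Encodable.encode c), hg.comp Computable.encode, ?_⟩
  funext c
  exact propext (key c).symm

end Pool.Agent.Helper64.Tiling
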