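import Mathlib
import Pool.Agent.Helper64.Tiling.Machine

set_option autoImplicit false

namespace Pool.Agent.Helper64.Tiling

/-! A halting computation yields tilings of rectangles. -/

section

variable {Q K Γ : Type} (M : Mach Q K Γ) (m k : ℤ) (code : Color Q K Γ → ℤ)
  (c0 : Q × (K → List Γ)) (e : ℕ)

/-- the operations of the next step -/
def Mach.ops (c : Q × (K → List Γ)) : K → Op Γ :=
  match M.tr c.1 (col c.2 0) with
  | some p => p.2
  | none => fun _ => .keep

/-- the next state -/
def Mach.st (c : Q × (K → List Γ)) : Q :=
  match M.tr c.1 (col c.2 0) with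
  | some p => p.1
  | none => c.1

/-- the next configuration -/
def Mach.succ (c : Q × (K → List Γ)) : Q × (K → List Γ) := (M.next c).getD c

theorem Mach.succ_eq (c : Q × (K → List Γ)) :
    M.succ c = (M.st c, fun κ => (M.ops c κ).apply (c.2 κ)) := by
  unfold Mach.succ Mach.next Mach.st Mach.ops
  cases h : M.tr c.1 (col c.2 0) with
  | none => rfl
  | some p => rfl

theorem Mach.step_succ (c : Q × (K → List Γ)) :
    M.Step c.1 (col c.2 0) (M.st c) (M.ops c) := by
  unfold Mach.Step Mach.st Mach.ops
  cases h : M.tr c.1 (col c.2 0) with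
  | none => exact Or.inl ⟨rfl, rfl⟩
  | some p => exact Or.inr rfl

/-- the symbols passed between columns `i` and `i + 1` -/
def edge (c : Q × (K → List Γ)) (i : ℕ) : K → Option Γ := fun κ =>
  match M.ops c κ with
  | .keep => none
  | .push _ => (c.2 κ)[i]?
  | .pop => (c.2 κ)[i + 1]?

theorem colRel_edge (c : Q × (K → List Γ)) :
    ColRel (M.ops c) (col c.2 0) (edge M c 0) (col (M.succ c).2 0) := by
  intro κ
  rw [M.succ_eq]
  unfold edge col
  simp only
  cases h : M.ops c κ with
  | keep => rfl
  | push a => exact ⟨rfl, rfl⟩
  | pop =>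
    show (c.2 κ).tail[0]? = _
    rw [List.getElem?_tail]

theorem cellRel_edge (c : Q × (K → List Γ)) (i : ℕ) :
    CellRel (fun κ => (M.ops c κ).kind) (edge M c i) (edge M c (i + 1)) (col c.2 (i + 1))
      (col (M.succ c).2 (i + 1)) := by
  intro κ
  rw [M.succ_eq]
  unfold edge col
  simp only
  cases h : M.ops c κ with
  | keep => rfl
  | push a => exact ⟨rfl, rfl⟩
  | pop =>
    refine ⟨?_, rfl⟩
    show (c.2 κ).tail[i + 1]? = _
    rw [List.getElem?_tail]

theorem edge_none {c : Q × (K → List Γ)} {A : ℕ} (h : ∀ κ, (c.2 κ).length ≤ A) :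
    edge M c A = fun _ => none := by
  funext κ
  have := h κ
  unfold edge
  cases h : M.ops c κ with
  | keep => rfl
  | push a => exact List.getElem?_eq_none (by omega)
  | pop => exact List.getElem?_eq_none (by omega)

/-- blocks of the bottom row -/
def rowBlock (A i : ℕ) : Desc :=
  if i ≤ 2 * e + 1 then seedBlock k code c0 e i
  else if i < A then ⟨k, k + 1, code .row0, 0, code .row0, code (.V (fun _ => none) false)⟩
  else ⟨k, k + 1, code .row0, 0, 0, code (.V (fun _ => none) true)⟩

/-- blocks of the middle rows -/
def midBlock (c : Q × (K → List Γ)) (A i : ℕ) : Desc :=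
  if i = 0 then ⟨k + 1, k, 0, code (.C0 c.1 (col c.2 0)),
    code (.H (fun κ => (M.ops c κ).kind) (edge M c 0)),
    code (.C0 (M.st c) (col (M.succ c).2 0))⟩
  else if i < A then ⟨k, k, code (.H (fun κ => (M.ops c κ).kind) (edge M c (i - 1))),
    code (.V (col c.2 i) false), code (.H (fun κ => (M.ops c κ).kind) (edge M c i)),
    code (.V (col (M.succ c).2 i) false)⟩
  else ⟨k, k, code (.H (fun κ => (M.ops c κ).kind) (edge M c (i - 1))),
    code (.V (col c.2 i) true), 0, code (.V (col (M.succ c).2 i) true)⟩

/-- blocks of the top row -/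
def topBlock (c : Q × (K → List Γ)) (A i : ℕ) : Desc :=
  if i = 0 then ⟨k + 1, k, 0, code (.C0 c.1 (col c.2 0)), code .top, 0⟩
  else if i < A then ⟨k, k, code .top, code (.V (col c.2 i) false), code .top, 0⟩
  else ⟨k, k, code .top, code (.V (col c.2 i) true), 0, 0⟩

/-- the whole array -/
def gridDesc (A B i j : ℕ) : Desc :=
  if j = 0 then rowBlock k code c0 e A i
  else if j < B then midBlock M k code (M.run c0 (j - 1)) A i
  else topBlock k code (M.run c0 (j - 1)) A i

variable {M m k code c0 e}

theorem gridDesc_fix {A B : ℕ} (_hA : 2 * e + 2 ≤ A)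
    (hlen : ∀ t κ, ((M.run c0 t).2 κ).length ≤ A) (_hB : 1 ≤ B)
    (hhalt : M.next (M.run c0 (B - 1)) = none) {i j : ℕ} (hi : i ≤ A) (hj : j ≤ B)
    (hij : ¬ (j = 0 ∧ i ≤ 2 * e + 1)) : Fix M k code (gridDesc M k code c0 e A B i j) := by
  unfold gridDesc
  by_cases hj0 : j = 0
  · have hi2 : ¬ i ≤ 2 * e + 1 := fun h => hij ⟨hj0, h⟩
    rw [if_pos hj0]
    unfold rowBlock
    rw [if_neg hi2]
    split_ifs
    · exact Fix.row
    · exact Fix.rowEnd
  · rw [if_neg hj0]
    by_cases hjB : j < B
    · rw [if_pos hjB]
      unfold midBlock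
      by_cases hi0 : i = 0
      · rw [if_pos hi0]
        exact Fix.col _ _ _ _ _ _ (M.step_succ _) (colRel_edge M _)
      · rw [if_neg hi0]
        obtain ⟨i, rfl⟩ := Nat.exists_eq_succ_of_ne_zero hi0
        by_cases hiA : i.succ < A
        · rw [if_pos hiA]
          exact Fix.cell _ _ _ _ _ (cellRel_edge M _ i)
        · rw [if_neg hiA]
          apply Fix.cellEnd
          have h1 := cellRel_edge M (M.run c0 (j - 1)) i
          have h2 : i + 1 = A := by omega
          have h3 : edge M (M.run c0 (j - 1)) (i + 1) = fun _ => none := by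
            rw [h2]
            exact edge_none M (hlen _)
          rw [h3] at h1
          exact h1
    · rw [if_neg hjB]
      unfold topBlock
      have hjB' : j = B := by omega
      split_ifs
      · apply Fix.colTop
        rw [hjB']
        unfold Mach.next at hhalt
        cases h : M.tr (M.run c0 (B - 1)).1 (col (M.run c0 (B - 1)).2 0) with
        | none => rfl
        | some p =>
          rw [h] at hhalt
          simp at hhalt
      · exact Fix.cellTop _
      · exact Fix.cellTopEnd _

theorem gridDesc_seed {A B i : ℕ} (hi : i ≤ 2 * e + 1) :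
    gridDesc M k code c0 e A B i 0 = seedBlock k code c0 e i := by
  unfold gridDesc rowBlock
  rw [if_pos rfl, if_pos hi]

theorem gridOK (h : CodeGood m k code) {A B : ℕ} (hA : 2 * e + 2 ≤ A)
    (hlen : ∀ t κ, ((M.run c0 t).2 κ).length ≤ A) (hlen0 : ∀ κ, (c0.2 κ).length ≤ 2 * e + 2)
    (hB : 1 ≤ B)
    (hhalt : M.next (M.run c0 (B - 1)) = none) : GridOK m k A B (gridDesc M k code c0 e A B) where
  good := by
    intro i j hi hj
    by_cases hij : j = 0 ∧ i ≤ 2 * e + 1
    · rw [hij.1, gridDesc_seed hij.2]
      exact seedBlock_good h c0 e i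
    · exact (gridDesc_fix hA hlen hB hhalt hi hj hij).good h
  w := by
    intro i j _ _
    unfold gridDesc rowBlock midBlock topBlock siz
    by_cases hi0 : i = 0
    · subst hi0
      simp only [Nat.zero_le, if_true]
      split_ifs <;> rfl
    · simp only [if_neg hi0]
      split_ifs
      · unfold seedBlock siz
        simp only [if_neg hi0]
      all_goals rfl
  h := by
    intro i j _ _
    unfold gridDesc rowBlock midBlock topBlock
    by_cases hj0 : j = 0
    · subst hj0
      simp only [if_true]
      split_ifs <;> rfl
    · rw [show siz k j = k from if_neg hj0]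
      simp only [if_neg hj0]
      split_ifs <;> rfl
  hr := by
    intro i j hi hj
    unfold gridDesc
    by_cases hj0 : j = 0
    · simp only [if_pos hj0]
      unfold rowBlock
      by_cases h1 : i < 2 * e + 1
      · rw [if_pos (show i + 1 ≤ 2 * e + 1 by omega), if_pos (show i ≤ 2 * e + 1 by omega)]
        unfold seedBlock
        simp only
        rw [if_neg (Nat.succ_ne_zero i), if_pos h1]
      · by_cases h2 : i = 2 * e + 1
        · rw [if_neg (show ¬ i + 1 ≤ 2 * e + 1 by omega), if_pos (show i ≤ 2 * e + 1 by omega)]
          unfold seedBlock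
          simp only
          rw [if_neg h1]
          split_ifs <;> rfl
        · rw [if_neg (show ¬ i + 1 ≤ 2 * e + 1 by omega), if_neg (show ¬ i ≤ 2 * e + 1 by omega),
            if_pos hi]
          split_ifs <;> rfl
    · simp only [if_neg hj0]
      by_cases hjB : j < B
      · simp only [if_pos hjB]
        unfold midBlock
        rw [if_neg (Nat.succ_ne_zero i)]
        by_cases hi0 : i = 0
        · subst hi0
          rw [if_pos rfl]
          split_ifs <;> rfl
        · rw [if_neg hi0, if_pos hi]
          split_ifs <;> rfl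
      · simp only [if_neg hjB]
        unfold topBlock
        rw [if_neg (Nat.succ_ne_zero i)]
        by_cases hi0 : i = 0
        · subst hi0
          rw [if_pos rfl]
          split_ifs <;> rfl
        · rw [if_neg hi0, if_pos hi]
          split_ifs <;> rfl
  ht := by
    intro i j hi hj
    -- the bottom of a block in row `j + 1`
    have hbot : (gridDesc M k code c0 e A B i (j + 1)).b =
        if i = 0 then code (.C0 (M.run c0 j).1 (col (M.run c0 j).2 0))
        else code (.V (col (M.run c0 j).2 i) (decide (¬ i < A))) := by
      unfold gridDesc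
      rw [if_neg (Nat.succ_ne_zero j), Nat.add_sub_cancel]
      unfold midBlock topBlock
      by_cases hi0 : i = 0
      · simp only [if_pos hi0]
        split_ifs <;> rfl
      · simp only [if_neg hi0]
        by_cases hiA : i < A
        · simp only [if_pos hiA]
          split_ifs <;> simp [hiA]
        · simp only [if_neg hiA]
          split_ifs <;> simp [hiA]
    rw [hbot]
    unfold gridDesc
    by_cases hj0 : j = 0
    · subst hj0
      rw [if_pos rfl]
      unfold rowBlock
      by_cases h1 : i ≤ 2 * e + 1
      · rw [if_pos h1]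
        unfold seedBlock
        simp only
        have h2 : decide (¬ i < A) = false := by simp; omega
        rw [h2]
        rfl
      · have hcol : col c0.2 i = fun _ => none := by
          funext κ
          have := hlen0 κ
          exact List.getElem?_eq_none (by omega)
        rw [if_neg (by omega), if_neg h1]
        show code (.V (col c0.2 i) _) = _
        rw [hcol]
        by_cases hiA : i < A
        · simp [hiA]
        · simp [hiA]
    · rw [if_neg hj0, if_pos hj]
      obtain ⟨j, rfl⟩ := Nat.exists_eq_succ_of_ne_zero hj0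
      have hrun : M.run c0 j.succ = M.succ (M.run c0 j) := rfl
      rw [Nat.succ_sub_one]
      unfold midBlock
      by_cases hi0 : i = 0
      · rw [if_pos hi0, if_pos hi0, hrun]
        simp only
        congr 2
        rw [M.succ_eq]
      · rw [if_neg hi0, if_neg hi0, hrun]
        by_cases hiA : i < A
        · simp [hiA]
        · simp [hiA]
  l0 := by
    intro j hj
    unfold gridDesc rowBlock midBlock topBlock
    split_ifs <;> first | rfl | omega
  rA := by
    intro j hj
    unfold gridDesc rowBlock midBlock topBlock
    have h1 : ¬ A ≤ 2 * e + 1 := by omega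
    have h2 : ¬ A = 0 := by omega
    simp only [if_neg h1, if_neg h2, lt_irrefl, if_false]
    split_ifs <;> rfl
  b0 := by
    intro i hi
    unfold gridDesc rowBlock
    rw [if_pos rfl]
    split_ifs <;> rfl
  tB := by
    intro i hi
    unfold gridDesc topBlock
    rw [if_neg (by omega), if_neg (lt_irrefl B)]
    split_ifs <;> rfl

end

end Pool.Agent.Helper64.Tiling
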