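import Mathlib
import Pool.Agent.Helper64.Tiling.Machine

set_option autoImplicit false

namespace Pool.Agent.Helper64.Tiling

/-! A periodic tiling containing the seed yields a halting computation. -/

section

variable {Q K Γ : Type} {M : Mach Q K Γ} {m k : ℤ} {code : Color Q K Γ → ℤ}
  {c0 : Q × (K → List Γ)} {e : ℕ} {V : Set (Desc × (ℤ × ℤ))}

/-- allowed blocks -/
def Allowed (M : Mach Q K Γ) (k : ℤ) (code : Color Q K Γ → ℤ) (c0 : Q × (K → List Γ)) (e : ℕ)
    (d : Desc) : Prop :=
  Fix M k code d ∨ ∃ i ≤ 2 * e + 1, d = seedBlock k code c0 e i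

theorem Allowed.good (h : CodeGood m k code) {d : Desc} (hd : Allowed M k code c0 e d) :
    Good m k d := by
  rcases hd with hd | ⟨i, -, rfl⟩
  · exact hd.good h
  · exact seedBlock_good h c0 e i

theorem class_row0 (h : CodeGood m k code) {d : Desc} (hd : Allowed M k code c0 e d)
    (hl : d.l = code .row0) :
    d = ⟨k, k + 1, code .row0, 0, code .row0, code (.V (fun _ => none) false)⟩ ∨
    d = ⟨k, k + 1, code .row0, 0, 0, code (.V (fun _ => none) true)⟩ := by
  rcases hd with hd | ⟨i, -, rfl⟩
  · cases hd with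
    | square => exact absurd hl.symm (h.ne _)
    | row => exact Or.inl rfl
    | rowEnd => exact Or.inr rfl
    | col q s q' ops pay s' hstep hrel => exact absurd hl.symm (h.ne _)
    | colTop q s hh => exact absurd hl.symm (h.ne _)
    | cell ks payL payR s s' hh => exact absurd (h.inj hl) (by simp)
    | cellEnd ks payL s s' hh => exact absurd (h.inj hl) (by simp)
    | cellTop s => exact absurd (h.inj hl) (by simp)
    | cellTopEnd s => exact absurd (h.inj hl) (by simp)
  · unfold seedBlock at hl
    simp only at hl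
    split_ifs at hl
    · exact absurd hl.symm (h.ne _)
    · exact absurd (h.inj hl) (by simp)

theorem class_C0 (h : CodeGood m k code) {d : Desc} (hd : Allowed M k code c0 e d)
    {q : Q} {s : K → Option Γ} (hb : d.b = code (.C0 q s)) :
    (∃ q' ops pay s', M.Step q s q' ops ∧ ColRel ops s pay s' ∧
      d = ⟨k + 1, k, 0, code (.C0 q s), code (.H (fun κ => (ops κ).kind) pay),
        code (.C0 q' s')⟩) ∨ M.tr q s = none := by
  rcases hd with hd | ⟨i, -, rfl⟩
  · cases hd with
    | square => exact absurd hb.symm (h.ne _)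
    | row => exact absurd hb.symm (h.ne _)
    | rowEnd => exact absurd hb.symm (h.ne _)
    | col q1 s1 q' ops pay s' hstep hrel =>
      have h1 := h.inj hb
      rw [Color.C0.injEq] at h1
      obtain ⟨rfl, rfl⟩ := h1
      exact Or.inl ⟨q', ops, pay, s', hstep, hrel, rfl⟩
    | colTop q1 s1 hh =>
      have h1 := h.inj hb
      rw [Color.C0.injEq] at h1
      obtain ⟨rfl, rfl⟩ := h1
      exact Or.inr hh
    | cell ks payL payR s s' hh => exact absurd (h.inj hb) (by simp)
    | cellEnd ks payL s s' hh => exact absurd (h.inj hb) (by simp)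
    | cellTop s => exact absurd (h.inj hb) (by simp)
    | cellTopEnd s => exact absurd (h.inj hb) (by simp)
  · exact absurd hb.symm (h.ne _)

theorem class_cell (h : CodeGood m k code) {d : Desc} (hd : Allowed M k code c0 e d)
    {ks : K → Kind} {payL s : K → Option Γ} {f : Bool} (hl : d.l = code (.H ks payL))
    (hb : d.b = code (.V s f)) :
    ∃ payR s', CellRel ks payL payR s s' ∧
      ((f = false ∧ d = ⟨k, k, code (.H ks payL), code (.V s false), code (.H ks payR),
        code (.V s' false)⟩) ∨
      (f = true ∧ payR = (fun _ => none) ∧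
        d = ⟨k, k, code (.H ks payL), code (.V s true), 0, code (.V s' true)⟩)) := by
  rcases hd with hd | ⟨i, -, rfl⟩
  · cases hd with
    | square => exact absurd hb.symm (h.ne _)
    | row => exact absurd hb.symm (h.ne _)
    | rowEnd => exact absurd hb.symm (h.ne _)
    | col q1 s1 q' ops pay s' hstep hrel => exact absurd (h.inj hb) (by simp)
    | colTop q1 s1 hh => exact absurd (h.inj hb) (by simp)
    | cell ks1 payL1 payR s1 s' hh =>
      have h1 := h.inj hb
      have h2 := h.inj hl
      rw [Color.V.injEq] at h1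
      rw [Color.H.injEq] at h2
      obtain ⟨rfl, rfl⟩ := h1
      obtain ⟨rfl, rfl⟩ := h2
      exact ⟨payR, s', hh, Or.inl ⟨rfl, rfl⟩⟩
    | cellEnd ks1 payL1 s1 s' hh =>
      have h1 := h.inj hb
      have h2 := h.inj hl
      rw [Color.V.injEq] at h1
      rw [Color.H.injEq] at h2
      obtain ⟨rfl, rfl⟩ := h1
      obtain ⟨rfl, rfl⟩ := h2
      exact ⟨_, s', hh, Or.inr ⟨rfl, rfl, rfl⟩⟩
    | cellTop s => exact absurd (h.inj hl) (by simp)
    | cellTopEnd s => exact absurd (h.inj hl) (by simp)
  · exact absurd hb.symm (h.ne _)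

/-- tilings with blocks -/
structure VT (M : Mach Q K Γ) (m k : ℤ) (code : Color Q K Γ → ℤ) (c0 : Q × (K → List Γ)) (e : ℕ)
    (V : Set (Desc × (ℤ × ℤ))) : Prop where
  allowed : ∀ p ∈ V, Allowed M k code c0 e p.1
  cover : ∀ z, ∃! p, p ∈ V ∧ Cell m p.1 (z - p.2)

theorem VT.eq (hV : VT M m k code c0 e V) {d d' : Desc} {u u' z : ℤ × ℤ} (h1 : (d, u) ∈ V)
    (h2 : (d', u') ∈ V) (h3 : Cell m d (z - u)) (h4 : Cell m d' (z - u')) : d = d' ∧ u = u' := by
  obtain ⟨p, -, hp⟩ := hV.cover z
  have e1 := hp (d, u) ⟨h1, h3⟩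
  have e2 := hp (d', u') ⟨h2, h4⟩
  have e3 := e1.trans e2.symm
  rw [Prod.mk.injEq] at e3
  exact e3

theorem VT.same (h : CodeGood m k code) (hV : VT M m k code c0 e V) {d d' : Desc} {u : ℤ × ℤ}
    (h1 : (d, u) ∈ V) (h2 : (d', u) ∈ V) : d = d' := by
  refine (hV.eq (z := u) h1 h2 ?_ ?_).1
  · rw [sub_self]
    exact cell_zero ((hV.allowed _ h1).good h)
  · rw [sub_self]
    exact cell_zero ((hV.allowed _ h2).good h)

theorem VT.right (h : CodeGood m k code) (hV : VT M m k code c0 e V) {d : Desc} {u : ℤ × ℤ}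
    (h1 : (d, u) ∈ V) (hr : d.r ≠ 0) : ∃ d', (d', u + (d.w, 0)) ∈ V ∧ d'.l = d.r := by
  obtain ⟨⟨d', u'⟩, ⟨h2, h3⟩, -⟩ := hV.cover (u + (d.w + 1, m + 2 + d.r))
  have hd : Good m k d := (hV.allowed _ h1).good h
  have hd' : Good m k d' := (hV.allowed _ h2).good h
  have hnot : ¬ Cell m d (d.w + 1, m + 2 + d.r) := by
    have hw := hd.le_w
    have hk := h.hk
    have hm := h.hm
    rintro (⟨_, g, _⟩ | ⟨_, _, _, _, g⟩ | ⟨_, g, _⟩)
    · simp only at g
      omega
    · exact g rfl
    · simp only at g
      omega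
  obtain ⟨h4, h5⟩ := forward_right hd hd' hr (u := u) (u' := u') (by
    intro y hy hy'
    obtain ⟨rfl, rfl⟩ := hV.eq h1 h2 hy hy'
    apply hnot
    rw [add_sub_cancel_left] at h3
    exact h3) h3
  exact ⟨d', by rw [← h5]; exact h2, h4⟩

theorem VT.top (h : CodeGood m k code) (hV : VT M m k code c0 e V) {d : Desc} {u : ℤ × ℤ}
    (h1 : (d, u) ∈ V) (ht : d.t ≠ 0) : ∃ d', (d', u + (0, d.h)) ∈ V ∧ d'.b = d.t := by
  obtain ⟨⟨d', u'⟩, ⟨h2, h3⟩, -⟩ := hV.cover (u + (3, d.h + 1 + d.t))
  have hd : Good m k d := (hV.allowed _ h1).good h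
  have hd' : Good m k d' := (hV.allowed _ h2).good h
  obtain ⟨ht1, ht2⟩ := hd.ht.of_ne ht
  have hnot : ¬ Cell m d (3, d.h + 1 + d.t) := by
    have hw := hd.le_w
    have hk := h.hk
    have hm := h.hm
    rintro (⟨_, _, _, g, _⟩ | ⟨_, g, _⟩ | ⟨_, _, _, _, g⟩)
    · simp only at g
      omega
    · simp only at g
      omega
    · exact g rfl
  obtain ⟨h4, h5⟩ := forward_top hd hd' ht (u := u) (u' := u') (by
    intro y hy hy'
    obtain ⟨rfl, rfl⟩ := hV.eq h1 h2 hy hy'
    apply hnot
    rw [add_sub_cancel_left] at h3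
    exact h3) h3
  exact ⟨d', by rw [← h5]; exact h2, h4⟩

/-- Row `j` of the array at `u` with `A + 1` columns shows the configuration `c` on its top
edges. -/
structure RowRep (m k : ℤ) (code : Color Q K Γ → ℤ) (V : Set (Desc × (ℤ × ℤ))) (u : ℤ × ℤ)
    (A j : ℕ) (c : Q × (K → List Γ)) : Prop where
  h0 : ∃ d, (d, u + (pos k 0, pos k j)) ∈ V ∧ d.w = siz k 0 ∧ d.h = siz k j ∧
    d.t = code (.C0 c.1 (col c.2 0))
  hi : ∀ i, 1 ≤ i → i ≤ A → ∃ d, (d, u + (pos k i, pos k j)) ∈ V ∧ d.w = siz k i ∧
    d.h = siz k j ∧ d.t = code (.V (col c.2 i) (decide (i = A)))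
  len : ∀ κ, (c.2 κ).length ≤ A + 1

theorem siz_pos (k : ℤ) {i : ℕ} (hi : 1 ≤ i) : siz k i = k := by
  unfold siz
  rw [if_neg (by omega)]

theorem row_step (h : CodeGood m k code) (hV : VT M m k code c0 e V) {u : ℤ × ℤ} {A j : ℕ}
    (hA : 1 ≤ A) {c : Q × (K → List Γ)} (hrow : RowRep m k code V u A j c)
    (hnh : M.next c ≠ none) :
    RowRep m k code V u A (j + 1) c ∨ ∃ c', M.next c = some c' ∧
      RowRep m k code V u A (j + 1) c' := by
  have htr : M.tr c.1 (col c.2 0) ≠ none := by
    intro h1
    apply hnh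
    unfold Mach.next
    rw [h1]
    rfl
  -- column 0
  obtain ⟨d0, hd0, hd0w, hd0h, hd0t⟩ := hrow.h0
  obtain ⟨e0, he0, he0b⟩ := hV.top h hd0 (by rw [hd0t]; exact h.ne _)
  rw [hd0t] at he0b
  rw [hd0h, add_assoc, show ((pos k 0, pos k j) : ℤ × ℤ) + (0, siz k j) =
    (pos k 0, pos k (j + 1)) by rw [pos_succ]; rfl] at he0
  rcases class_C0 h (hV.allowed _ he0) he0b with ⟨q', ops, pay, s', hstep, hrel, he0eq⟩ | hcon
  swap
  · exact absurd hcon htr
  have he0eq : e0 = ⟨k + 1, k, 0, code (.C0 c.1 (col c.2 0)),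
    code (.H (fun κ => (ops κ).kind) pay), code (.C0 q' s')⟩ := he0eq
  -- the tiles of row j+1
  set ks : K → Kind := fun κ => (ops κ).kind with hks
  -- passing from column i to column i+1
  have hlink : ∀ i, i < A → ∀ d payR, (d, u + (pos k i, pos k (j + 1))) ∈ V → d.w = siz k i →
      d.r = code (.H ks payR) → ∃ payR' s'', CellRel ks payR payR' (col c.2 (i + 1)) s'' ∧
      ((i + 1 < A ∧ ((⟨k, k, code (.H ks payR), code (.V (col c.2 (i + 1)) false),
          code (.H ks payR'), code (.V s'' false)⟩ : Desc),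
          u + (pos k (i + 1), pos k (j + 1))) ∈ V) ∨
        (i + 1 = A ∧ payR' = (fun _ => none) ∧ ((⟨k, k, code (.H ks payR),
          code (.V (col c.2 (i + 1)) true), 0, code (.V s'' true)⟩ : Desc),
          u + (pos k (i + 1), pos k (j + 1))) ∈ V)) := by
    intro i hiA d payR hd hw hr
    obtain ⟨d', hd', hl'⟩ := hV.right h hd (by rw [hr]; exact h.ne _)
    rw [hr] at hl'
    rw [hw, add_assoc, show ((pos k i, pos k (j + 1)) : ℤ × ℤ) + (siz k i, 0) =
      (pos k (i + 1), pos k (j + 1)) by
        apply Prod.ext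
        · exact (pos_succ k i).symm
        · exact add_zero _] at hd'
    obtain ⟨d1, hd1, hd1w, hd1h, hd1t⟩ := hrow.hi (i + 1) (by omega) (by omega)
    obtain ⟨d2, hd2, hd2b⟩ := hV.top h hd1 (by rw [hd1t]; exact h.ne _)
    rw [hd1t] at hd2b
    rw [hd1h, add_assoc, show ((pos k (i + 1), pos k j) : ℤ × ℤ) + (0, siz k j) =
      (pos k (i + 1), pos k (j + 1)) by
        apply Prod.ext
        · exact add_zero _
        · exact (pos_succ k j).symm] at hd2
    have hdd := hV.same h hd' hd2
    subst hdd
    obtain ⟨payR', s'', hrel', hcase⟩ := class_cell h (hV.allowed _ hd') hl' hd2b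
    refine ⟨payR', s'', hrel', ?_⟩
    rcases hcase with ⟨hf, hd''⟩ | ⟨hf, hpay, hd''⟩
    · left
      have : i + 1 ≠ A := of_decide_eq_false hf
      refine ⟨by omega, ?_⟩
      rw [← hd'']
      exact hd'
    · right
      refine ⟨of_decide_eq_true hf, hpay, ?_⟩
      rw [← hd'']
      exact hd'
  -- the value passed to the left in case of a pop
  have hpop : ∀ i, i < A → ∀ d payR, (d, u + (pos k i, pos k (j + 1))) ∈ V → d.w = siz k i →
      d.r = code (.H ks payR) → ∀ κ, ks κ = .pop → payR κ = (c.2 κ)[i + 1]? := by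
    intro i hiA d payR hd hw hr κ hκ
    obtain ⟨payR', s'', hrel', -⟩ := hlink i hiA d payR hd hw hr
    have := hrel' κ
    rw [hκ] at this
    exact this.2
  -- all tiles
  have htiles : ∀ i, i < A → ∃ payL, (∀ κ, ks κ = .push → payL κ = (c.2 κ)[i]?) ∧
      ∃ payR' s'', CellRel ks payL payR' (col c.2 (i + 1)) s'' ∧
      ((i + 1 < A ∧ ((⟨k, k, code (.H ks payL), code (.V (col c.2 (i + 1)) false),
          code (.H ks payR'), code (.V s'' false)⟩ : Desc),
          u + (pos k (i + 1), pos k (j + 1))) ∈ V) ∨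
        (i + 1 = A ∧ payR' = (fun _ => none) ∧ ((⟨k, k, code (.H ks payL),
          code (.V (col c.2 (i + 1)) true), 0, code (.V s'' true)⟩ : Desc),
          u + (pos k (i + 1), pos k (j + 1))) ∈ V)) := by
    intro i
    induction i with
    | zero =>
      intro _
      refine ⟨pay, ?_, hlink 0 (by omega) e0 pay he0 ?_ ?_⟩
      · intro κ hκ
        have h1 := hrel κ
        have h2 : (ops κ).kind = .push := hκ
        cases hop : ops κ with
        | keep =>
          rw [hop] at h2
          exact absurd h2 (by simp [Op.kind])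
        | push a =>
          rw [hop] at h1
          exact h1.2
        | pop =>
          rw [hop] at h2
          exact absurd h2 (by simp [Op.kind])
      · rw [he0eq]
        rfl
      · rw [he0eq]
    | succ i ih =>
      intro hiA
      obtain ⟨payL, -, payR', s'', hrel', hcase⟩ := ih (by omega)
      rcases hcase with ⟨-, hd⟩ | ⟨hcon, -⟩
      · refine ⟨payR', ?_, hlink (i + 1) hiA _ payR' hd (siz_pos k (by omega)).symm rfl⟩
        intro κ hκ
        have h1 := hrel' κ
        rw [hκ] at h1
        exact h1.2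
      · omega
  -- the new configuration
  let c' : Q × (K → List Γ) := (q', fun κ => (ops κ).apply (c.2 κ))
  have hrow' : RowRep m k code V u A (j + 1) c' := by
    refine ⟨⟨e0, he0, by rw [he0eq]; rfl, by rw [he0eq, siz_pos k (by omega)], ?_⟩, ?_, ?_⟩
    · rw [he0eq]
      simp only
      congr 2
      funext κ
      have h1 := hrel κ
      show s' κ = ((ops κ).apply (c.2 κ))[0]?
      cases hop : ops κ with
      | keep =>
        rw [hop] at h1
        exact h1
      | push a =>
        rw [hop] at h1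
        rw [h1.1]
        rfl
      | pop =>
        rw [hop] at h1
        have h2 := hpop 0 (by omega) e0 pay he0 (by rw [he0eq]; rfl) (by rw [he0eq]) κ (by
          show (ops κ).kind = _
          rw [hop]
          rfl)
        rw [h1, h2]
        show _ = (c.2 κ).tail[0]?
        rw [List.getElem?_tail]
    · intro i hi1 hiA
      obtain ⟨i, rfl⟩ : ∃ i', i = i' + 1 := ⟨i - 1, by omega⟩
      obtain ⟨payL, hpushL, payR', s'', hrel', hcase⟩ := htiles i (by omega)
      have hs'' : s'' = col c'.2 (i + 1) := by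
        funext κ
        have h1 := hrel' κ
        show s'' κ = ((ops κ).apply (c.2 κ))[i + 1]?
        cases hop : ops κ with
        | keep =>
          have h2 : ks κ = .keep := by
            show (ops κ).kind = _
            rw [hop]
            rfl
          rw [h2] at h1
          exact h1
        | push a =>
          have h2 : ks κ = .push := by
            show (ops κ).kind = _
            rw [hop]
            rfl
          rw [h2] at h1
          rw [h1.1, hpushL κ h2]
          rfl
        | pop =>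
          have h2 : ks κ = .pop := by
            show (ops κ).kind = _
            rw [hop]
            rfl
          rw [h2] at h1
          rw [h1.1]
          show _ = (c.2 κ).tail[i + 1]?
          rw [List.getElem?_tail]
          rcases hcase with ⟨hlt, hd⟩ | ⟨heq, hpay, hd⟩
          · exact hpop (i + 1) hlt _ payR' hd (siz_pos k (by omega)).symm rfl κ h2
          · rw [hpay]
            have := hrow.len κ
            rw [List.getElem?_eq_none (by omega)]
      rcases hcase with ⟨hlt, hd⟩ | ⟨heq, hpay, hd⟩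
      · refine ⟨_, hd, (siz_pos k (by omega)).symm, (siz_pos k (by omega)).symm, ?_⟩
        rw [hs'', show decide (i + 1 = A) = false from decide_eq_false (by omega)]
      · refine ⟨_, hd, (siz_pos k (by omega)).symm, (siz_pos k (by omega)).symm, ?_⟩
        rw [hs'', show decide (i + 1 = A) = true from decide_eq_true heq]
    · intro κ
      show ((ops κ).apply (c.2 κ)).length ≤ A + 1
      have hlen := hrow.len κ
      cases hop : ops κ with
      | keep => exact hlen
      | push a =>
        have h2 : ks κ = .push := by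
          show (ops κ).kind = _
          rw [hop]
          rfl
        obtain ⟨payL, hpushL, payR', s'', hrel', hcase⟩ := htiles (A - 1) (by omega)
        rcases hcase with ⟨hlt, hd⟩ | ⟨heq, hpay, hd⟩
        · omega
        · have h1 := hrel' κ
          rw [h2] at h1
          have h3 := h1.2
          rw [hpay] at h3
          have h4 : (c.2 κ)[A]? = none := by
            rw [← heq]
            exact h3.symm
          rw [List.getElem?_eq_none_iff] at h4
          show (a :: c.2 κ).length ≤ A + 1
          rw [List.length_cons]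
          omega
      | pop =>
        show (c.2 κ).tail.length ≤ A + 1
        rw [List.length_tail]
        omega
  rcases hstep with ⟨hq, hops⟩ | hstep
  · left
    have : c' = c := by
      show (q', fun κ => (ops κ).apply (c.2 κ)) = c
      rw [hq, hops]
      rfl
    rw [← this]
    exact hrow'
  · right
    refine ⟨c', ?_, hrow'⟩
    unfold Mach.next
    rw [hstep]
    rfl

theorem pos_block (k : ℤ) (hk : 1 ≤ k) {x : ℤ} (hx : 0 ≤ x) :
    ∃ i, pos k i ≤ x ∧ x < pos k (i + 1) := by
  obtain ⟨i, -, h1, h2⟩ := exists_block (k := k) x.toNat hx (by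
    rw [pos_eq]
    have : ((x.toNat : ℕ) : ℤ) = x := Int.toNat_of_nonneg hx
    rw [this]
    nlinarith)
  exact ⟨i, h1, h2⟩

/-- Without a halt, there is no tiling containing the seed periodically. -/
theorem no_tiling (h : CodeGood m k code) (hV : VT M m k code c0 e V) {u : ℤ × ℤ}
    (hseed : ∀ i, i ≤ 2 * e + 1 → (seedBlock k code c0 e i, u + (pos k i, 0)) ∈ V)
    (hlen : ∀ κ, (c0.2 κ).length ≤ 2 * e + 2) (hnh : ¬ M.Halts c0) {p : ℕ} (hp : 1 ≤ p)
    (hper1 : ∀ N : ℕ, (seedBlock k code c0 e 0, u + ((p : ℤ) * N, 0)) ∈ V)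
    (hper2 : ∀ N : ℕ, (seedBlock k code c0 e 0, u + (0, (p : ℤ) * N)) ∈ V) : False := by
  have hk := h.hk
  have hm := h.hm
  have hk0 : 0 ≤ k := by omega
  have hp' : (1 : ℤ) ≤ p := by exact_mod_cast hp
  let rowD : Desc := ⟨k, k + 1, code .row0, 0, code .row0, code (.V (fun _ => none) false)⟩
  let rowE : Desc := ⟨k, k + 1, code .row0, 0, 0, code (.V (fun _ => none) true)⟩
  -- row 0 ends
  have hrow0 : ∀ i, 2 * e + 2 ≤ i → (∀ j, 2 * e + 2 ≤ j → j < i → (rowD, u + (pos k j, 0)) ∈ V) →
      (rowD, u + (pos k i, 0)) ∈ V ∨ (rowE, u + (pos k i, 0)) ∈ V := by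
    intro i hi hprev
    obtain ⟨i, rfl⟩ : ∃ i', i = i' + 1 := ⟨i - 1, by omega⟩
    obtain ⟨d, hd, hdw, hdr⟩ : ∃ d, (d, u + (pos k i, 0)) ∈ V ∧ d.w = siz k i ∧
        d.r = code .row0 := by
      by_cases hi2 : i = 2 * e + 1
      · refine ⟨seedBlock k code c0 e i, hseed i (by omega), rfl, ?_⟩
        unfold seedBlock
        simp only
        rw [if_neg (by omega)]
      · exact ⟨rowD, hprev i (by omega) (by omega), (siz_pos k (by omega)).symm, rfl⟩
    obtain ⟨d', hd', hl⟩ := hV.right h hd (by rw [hdr]; exact h.ne _)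
    rw [hdr] at hl
    rw [hdw, add_assoc, show ((pos k i, 0) : ℤ × ℤ) + (siz k i, 0) = (pos k (i + 1), 0) by
      rw [pos_succ]; rfl] at hd'
    rcases class_row0 h (hV.allowed _ hd') hl with h1 | h1
    · left
      have h1' : d' = rowD := h1
      rw [h1'] at hd'
      exact hd'
    · right
      have h1' : d' = rowE := h1
      rw [h1'] at hd'
      exact hd'
  have hend : ∃ i, 2 * e + 2 ≤ i ∧ ¬ (rowD, u + (pos k i, 0)) ∈ V := by
    by_contra! hall
    let N : ℕ := (pos k (2 * e + 2)).toNat
    have hN : pos k (2 * e + 2) ≤ (p : ℤ) * N := by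
      have h1 : ((N : ℕ) : ℤ) = pos k (2 * e + 2) := Int.toNat_of_nonneg (pos_nonneg hk0 _)
      rw [h1]
      have := pos_nonneg hk0 (2 * e + 2)
      nlinarith
    obtain ⟨i, hi1, hi2⟩ := pos_block k (by omega) (x := (p : ℤ) * N) (by positivity)
    have hi3 : 2 * e + 2 ≤ i := by
      by_contra hlt
      have h1 := pos_mono hk0 (show i < 2 * e + 2 by omega)
      rw [pos_succ] at hi2
      omega
    rw [pos_succ, siz_pos k (by omega)] at hi2
    have h2 := hV.eq (z := u + ((p : ℤ) * N, 0)) (hper1 N) (hall i hi3)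
      (by rw [sub_self]; exact cell_zero (seedBlock_good h c0 e 0))
      (by
        rw [add_sub_add_left_eq_sub]
        exact cell_bottom ((hV.allowed _ (hall i hi3)).good h)
          (x := (p : ℤ) * N - pos k i) (by omega) (by show _ < k; omega))
    have h3 := congrArg Desc.w h2.1
    have h4 : (seedBlock k code c0 e 0).w = k + 1 := rfl
    rw [h4] at h3
    have h5 : k + 1 = k := h3
    omega
  classical
  obtain ⟨hA1, hA2⟩ := Nat.find_spec hend
  set A := Nat.find hend with hAdef
  have hmid : ∀ j, 2 * e + 2 ≤ j → j < A → (rowD, u + (pos k j, 0)) ∈ V := by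
    intro j h1 h2
    have := Nat.find_min hend h2
    push Not at this
    exact this h1
  have hAend : (rowE, u + (pos k A, 0)) ∈ V := (hrow0 A hA1 hmid).resolve_left hA2
  -- row 0 represents the initial configuration
  have hrep0 : RowRep m k code V u A 0 c0 := by
    refine ⟨⟨seedBlock k code c0 e 0, ?_, rfl, rfl, rfl⟩, ?_, fun κ => ?_⟩
    · rw [pos_zero]
      exact hseed 0 (by omega)
    · intro i hi1 hiA
      rw [pos_zero]
      by_cases h1 : i ≤ 2 * e + 1
      · refine ⟨seedBlock k code c0 e i, hseed i h1, rfl, rfl, ?_⟩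
        unfold seedBlock
        simp only
        rw [if_neg (by omega), show decide (i = A) = false from decide_eq_false (by omega)]
      · have hcol : col c0.2 i = fun _ => none := by
          funext κ
          have := hlen κ
          exact List.getElem?_eq_none (by omega)
        by_cases h2 : i < A
        · refine ⟨rowD, hmid i (by omega) h2, (siz_pos k hi1).symm, rfl, ?_⟩
          rw [hcol, show decide (i = A) = false from decide_eq_false (by omega)]
        · have h3 : i = A := by omega
          refine ⟨rowE, by rw [h3]; exact hAend, (siz_pos k hi1).symm, rfl, ?_⟩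
          rw [hcol, show decide (i = A) = true from decide_eq_true h3]
    · have := hlen κ
      omega
  have hrep : ∀ j, ∃ t, RowRep m k code V u A j (M.run c0 t) := by
    intro j
    induction j with
    | zero => exact ⟨0, hrep0⟩
    | succ j ih =>
      obtain ⟨t, ht⟩ := ih
      have hne : M.next (M.run c0 t) ≠ none := fun h1 => hnh ⟨t, h1⟩
      rcases row_step h hV (by omega) ht hne with h1 | ⟨c', h1, h2⟩
      · exact ⟨t, h1⟩
      · refine ⟨t + 1, ?_⟩
        have : M.run c0 (t + 1) = c' := by
          show (M.next (M.run c0 t)).getD (M.run c0 t) = c'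
          rw [h1]
          rfl
        rw [this]
        exact h2
  -- contradiction in column 0
  let N : ℕ := (pos k 1).toNat
  have hN : pos k 1 ≤ (p : ℤ) * N := by
    have h1 : ((N : ℕ) : ℤ) = pos k 1 := Int.toNat_of_nonneg (pos_nonneg hk0 _)
    rw [h1]
    have := pos_nonneg hk0 1
    nlinarith
  obtain ⟨j, hj1, hj2⟩ := pos_block k (by omega) (x := (p : ℤ) * N) (by positivity)
  have hj3 : 1 ≤ j := by
    by_contra hlt
    have : j = 0 := by omega
    subst this
    rw [zero_add] at hj2
    omega
  rw [pos_succ] at hj2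
  obtain ⟨t, ht⟩ := hrep j
  obtain ⟨d, hd, hdw, hdh, hdt⟩ := ht.h0
  rw [pos_zero] at hd
  have h2 := hV.eq (z := u + (0, (p : ℤ) * N)) (hper2 N) hd
    (by rw [sub_self]; exact cell_zero (seedBlock_good h c0 e 0))
    (by
      rw [add_sub_add_left_eq_sub]
      exact cell_left ((hV.allowed _ hd).good h) (y := (p : ℤ) * N - pos k j) (by omega)
        (by rw [hdh]; omega))
  have h3 := congrArg Desc.h h2.1
  have h4 : (seedBlock k code c0 e 0).h = k + 1 := rfl
  rw [h4, hdh, siz_pos k hj3] at h3
  omega

end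

end Pool.Agent.Helper64.Tiling
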