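import Mathlib
import Pool.Agent.Helper64.Tiling.Machine

set_option autoImplicit false

namespace Pool.Agent.Helper64.Tiling

/-! The tile set is a computable function of the input of the machine. -/

theorem primrec_intCast : Primrec fun a : ℕ => (a : ℤ) := by
  rw [← Primrec.encode_iff]
  exact (Primrec.nat_mul.comp (Primrec.const 2) Primrec.id).of_eq fun a => rfl

variable {n : ℕ}

/-- the point with natural planar coordinates -/
def vecN (p : ℕ × ℕ) : Vec n := fun i =>
  if i.val = 0 then (p.1 : ℤ) else if i.val = 1 then (p.2 : ℤ) else 0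

theorem primrec_vecN : Primrec (vecN : ℕ × ℕ → Vec n) := by
  rw [Primrec.fin_curry]
  have h0 : PrimrecPred fun q : (ℕ × ℕ) × Fin n => q.2.val = 0 :=
    Primrec.eq.comp (Primrec.fin_val.comp Primrec.snd) (Primrec.const 0)
  have h1 : PrimrecPred fun q : (ℕ × ℕ) × Fin n => q.2.val = 1 :=
    Primrec.eq.comp (Primrec.fin_val.comp Primrec.snd) (Primrec.const 1)
  exact Primrec.ite h0 (primrec_intCast.comp (Primrec.fst.comp Primrec.fst))
    (Primrec.ite h1 (primrec_intCast.comp (Primrec.snd.comp Primrec.fst)) (Primrec.const 0))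

/-- natural version of `pos` -/
def posN (k i : ℕ) : ℕ := if i = 0 then 0 else k * i + 1

theorem posN_eq (k i : ℕ) : ((posN k i : ℕ) : ℤ) = pos k i := by
  unfold posN pos
  split_ifs <;> simp

theorem primrec_posN (k : ℕ) : Primrec (posN k) :=
  Primrec.ite (Primrec.eq.comp Primrec.id (Primrec.const 0)) (Primrec.const 0)
    (Primrec.succ.comp (Primrec.nat_mul.comp (Primrec.const k) Primrec.id))

/-- list of the cells of a translated block -/
def blockList (k : ℕ) (l : List (ℕ × ℕ)) (i : ℕ) : List (Vec n) :=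
  l.map fun z => vecN (z.1 + posN k i, z.2)

theorem primrec_blockList (k : ℕ) (l : List (ℕ × ℕ)) :
    Primrec (blockList k l : ℕ → List (Vec n)) := by
  apply Primrec.list_map (Primrec.const l)
  apply primrec_vecN.comp
  exact Primrec.pair (Primrec.nat_add.comp (Primrec.fst.comp Primrec.snd)
    ((primrec_posN k).comp Primrec.fst)) (Primrec.snd.comp Primrec.snd)

/-- the cells of the block with index `i` of the seed -/
def seedPart (k : ℕ) (lz lo le ll : List (ℕ × ℕ)) (e i : ℕ) : List (Vec n) :=
  if i = 0 then blockList k lz i else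
    if i < 2 * e + 1 then (if i % 2 = 1 then blockList k lo i else blockList k le i) else
      blockList k ll i

theorem primrec_seedPart (k : ℕ) (lz lo le ll : List (ℕ × ℕ)) :
    Primrec₂ (seedPart k lz lo le ll : ℕ → ℕ → List (Vec n)) := by
  have h0 : PrimrecPred fun q : ℕ × ℕ => q.2 = 0 :=
    Primrec.eq.comp Primrec.snd (Primrec.const 0)
  have h1 : PrimrecPred fun q : ℕ × ℕ => q.2 < 2 * q.1 + 1 :=
    Primrec.nat_lt.comp Primrec.snd
      (Primrec.succ.comp (Primrec.nat_mul.comp (Primrec.const 2) Primrec.fst))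
  have h2 : PrimrecPred fun q : ℕ × ℕ => q.2 % 2 = 1 :=
    Primrec.eq.comp (Primrec.nat_mod.comp Primrec.snd (Primrec.const 2)) (Primrec.const 1)
  have hb : ∀ l : List (ℕ × ℕ), Primrec fun q : ℕ × ℕ => (blockList k l q.2 : List (Vec n)) :=
    fun l => (primrec_blockList k l).comp Primrec.snd
  exact Primrec.ite h0 (hb lz) (Primrec.ite h1 (Primrec.ite h2 (hb lo) (hb le)) (hb ll))

/-- the cells of the seed -/
def seedList (k : ℕ) (lz lo le ll : List (ℕ × ℕ)) (e : ℕ) : List (Vec n) :=
  (List.range (2 * e + 2)).flatMap (seedPart k lz lo le ll e)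

theorem primrec_seedList (k : ℕ) (lz lo le ll : List (ℕ × ℕ)) :
    Primrec (seedList k lz lo le ll : ℕ → List (Vec n)) :=
  Primrec.list_flatMap (Primrec.list_range.comp
    (Primrec.succ.comp (Primrec.succ.comp (Primrec.nat_mul.comp (Primrec.const 2) Primrec.id))))
    (primrec_seedPart k lz lo le ll)

/-- the cells of a block as pairs of natural numbers -/
noncomputable def cellList (m : ℤ) (d : Desc) : List (ℕ × ℕ) :=
  (cells m d).toList.map fun z => (z.1.toNat, z.2.toNat)

theorem cell_nonneg {m k : ℤ} {d : Desc} (hd : Good m k d) {z : ℤ × ℤ} (h : Cell m d z) :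
    0 ≤ z.1 ∧ 0 ≤ z.2 := by
  obtain ⟨x, y⟩ := z
  have h1 := hd.le_w
  have h2 := hd.le_h
  have h3 := hd.hm
  have h4 := hd.hk
  rcases h with ⟨x0, x1, y0, y1, -, -⟩ | ⟨r0, hx, y0, y1, hy⟩ | ⟨t0, hx, y0, y1, hy⟩
  · exact ⟨x0, y0⟩
  · simp only at hx y0 y1 ⊢
    omega
  · simp only at hx y0 y1 ⊢
    omega

theorem mem_blockList {m : ℤ} {k : ℕ} {d : Desc} (hd : Good m k d) (i : ℕ) {z : Vec n} :
    z ∈ (blockList k (cellList m d) i : List (Vec n)) ↔
      ∃ v, Cell m d v ∧ flat (v + (pos k i, 0)) = z := by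
  unfold blockList cellList
  simp only [List.mem_map, Finset.mem_toList, mem_cells, exists_exists_and_eq_and]
  refine exists_congr fun v => and_congr_right fun hv => ?_
  obtain ⟨h1, h2⟩ := cell_nonneg hd hv
  suffices hs : (vecN (v.1.toNat + posN k i, v.2.toNat) : Vec n) = flat (v + (pos k i, 0)) by
    rw [hs]
  funext j
  simp only [vecN, flat, Prod.fst_add, Prod.snd_add]
  push_cast
  rw [Int.toNat_of_nonneg h1, Int.toNat_of_nonneg h2, posN_eq, add_zero]

theorem toFinset_blockList {m : ℤ} {k : ℕ} {d : Desc} (hd : Good m k d) :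
    (blockList k (cellList m d) 0 : List (Vec n)).toFinset = flatTile (cells m d) := by
  ext z
  rw [List.mem_toFinset, mem_blockList hd, mem_flatTile, pos_zero]
  refine exists_congr fun v => ?_
  rw [mem_cells, show v + ((0, 0) : ℤ × ℤ) = v from add_zero v]

section

variable {Q K Γ : Type} {M : Mach Q K Γ} {m : ℤ} {k : ℕ} {code : Color Q K Γ → ℤ}

theorem toFinset_seedList (h : CodeGood m k code) (q0 : Q) (S : K → List Γ)
    (sA sB : K → Option Γ) (e : ℕ)
    (hcol : ∀ i, i ≤ 2 * e + 1 → col S i = if i % 2 = 1 then sB else sA) :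
    (seedList k (cellList m ⟨k + 1, k + 1, 0, 0, code .seed, code (.C0 q0 sA)⟩)
      (cellList m ⟨k, k + 1, code .seed, 0, code .seed, code (.V sB false)⟩)
      (cellList m ⟨k, k + 1, code .seed, 0, code .seed, code (.V sA false)⟩)
      (cellList m ⟨k, k + 1, code .seed, 0, code .row0, code (.V sB false)⟩) e :
        List (Vec n)).toFinset = flatTile (seedTile m k code (q0, S) e) := by
  have key : ∀ i, i ≤ 2 * e + 1 → ∀ z : Vec n,
      z ∈ seedPart k (cellList m ⟨k + 1, k + 1, 0, 0, code .seed, code (.C0 q0 sA)⟩)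
        (cellList m ⟨k, k + 1, code .seed, 0, code .seed, code (.V sB false)⟩)
        (cellList m ⟨k, k + 1, code .seed, 0, code .seed, code (.V sA false)⟩)
        (cellList m ⟨k, k + 1, code .seed, 0, code .row0, code (.V sB false)⟩) e i ↔
      ∃ v, Cell m (seedBlock k code (q0, S) e i) v ∧ flat (v + (pos k i, 0)) = z := by
    intro i hi z
    have hg := seedBlock_good h (q0, S) e i
    unfold seedPart
    by_cases h0 : i = 0
    · subst h0
      rw [if_pos rfl]
      have hb : seedBlock k code (q0, S) e 0 =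
          ⟨k + 1, k + 1, 0, 0, code .seed, code (.C0 q0 sA)⟩ := by
        unfold seedBlock
        have h1 := hcol 0 (by omega)
        rw [if_neg (by omega)] at h1
        simp [h1, siz]
      rw [hb] at hg ⊢
      exact mem_blockList hg 0
    · rw [if_neg h0]
      by_cases h1 : i < 2 * e + 1
      · rw [if_pos h1]
        by_cases h2 : i % 2 = 1
        · rw [if_pos h2]
          have hb : seedBlock k code (q0, S) e i =
              ⟨k, k + 1, code .seed, 0, code .seed, code (.V sB false)⟩ := by
            unfold seedBlock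
            have h3 := hcol i hi
            rw [if_pos h2] at h3
            simp [h3, siz, h0, h1]
          rw [hb] at hg ⊢
          exact mem_blockList hg i
        · rw [if_neg h2]
          have hb : seedBlock k code (q0, S) e i =
              ⟨k, k + 1, code .seed, 0, code .seed, code (.V sA false)⟩ := by
            unfold seedBlock
            have h3 := hcol i hi
            rw [if_neg h2] at h3
            simp [h3, siz, h0, h1]
          rw [hb] at hg ⊢
          exact mem_blockList hg i
      · rw [if_neg h1]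
        have hb : seedBlock k code (q0, S) e i =
            ⟨k, k + 1, code .seed, 0, code .row0, code (.V sB false)⟩ := by
          unfold seedBlock
          have h3 := hcol i hi
          rw [if_pos (by omega)] at h3
          simp [h3, siz, h0, h1]
        rw [hb] at hg ⊢
        exact mem_blockList hg i
  ext z
  rw [List.mem_toFinset, mem_flatTile]
  unfold seedList
  rw [List.mem_flatMap]
  constructor
  · rintro ⟨i, hi, hz⟩
    rw [List.mem_range] at hi
    obtain ⟨v, hv, rfl⟩ := (key i (by omega) z).1 hz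
    exact ⟨_, mem_seedTile.2 ⟨i, by omega, by rwa [add_sub_cancel_right]⟩, rfl⟩
  · rintro ⟨v, hv, rfl⟩
    obtain ⟨i, hi, hv'⟩ := mem_seedTile.1 hv
    exact ⟨i, List.mem_range.2 (by omega), (key i hi _).2 ⟨_, hv', by rw [sub_add_cancel]⟩⟩

end

theorem exists_input {Q K Γ : Type} (M : Mach Q K Γ) {m k : ℤ} {code : Color Q K Γ → ℤ}
    (h : CodeGood m k code) (q0 : Q) (S : ℕ → K → List Γ) (sA sB : K → Option Γ)
    (hcol : ∀ e i, i ≤ 2 * e + 1 → col (S e) i = if i % 2 = 1 then sB else sA) :
    ∃ L : ℕ → Input n, Computable L ∧ (∀ e, Valid (L e)) ∧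
      ∀ e, tileSet (L e) = flatTile '' planarTiles M m k code (q0, S e) e := by
  have hk0 : 0 ≤ k := by
    have h1 := h.hm
    have h2 := h.hk
    omega
  obtain ⟨kn, rfl⟩ := Int.eq_ofNat_of_zero_le hk0
  let F : Input n := (finite_fix (M := M) h).toFinset.toList.map fun d =>
    blockList kn (cellList m d) 0
  let L : ℕ → Input n := fun e =>
    seedList kn (cellList m ⟨kn + 1, kn + 1, 0, 0, code .seed, code (.C0 q0 sA)⟩)
      (cellList m ⟨kn, kn + 1, code .seed, 0, code .seed, code (.V sB false)⟩)
      (cellList m ⟨kn, kn + 1, code .seed, 0, code .seed, code (.V sA false)⟩)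
      (cellList m ⟨kn, kn + 1, code .seed, 0, code .row0, code (.V sB false)⟩) e :: F
  have hL : ∀ e, tileSet (L e) = flatTile '' planarTiles M m kn code (q0, S e) e := by
    intro e
    ext T
    simp only [tileSet, L, List.mem_cons, Set.mem_ofPred_eq, Set.mem_image]
    constructor
    · rintro ⟨l, rfl | hl, rfl⟩
      · exact ⟨_, Or.inr rfl, (toFinset_seedList h q0 (S e) sA sB e (hcol e)).symm⟩
      · obtain ⟨d, hd, rfl⟩ := List.mem_map.1 hl
        rw [Finset.mem_toList, Set.Finite.mem_toFinset] at hd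
        exact ⟨_, Or.inl ⟨d, hd, rfl⟩, (toFinset_blockList (Fix.good h hd)).symm⟩
    · rintro ⟨P, ⟨d, hd, rfl⟩ | rfl, rfl⟩
      · refine ⟨_, Or.inr (List.mem_map.2 ⟨d, ?_, rfl⟩), toFinset_blockList (Fix.good h hd)⟩
        rw [Finset.mem_toList, Set.Finite.mem_toFinset]
        exact hd
      · exact ⟨_, Or.inl rfl, toFinset_seedList h q0 (S e) sA sB e (hcol e)⟩
  refine ⟨L, ?_, ?_, hL⟩
  · exact (Primrec.list_cons.comp (primrec_seedList kn _ _ _ _) (Primrec.const F)).to_comp
  · intro e l hl hnil
    have h1 : l.toFinset ∈ tileSet (L e) := ⟨l, hl, rfl⟩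
    rw [hL e] at h1
    obtain ⟨P, hP, hPl⟩ := h1
    have h2 := zero_mem_planarTiles h hP
    have h3 : flat (0, 0) ∈ (flatTile P : Finset (Vec n)) := mem_flatTile.2 ⟨_, h2, rfl⟩
    rw [hPl, hnil] at h3
    simp at h3

end Pool.Agent.Helper64.Tiling
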