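import Mathlib

set_option autoImplicit false

namespace Pool.Agent.Helper64.Tiling

/-! A sequence which is nowhere nearly periodic, and its periodic patches. -/

/-- parity of the 2-adic valuation -/
def theta (i : ℤ) : Bool := decide (padicValInt 2 i % 2 = 1)

theorem padicValInt_two_pow_mul (k : ℕ) (j : ℤ) : padicValInt 2 (2 ^ k * (2 * j + 1)) = k := by
  have h1 : (2 : ℤ) ^ k ≠ 0 := by positivity
  have h2 : (2 * j + 1 : ℤ) ≠ 0 := by omega
  rw [padicValInt.mul h1 h2]
  have h3 : padicValInt 2 ((2 : ℤ) ^ k) = k := by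
    unfold padicValInt
    rw [Int.natAbs_pow]
    exact padicValNat.prime_pow k
  have h4 : padicValInt 2 (2 * j + 1) = 0 := by
    unfold padicValInt
    apply padicValNat.eq_zero_of_not_dvd
    omega
  rw [h3, h4, add_zero]

/-- every interval of length `D` meets every residue class -/
theorem exists_in_interval (D : ℤ) (hD : 0 < D) (a r : ℤ) : ∃ k, a ≤ D * k + r ∧ D * k + r < a + D := by
  have h1 := Int.mul_ediv_add_emod (r - a) D
  have h2 := Int.emod_nonneg (r - a) hD.ne'
  have h3 := Int.emod_lt_of_pos (r - a) hD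
  refine ⟨-((r - a) / D), ?_, ?_⟩
  · have : D * -((r - a) / D) = -(D * ((r - a) / D)) := by ring
    rw [this]
    linarith
  · have : D * -((r - a) / D) = -(D * ((r - a) / D)) := by ring
    rw [this]
    linarith

/-- in every interval of length `L` the sequence both differs from and agrees with its translate
by `s` -/
def Mix (φ : ℤ → Bool) (s L : ℕ) : Prop := ∀ a : ℤ,
  (∃ i, a ≤ i ∧ i < a + L ∧ φ i ≠ φ (i + s)) ∧ (∃ i, a ≤ i ∧ i < a + L ∧ φ i = φ (i + s))

theorem theta_mix (s : ℕ) (hs : 1 ≤ s) : Mix theta s (8 * s) := by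
  obtain ⟨e, m, hm, hsm⟩ := Nat.exists_eq_two_pow_mul_odd (show s ≠ 0 by omega)
  obtain ⟨m', rfl⟩ := hm
  have hle : 2 ^ e ≤ s := by
    rw [hsm]
    exact Nat.le_mul_of_pos_right _ (by omega)
  have hle' : (2 : ℤ) ^ e ≤ s := by exact_mod_cast hle
  have hpos : (0 : ℤ) < 2 ^ e := by positivity
  have hs' : (s : ℤ) = 2 ^ e * (2 * m' + 1) := by
    rw [hsm]
    push_cast
    ring
  intro a
  constructor
  · obtain ⟨k, hk1, hk2⟩ := exists_in_interval (2 ^ e * 4) (by positivity) a (2 ^ e * 2)
    refine ⟨2 ^ e * 4 * k + 2 ^ e * 2, hk1, ?_, ?_⟩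
    · push_cast
      linarith
    · have h1 : (2 : ℤ) ^ e * 4 * k + 2 ^ e * 2 = 2 ^ (e + 1) * (2 * k + 1) := by ring
      have h2 : (2 : ℤ) ^ e * 4 * k + 2 ^ e * 2 + s = 2 ^ e * (2 * (2 * k + 1 + m') + 1) := by
        rw [hs']
        ring
      unfold theta
      rw [h2, h1, padicValInt_two_pow_mul, padicValInt_two_pow_mul]
      intro h
      rw [decide_eq_decide] at h
      omega
  · obtain ⟨k, hk1, hk2⟩ := exists_in_interval (2 ^ e * 8) (by positivity) a (2 ^ e * 4)
    refine ⟨2 ^ e * 8 * k + 2 ^ e * 4, hk1, ?_, ?_⟩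
    · push_cast
      linarith
    · have h1 : (2 : ℤ) ^ e * 8 * k + 2 ^ e * 4 = 2 ^ (e + 2) * (2 * k + 1) := by ring
      have h2 : (2 : ℤ) ^ e * 8 * k + 2 ^ e * 4 + s =
          2 ^ e * (2 * (4 * k + 2 + m') + 1) := by
        rw [hs']
        ring
      unfold theta
      rw [h2, h1, padicValInt_two_pow_mul, padicValInt_two_pow_mul]
      rw [decide_eq_decide]
      omega

/-- the sequence with a periodic patch -/
def patch (p : ℕ) (i : ℤ) : Bool :=
  if -((p : ℤ) * p) ≤ i ∧ i < p * p then theta (i % p) else theta i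

theorem patch_mix (p : ℕ) (hp : 1 ≤ p) (s : ℕ) (hs : 1 ≤ s) :
    Mix (patch p) s (162 * (s * s) + 18 * s) := by
  -- it suffices to find a good window
  have key : ∀ (a b δ : ℤ) (L : ℕ), a ≤ b → b + 9 * s ≤ a + L →
      (∀ i, b ≤ i → i < b + 9 * s → patch p i = theta (i - δ)) →
      (∃ i, a ≤ i ∧ i < a + L ∧ patch p i ≠ patch p (i + s)) ∧
      (∃ i, a ≤ i ∧ i < a + L ∧ patch p i = patch p (i + s)) := by
    intro a b δ L hab hbL hθ
    have hs' : (1 : ℤ) ≤ s := by exact_mod_cast hs
    obtain ⟨⟨i, hi1, hi2, hi3⟩, ⟨j, hj1, hj2, hj3⟩⟩ := theta_mix s hs (b - δ)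
    push_cast at hi2 hj2
    refine ⟨⟨i + δ, by linarith, by linarith, ?_⟩, ⟨j + δ, by linarith, by linarith, ?_⟩⟩
    · rw [hθ (i + δ) (by linarith) (by linarith), hθ (i + δ + s) (by linarith) (by linarith)]
      rw [show i + δ - δ = i by ring, show i + δ + s - δ = i + s by ring]
      exact hi3
    · rw [hθ (j + δ) (by linarith) (by linarith), hθ (j + δ + s) (by linarith) (by linarith)]
      rw [show j + δ - δ = j by ring, show j + δ + s - δ = j + s by ring]
      exact hj3
  have hs' : (1 : ℤ) ≤ s := by exact_mod_cast hs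
  have hp' : (1 : ℤ) ≤ p := by exact_mod_cast hp
  have hss : (0 : ℤ) ≤ (s : ℤ) * s := by positivity
  intro a
  have hL : (((162 * (s * s) + 18 * s : ℕ)) : ℤ) = 162 * ((s : ℤ) * s) + 18 * s := by push_cast; ring
  have hpp : (0 : ℤ) ≤ (p : ℤ) * p := by positivity
  have hout : ∀ b : ℤ, (b + 9 * s ≤ -((p : ℤ) * p) ∨ (p : ℤ) * p ≤ b) →
      ∀ i, b ≤ i → i < b + 9 * s → patch p i = theta (i - 0) := by
    intro b hb i h1 h2
    unfold patch
    rw [if_neg, sub_zero]
    rintro ⟨h3, h4⟩
    rcases hb with hb | hb <;> linarith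
  have hin : ∀ b k : ℤ, -(p : ℤ) ≤ k → k < p → p * k ≤ b → b + 9 * s ≤ p * (k + 1) →
      ∀ i, b ≤ i → i < b + 9 * s → patch p i = theta (i - p * k) := by
    intro b k hk1 hk2 hb1 hb2 i h1 h2
    have e1 : -((p : ℤ) * p) ≤ p * k := by nlinarith
    have e2 : (p : ℤ) * (k + 1) ≤ p * p := by nlinarith
    unfold patch
    rw [if_pos ⟨by linarith, by linarith⟩]
    congr 1
    have e3 : i = (i - p * k) + p * k := by ring
    rw [e3, Int.add_mul_emod_self_left, Int.emod_eq_of_lt]
    · ring
    · linarith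
    · have : (p : ℤ) * (k + 1) = p * k + p := by ring
      linarith
  by_cases hps : 9 * s ≤ p
  · have hps' : 9 * (s : ℤ) ≤ p := by exact_mod_cast hps
    -- blocks are long
    by_cases h1 : a + 9 * s ≤ -((p : ℤ) * p)
    · exact key a a 0 _ le_rfl (by rw [hL]; linarith) (hout a (Or.inl h1))
    by_cases h2 : (p : ℤ) * p ≤ a
    · exact key a a 0 _ le_rfl (by rw [hL]; linarith) (hout a (Or.inr h2))
    push Not at h1 h2
    -- the block of `max a (-p²)`
    by_cases h3 : a < -((p : ℤ) * p)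
    · refine key a (-((p : ℤ) * p)) (p * (-p)) _ h3.le (by rw [hL]; linarith)
        (hin _ (-p) le_rfl (by linarith) (by linarith) (by nlinarith))
    push Not at h3
    have e1 := Int.mul_ediv_add_emod a p
    have e2 := Int.emod_nonneg a (show (p : ℤ) ≠ 0 by linarith)
    have e3 := Int.emod_lt_of_pos a (show (0 : ℤ) < p by linarith)
    set k := a / (p : ℤ) with hk
    have hk1 : -(p : ℤ) ≤ k := by
      by_contra hcon
      push Not at hcon
      have : (p : ℤ) * (k + 1) ≤ p * (-p) := mul_le_mul_of_nonneg_left (by linarith) (by linarith)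
      nlinarith
    have hk2 : k < p := by
      by_contra hcon
      push Not at hcon
      have : (p : ℤ) * p ≤ p * k := mul_le_mul_of_nonneg_left hcon (by linarith)
      linarith
    by_cases h4 : a + 9 * s ≤ p * (k + 1)
    · exact key a a (p * k) _ le_rfl (by rw [hL]; linarith)
        (hin a k hk1 hk2 (by linarith) h4)
    push Not at h4
    have hb : a ≤ p * (k + 1) := by
      have : (p : ℤ) * (k + 1) = p * k + p := by ring
      linarith
    by_cases h5 : k + 1 < p
    · refine key a (p * (k + 1)) (p * (k + 1)) _ hb (by rw [hL]; linarith)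
        (hin _ (k + 1) (by linarith) h5 le_rfl ?_)
      have : (p : ℤ) * (k + 1 + 1) = p * (k + 1) + p := by ring
      linarith
    · have h6 : k + 1 = p := by omega
      rw [h6] at hb h4
      exact key a (p * p) 0 _ hb (by rw [hL]; linarith) (hout _ (Or.inr le_rfl))
  · push Not at hps
    have hps' : (p : ℤ) < 9 * s := by exact_mod_cast hps
    have hpq : (p : ℤ) * p ≤ 81 * (s * s) := by nlinarith
    by_cases h1 : a + 9 * s ≤ -((p : ℤ) * p)
    · exact key a a 0 _ le_rfl (by rw [hL]; linarith) (hout a (Or.inl h1))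
    push Not at h1
    by_cases h2 : (p : ℤ) * p ≤ a
    · exact key a a 0 _ le_rfl (by rw [hL]; linarith) (hout a (Or.inr h2))
    push Not at h2
    exact key a (p * p) 0 _ h2.le (by rw [hL]; linarith) (hout _ (Or.inr le_rfl))

end Pool.Agent.Helper64.Tiling
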