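import Mathlib
import Pool.Agent.Helper64.Tiling.Positive
import Pool.Agent.Helper64.Tiling.Seq

set_option autoImplicit false

namespace Pool.Agent.Helper64.Tiling

/-! A continuous tiling yields periodic planar tilings. -/

variable {n : ℕ}

/-- the radius within which a translate by `s` is detected -/
def radius (s : Vec n) : ℕ :=
  162 * ((∑ i, (s i).natAbs) * ∑ i, (s i).natAbs) + 18 * ∑ i, (s i).natAbs

/-- a compact invariant subset of the free part -/
def compactPart (n : ℕ) : Set (Config n) :=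
  {x | ∀ s : Vec n, s ≠ 0 → ∀ z : Vec n, ∃ t : Vec n, (∀ i, |t i - z i| ≤ radius s) ∧
    x t ≠ x (t + s)}

theorem compactPart_subset : compactPart n ⊆ FreePart n := by
  intro x hx s hs heq
  obtain ⟨t, -, ht⟩ := hx s hs 0
  exact ht (congrFun heq t).symm

theorem shift_compactPart {x : Config n} (hx : x ∈ compactPart n) (g : Vec n) :
    shift g x ∈ compactPart n := by
  intro s hs z
  obtain ⟨t, ht, hne⟩ := hx s hs (z + g)
  refine ⟨t - g, fun i => ?_, ?_⟩
  · have := ht i
    rw [show (t - g) i - z i = t i - (z + g) i by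
      simp only [Pi.sub_apply, Pi.add_apply]
      ring]
    exact this
  · show x (t - g + g) ≠ x (t - g + s + g)
    rw [sub_add_cancel, show t - g + s + g = t + s by abel]
    exact hne

theorem isCompact_compactPart : IsCompact (compactPart n) := by
  apply IsClosed.isCompact
  have h : compactPart n = ⋂ s : Vec n, ⋂ (_ : s ≠ 0), ⋂ z : Vec n,
      ⋃ t ∈ box n (radius s), {x : Config n | x (z + t) ≠ x (z + t + s)} := by
    ext x
    simp only [compactPart, Set.mem_ofPred_eq, Set.mem_iInter, Set.mem_iUnion]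
    constructor
    · intro hx s hs z
      obtain ⟨t, ht, hne⟩ := hx s hs z
      refine ⟨t - z, mem_box.2 ht, ?_⟩
      rw [add_sub_cancel]
      exact hne
    · intro hx s hs z
      obtain ⟨t, ht, hne⟩ := hx s hs z
      refine ⟨z + t, fun i => ?_, hne⟩
      rw [Pi.add_apply, add_sub_cancel_left]
      exact mem_box.1 ht i
  rw [h]
  refine isClosed_iInter fun s => isClosed_iInter fun _ => isClosed_iInter fun z => ?_
  apply Set.Finite.isClosed_biUnion (Finset.finite_toSet _)
  intro t _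
  have h1 : {x : Config n | x (z + t) ≠ x (z + t + s)} =
      (fun x : Config n => (x (z + t), x (z + t + s))) ⁻¹' {q | q.1 ≠ q.2} := rfl
  rw [h1]
  exact (isClosed_discrete _).preimage ((continuous_apply _).prodMk (continuous_apply _))

/-- locally constant functions are uniformly so on the compact part -/
theorem LC.uniform {α : Type} {f : FreePart n → α} (hf : LC f) :
    ∃ w : ℕ, ∀ x y : FreePart n, x.1 ∈ compactPart n → Agree w x.1 y.1 → f y = f x := by
  classical
  choose r hr using hf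
  let U : FreePart n → Set (Config n) := fun x => {y | Agree (r x) x.1 y}
  obtain ⟨I, hI⟩ := isCompact_compactPart.elim_finite_subcover U
    (fun x => isOpen_agree _ _) (by
      intro x hx
      rw [Set.mem_iUnion]
      exact ⟨⟨x, compactPart_subset hx⟩, fun t _ => rfl⟩)
  refine ⟨I.sup r, fun x y hx hxy => ?_⟩
  have h1 := hI hx
  simp only [Set.mem_iUnion] at h1
  obtain ⟨x0, hx0, h2⟩ := h1
  have h3 : Agree (r x0) x0.1 x.1 := h2
  have h4 : Agree (r x0) x0.1 y.1 := h3.trans (hxy.mono (Finset.le_sup hx0))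
  rw [hr x0 x h3, hr x0 y h4]

theorem LC.of_isClopen {C : Set (FreePart n)} (hC : IsClopen C) :
    LC fun x => (open Classical in decide (x ∈ C)) := by
  classical
  intro x
  obtain ⟨hclosed, hopen⟩ := hC
  have key : ∀ D : Set (FreePart n), IsOpen D → x ∈ D →
      ∃ r : ℕ, ∀ y : FreePart n, Agree r x.1 y.1 → y ∈ D := by
    intro D hD hx
    obtain ⟨V, hV, rfl⟩ := isOpen_induced_iff.1 hD
    obtain ⟨r, hr⟩ := exists_agree_of_isOpen hV (x := x.1) hx
    exact ⟨r, fun y hy => hr y.1 hy⟩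
  by_cases hx : x ∈ C
  · obtain ⟨r, hr⟩ := key C hopen hx
    exact ⟨r, fun y hy => by simp [hx, hr y hy]⟩
  · obtain ⟨r, hr⟩ := key Cᶜ hclosed.isOpen_compl hx
    refine ⟨r, fun y hy => ?_⟩
    have := hr y hy
    rw [Set.mem_compl_iff] at this
    simp [hx, this]

/-- the configuration built from a sequence -/
def sumConfig (φ : ℤ → Bool) : Config n :=
  fun t => decide (∑ i, (if φ (t i) then (1 : ZMod 2) else 0) = 1)

theorem sumConfig_mem {φ : ℤ → Bool}
    (hφ : ∀ s : ℕ, 1 ≤ s → Mix φ s (162 * (s * s) + 18 * s)) :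
    sumConfig φ ∈ compactPart n := by
  classical
  intro s hs z
  obtain ⟨j, hj⟩ : ∃ j, s j ≠ 0 := by
    by_contra hcon
    push Not at hcon
    exact hs (funext hcon)
  let ψ : ℤ → ZMod 2 := fun i => if φ i then 1 else 0
  -- both values occur for the difference in direction `j`
  have hboth : ∀ δ : ZMod 2, ∃ i : ℤ, |i - z j| ≤ radius s ∧ ψ i + δ ≠ ψ (i + s j) := by
    intro δ
    have hle : (s j).natAbs ≤ ∑ i, (s i).natAbs :=
      Finset.single_le_sum (f := fun i => (s i).natAbs) (fun _ _ => Nat.zero_le _)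
        (Finset.mem_univ j)
    have hR : 162 * ((s j).natAbs * (s j).natAbs) + 18 * (s j).natAbs ≤ radius s := by
      unfold radius
      have := Nat.mul_le_mul hle hle
      omega
    have hR' : ((162 * ((s j).natAbs * (s j).natAbs) + 18 * (s j).natAbs : ℕ) : ℤ) ≤ radius s := by
      exact_mod_cast hR
    set L : ℕ := 162 * ((s j).natAbs * (s j).natAbs) + 18 * (s j).natAbs with hL
    have hmix := hφ (s j).natAbs (by omega)
    rw [← hL] at hmix
    have hpos : s j = (s j).natAbs ∨ s j = -((s j).natAbs : ℤ) := Int.natAbs_eq (s j)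
    have h2 : ∀ a b : Bool, (a ≠ b) → (if a then (1 : ZMod 2) else 0) ≠ if b then 1 else 0 := by
      decide
    have h3 : ∀ a b : Bool, (if a then (1 : ZMod 2) else 0) + 1 = (if b then 1 else 0) → a ≠ b := by
      decide
    rcases hpos with hp | hp
    · obtain ⟨⟨i, hi1, hi2, hi3⟩, ⟨k, hk1, hk2, hk3⟩⟩ := hmix (z j)
      fin_cases δ
      · refine ⟨i, ?_, ?_⟩
        · rw [abs_le]
          omega
        · show ψ i + 0 ≠ _
          rw [add_zero, hp]
          exact h2 _ _ hi3
      · refine ⟨k, ?_, ?_⟩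
        · rw [abs_le]
          omega
        · show ψ k + 1 ≠ _
          rw [hp]
          intro h4
          exact h3 _ _ h4 hk3
    · have hLs : ((s j).natAbs : ℤ) ≤ L := by
        have : (s j).natAbs ≤ L := by omega
        exact_mod_cast this
      obtain ⟨⟨i, hi1, hi2, hi3⟩, ⟨k, hk1, hk2, hk3⟩⟩ := hmix (z j - (s j).natAbs)
      fin_cases δ
      · refine ⟨i + (s j).natAbs, ?_, ?_⟩
        · rw [abs_le]
          omega
        · show ψ (i + (s j).natAbs) + 0 ≠ _
          rw [add_zero, show i + ((s j).natAbs : ℤ) + s j = i by omega]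
          exact (h2 _ _ hi3).symm
      · refine ⟨k + (s j).natAbs, ?_, ?_⟩
        · rw [abs_le]
          omega
        · show ψ (k + (s j).natAbs) + 1 ≠ _
          rw [show k + ((s j).natAbs : ℤ) + s j = k by omega]
          intro h4
          exact h3 _ _ h4 hk3.symm
  let δ : ZMod 2 := ∑ i ∈ Finset.univ.erase j, (ψ (z i) - ψ (z i + s i))
  obtain ⟨i0, hi0, hne⟩ := hboth δ
  refine ⟨Function.update z j i0, fun i => ?_, ?_⟩
  · by_cases hi : i = j
    · subst hi
      rw [Function.update_self]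
      exact hi0
    · rw [Function.update_of_ne hi, sub_self, abs_zero]
      positivity
  · have h1 : ∑ i, ψ (Function.update z j i0 i) = ψ i0 + ∑ i ∈ Finset.univ.erase j, ψ (z i) := by
      rw [← Finset.add_sum_erase _ _ (Finset.mem_univ j), Function.update_self]
      congr 1
      apply Finset.sum_congr rfl
      intro i hi
      rw [Function.update_of_ne (Finset.ne_of_mem_erase hi)]
    have h2 : ∑ i, ψ ((Function.update z j i0 + s) i) =
        ψ (i0 + s j) + ∑ i ∈ Finset.univ.erase j, ψ (z i + s i) := by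
      rw [← Finset.add_sum_erase _ _ (Finset.mem_univ j), Pi.add_apply, Function.update_self]
      congr 1
      apply Finset.sum_congr rfl
      intro i hi
      rw [Pi.add_apply, Function.update_of_ne (Finset.ne_of_mem_erase hi)]
    have h3 : ∑ i, ψ (Function.update z j i0 i) ≠ ∑ i, ψ ((Function.update z j i0 + s) i) := by
      rw [h1, h2]
      intro h4
      apply hne
      show ψ i0 + ∑ i ∈ Finset.univ.erase j, (ψ (z i) - ψ (z i + s i)) = _
      rw [Finset.sum_sub_distrib]
      linear_combination h4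
    show decide (∑ i, ψ (Function.update z j i0 i) = 1) ≠
      decide (∑ i, ψ ((Function.update z j i0 + s) i) = 1)
    have h4 : ∀ a b : ZMod 2, a ≠ b → decide (a = 1) ≠ decide (b = 1) := by decide
    exact h4 _ _ h3

/-- planar tilings of the whole plane -/
def PlanarTiling (𝒯 : Set PTile) (B : Set (PTile × (ℤ × ℤ))) : Prop :=
  (∀ q ∈ B, q.1 ∈ 𝒯) ∧ ∀ z, ∃! q, q ∈ B ∧ z - q.2 ∈ q.1

/-- invariance under the lattice `(pℤ)²` -/
def IsPeriodic (p : ℤ) (B : Set (PTile × (ℤ × ℤ))) : Prop :=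
  ∀ T g h, g.1 % p = h.1 % p → g.2 % p = h.2 % p → ((T, g) ∈ B ↔ (T, h) ∈ B)

theorem exists_periodic (hn : 2 ≤ n) (𝒯 : Set PTile) (hfin : 𝒯.Finite)
    (h : HasContinuousTiling (n := n) (flatTile '' 𝒯)) :
    ∃ w : ℕ, ∀ p : ℕ, w ≤ p → ∃ B, PlanarTiling 𝒯 B ∧ IsPeriodic p B := by
  classical
  obtain ⟨C, hC, hCt⟩ := h
  let F : FreePart n → Set PTile := fun x => {T | T ∈ 𝒯 ∧ x ∈ C (flatTile T)}
  have hF : LC F := by
    apply LC.of_finite hfin.toFinset (fun T x => decide (x ∈ C (flatTile T)))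
    · intro T hT
      exact LC.of_isClopen (hC _ ⟨T, hfin.mem_toFinset.1 hT, rfl⟩)
    · intro x y hxy
      ext T
      simp only [F, Set.mem_ofPred_eq]
      constructor
      · rintro ⟨h1, h2⟩
        have := hxy T (hfin.mem_toFinset.2 h1)
        exact ⟨h1, by simpa [h2] using this⟩
      · rintro ⟨h1, h2⟩
        have := hxy T (hfin.mem_toFinset.2 h1)
        exact ⟨h1, by simpa [h2] using this⟩
  obtain ⟨w, hw⟩ := hF.uniform
  -- a bound for the cells
  obtain ⟨δ, hδ⟩ : ∃ δ : ℕ, ∀ T ∈ 𝒯, ∀ v ∈ T, |v.1| ≤ δ ∧ |v.2| ≤ δ := by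
    refine ⟨hfin.toFinset.sup fun T => T.sup fun v => v.1.natAbs + v.2.natAbs, ?_⟩
    intro T hT v hv
    have h1 : v.1.natAbs + v.2.natAbs ≤ T.sup fun v => v.1.natAbs + v.2.natAbs :=
      Finset.le_sup (f := fun v : ℤ × ℤ => v.1.natAbs + v.2.natAbs) hv
    have h2 : (T.sup fun v => v.1.natAbs + v.2.natAbs) ≤
        hfin.toFinset.sup fun T => T.sup fun v => v.1.natAbs + v.2.natAbs :=
      Finset.le_sup (f := fun T : PTile => T.sup fun v => v.1.natAbs + v.2.natAbs)
        (hfin.mem_toFinset.2 hT)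
    rw [Int.abs_eq_natAbs, Int.abs_eq_natAbs]
    constructor
    · exact_mod_cast (Nat.le_add_right _ _).trans (h1.trans h2)
    · exact_mod_cast (Nat.le_add_left _ _).trans (h1.trans h2)
  refine ⟨w + δ + 5, fun p hp => ?_⟩
  have hp1 : 1 ≤ p := by omega
  have hpz : (0 : ℤ) < p := by exact_mod_cast hp1
  let X0 : Config n := sumConfig (patch p)
  have hX0 : X0 ∈ compactPart n := sumConfig_mem fun s hs => patch_mix p hp1 s hs
  let X : FreePart n := ⟨X0, compactPart_subset hX0⟩
  have hmvK : ∀ g, (mv g X).1 ∈ compactPart n := fun g => shift_compactPart hX0 (flat g)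
  have hpp : (p : ℤ) * p ≥ 4 * p + w := by
    have h1 : ((w + δ + 5 : ℕ) : ℤ) ≤ p := by exact_mod_cast hp
    push_cast at h1
    have hw0 : (0 : ℤ) ≤ w := by positivity
    have hd0 : (0 : ℤ) ≤ δ := by positivity
    nlinarith
  -- local periodicity
  have hloc : ∀ g g' : ℤ × ℤ, (∀ i : Fin n, |(flat g : Vec n) i| ≤ 3 * p) →
      (∀ i : Fin n, |(flat g' : Vec n) i| ≤ 3 * p) → g.1 % p = g'.1 % p → g.2 % p = g'.2 % p →
      F (mv g X) = F (mv g' X) := by
    intro g g' hg hg' h1 h2
    apply hw _ _ (hmvK g')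
    intro t ht
    show X0 (t + flat g') = X0 (t + flat g)
    show decide (∑ i, _ = _) = decide (∑ i, _ = _)
    have h3 : ∀ i : Fin n, patch p ((t + flat g' : Vec n) i) = patch p ((t + flat g : Vec n) i) := by
      intro i
      have e1 := abs_le.1 (ht i)
      have e2 := abs_le.1 (hg i)
      have e3 := abs_le.1 (hg' i)
      have e4 : ((t + flat g' : Vec n) i) % (p : ℤ) = ((t + flat g : Vec n) i) % (p : ℤ) := by
        simp only [Pi.add_apply]
        rw [Int.add_emod, Int.add_emod (t i) ((flat g : Vec n) i)]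
        have : (flat g' : Vec n) i % (p : ℤ) = (flat g : Vec n) i % (p : ℤ) := by
          unfold flat
          split_ifs
          · exact h1.symm
          · exact h2.symm
          · rfl
        rw [this]
      unfold patch
      rw [if_pos, if_pos, e4]
      · simp only [Pi.add_apply]
        constructor <;> linarith [e1.1, e1.2, e2.1, e2.2]
      · simp only [Pi.add_apply]
        constructor <;> linarith [e1.1, e1.2, e3.1, e3.2]
    have h4 : ∑ i, (if patch p ((t + flat g' : Vec n) i) then (1 : ZMod 2) else 0) =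
        ∑ i, (if patch p ((t + flat g : Vec n) i) then (1 : ZMod 2) else 0) :=
      Finset.sum_congr rfl fun i _ => by rw [h3 i]
    rw [h4]
  have hflat : ∀ g : ℤ × ℤ, -(3 * (p : ℤ)) ≤ g.1 → g.1 ≤ 3 * p → -(3 * (p : ℤ)) ≤ g.2 →
      g.2 ≤ 3 * p → ∀ i : Fin n, |(flat g : Vec n) i| ≤ 3 * p := by
    intro g h1 h2 h3 h4 i
    unfold flat
    split_ifs
    · exact abs_le.2 ⟨h1, h2⟩
    · exact abs_le.2 ⟨h3, h4⟩
    · rw [abs_zero]
      positivity
  let red : ℤ × ℤ → ℤ × ℤ := fun g => (g.1 % p, g.2 % p)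
  have hred : ∀ g, 0 ≤ (red g).1 ∧ (red g).1 < p ∧ 0 ≤ (red g).2 ∧ (red g).2 < p := fun g =>
    ⟨Int.emod_nonneg _ hpz.ne', Int.emod_lt_of_pos _ hpz, Int.emod_nonneg _ hpz.ne',
      Int.emod_lt_of_pos _ hpz⟩
  have hredF : ∀ g : ℤ × ℤ, -(3 * (p : ℤ)) ≤ g.1 → g.1 ≤ 3 * p → -(3 * (p : ℤ)) ≤ g.2 →
      g.2 ≤ 3 * p → F (mv g X) = F (mv (red g) X) := by
    intro g h1 h2 h3 h4
    obtain ⟨r1, r2, r3, r4⟩ := hred g
    apply hloc g (red g) (hflat g h1 h2 h3 h4) (hflat (red g) (by linarith) (by linarith)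
      (by linarith) (by linarith))
    · exact (Int.emod_emod_of_dvd _ dvd_rfl).symm
    · exact (Int.emod_emod_of_dvd _ dvd_rfl).symm
  refine ⟨{q | q.1 ∈ F (mv (red q.2) X)}, ⟨fun q hq => hq.1, fun z => ?_⟩, ?_⟩
  · -- the tiling property
    have hz0 := hred z
    set z0 := red z with hz0def
    have hbound : ∀ T ∈ 𝒯, ∀ v ∈ T, -(3 * (p : ℤ)) ≤ (z0 - v).1 ∧ (z0 - v).1 ≤ 3 * p ∧
        -(3 * (p : ℤ)) ≤ (z0 - v).2 ∧ (z0 - v).2 ≤ 3 * p := by
      intro T hT v hv
      obtain ⟨h1, h2⟩ := hδ T hT v hv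
      rw [abs_le] at h1 h2
      have h3 : ((w + δ + 5 : ℕ) : ℤ) ≤ p := by exact_mod_cast hp
      push_cast at h3
      have hw0 : (0 : ℤ) ≤ w := by positivity
      simp only [Prod.fst_sub, Prod.snd_sub]
      refine ⟨?_, ?_, ?_, ?_⟩ <;> linarith [hz0.1, hz0.2.1, hz0.2.2.1, hz0.2.2.2]
    have hredsub : ∀ v : ℤ × ℤ, red (z - v) = red (z0 - v) := by
      intro v
      apply Prod.ext
      · show (z.1 - v.1) % (p : ℤ) = (z.1 % p - v.1) % p
        rw [Int.emod_sub_emod]
      · show (z.2 - v.2) % (p : ℤ) = (z.2 % p - v.2) % p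
        rw [Int.emod_sub_emod]
    obtain ⟨⟨T', g'⟩, ⟨hT', hg', hz'⟩, huniq⟩ := hCt X (flat z0)
    obtain ⟨T, hT, rfl⟩ := hT'
    obtain ⟨v, hv, hvz⟩ := mem_flatTile.1 hz'
    simp only at hvz hg' hz'
    have hg'' : g' = flat (z0 - v) := by
      rw [flat_sub, hvz]
      abel
    subst hg''
    have hTF : T ∈ F (mv (z0 - v) X) := ⟨hT, hg'⟩
    obtain ⟨b1, b2, b3, b4⟩ := hbound T hT v hv
    refine ⟨(T, z - v), ⟨?_, by simpa using hv⟩, ?_⟩
    · show T ∈ F (mv (red (z - v)) X)
      rw [hredsub, ← hredF _ b1 b2 b3 b4]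
      exact hTF
    · rintro ⟨T1, g1⟩ ⟨h1, h2⟩
      have h1' : T1 ∈ F (mv (red g1) X) := h1
      have h2' : z - g1 ∈ T1 := h2
      set v1 := z - g1 with hv1
      have hg1 : g1 = z - v1 := by
        rw [hv1]
        abel
      rw [hg1, hredsub] at h1'
      obtain ⟨c1, c2, c3, c4⟩ := hbound T1 h1'.1 v1 h2'
      rw [← hredF _ c1 c2 c3 c4] at h1'
      have h3 := huniq (flatTile T1, flat (z0 - v1)) ⟨⟨T1, h1'.1, rfl⟩, h1'.2, by
        show flat z0 - flat (z0 - v1) ∈ flatTile T1
        rw [← flat_sub, sub_sub_cancel]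
        exact mem_flatTile.2 ⟨v1, h2', rfl⟩⟩
      rw [Prod.mk.injEq] at h3
      have h4 := flatTile_injective hn h3.1
      have h5 := flat_injective hn h3.2
      have h6 : v1 = v := by
        have := sub_right_inj.1 h5
        exact this
      rw [Prod.mk.injEq]
      exact ⟨h4, by rw [hg1, h6]⟩
  · intro T g h h1 h2
    have : red g = red h := Prod.ext h1 h2
    show T ∈ F (mv (red g) X) ↔ T ∈ F (mv (red h) X)
    rw [this]

end Pool.Agent.Helper64.Tiling
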