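import Mathlib
import Pool.Agent.Helper64.Tiling.Periodic

set_option autoImplicit false

namespace Pool.Agent.Helper64.Tiling

/-! A planar tiling with an odd period contains a tile with an odd number of cells. -/

theorem exists_odd_tile {𝒯 : Set PTile} (hfin : 𝒯.Finite) {B : Set (PTile × (ℤ × ℤ))}
    (hB : PlanarTiling 𝒯 B) {p : ℕ} (hp : p % 2 = 1) (hper : IsPeriodic p B) :
    ∃ q ∈ B, ¬ Even q.1.card := by
  classical
  by_contra! hcon
  have hpz : (0 : ℤ) < p := by omega
  let Z : Finset (ℤ × ℤ) := Finset.Ico 0 (p : ℤ) ×ˢ Finset.Ico 0 (p : ℤ)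
  have hZ : ∀ z, z ∈ Z ↔ (0 ≤ z.1 ∧ z.1 < p) ∧ 0 ≤ z.2 ∧ z.2 < p := by
    intro z
    simp only [Z, Finset.mem_product, Finset.mem_Ico]
  let S : Finset (PTile × (ℤ × ℤ)) := (hfin.toFinset ×ˢ Z).filter fun q => q ∈ B
  have hS : ∀ q, q ∈ S ↔ q ∈ B ∧ q.2 ∈ Z := by
    intro q
    simp only [S, Finset.mem_filter, Finset.mem_product, Set.Finite.mem_toFinset]
    constructor
    · rintro ⟨⟨_, h1⟩, h2⟩
      exact ⟨h2, h1⟩
    · rintro ⟨h1, h2⟩
      exact ⟨⟨hB.1 q h1, h2⟩, h1⟩
  let red : ℤ × ℤ → ℤ × ℤ := fun g => (g.1 % p, g.2 % p)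
  have hred : ∀ g, red g ∈ Z := fun g => (hZ _).2
    ⟨⟨Int.emod_nonneg _ hpz.ne', Int.emod_lt_of_pos _ hpz⟩, Int.emod_nonneg _ hpz.ne',
      Int.emod_lt_of_pos _ hpz⟩
  have hredB : ∀ T g, (T, g) ∈ B ↔ (T, red g) ∈ B := fun T g =>
    hper T g (red g) (Int.emod_emod_of_dvd _ dvd_rfl).symm (Int.emod_emod_of_dvd _ dvd_rfl).symm
  have hcard : (S.sigma fun q => q.1).card = Z.card := by
    apply Finset.card_bij (fun a _ => red (a.1.2 + a.2))
    · intro a _
      exact hred _
    · rintro ⟨⟨T, g⟩, v⟩ ha ⟨⟨T', g'⟩, v'⟩ ha' heq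
      rw [Finset.mem_sigma, hS] at ha ha'
      obtain ⟨⟨h1, h2⟩, h3⟩ := ha
      obtain ⟨⟨h1', h2'⟩, h3'⟩ := ha'
      simp only at h1 h2 h3 h1' h2' h3' heq
      -- translate the first tile so that it covers the second cell
      have e1 : (T, g + ((g' + v') - (g + v))) ∈ B := by
        rw [hper T _ g ?_ ?_]
        · exact h1
        · have := congrArg Prod.fst heq
          simp only [red, Prod.fst_add] at this
          simp only [Prod.fst_add, Prod.fst_sub]
          rw [Int.add_emod, Int.emod_emod_of_dvd _ dvd_rfl |>.symm]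
          have h5 : ((g'.1 + v'.1 - (g.1 + v.1)) % (p : ℤ)) = 0 :=
            Int.emod_eq_zero_of_dvd (Int.ModEq.dvd this)
          rw [h5, add_zero, Int.emod_emod_of_dvd _ dvd_rfl, Int.emod_emod_of_dvd _ dvd_rfl]
        · have := congrArg Prod.snd heq
          simp only [red, Prod.snd_add] at this
          simp only [Prod.snd_add, Prod.snd_sub]
          rw [Int.add_emod, Int.emod_emod_of_dvd _ dvd_rfl |>.symm]
          have h5 : ((g'.2 + v'.2 - (g.2 + v.2)) % (p : ℤ)) = 0 :=
            Int.emod_eq_zero_of_dvd (Int.ModEq.dvd this)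
          rw [h5, add_zero, Int.emod_emod_of_dvd _ dvd_rfl, Int.emod_emod_of_dvd _ dvd_rfl]
      obtain ⟨q, -, huniq⟩ := hB.2 (g' + v')
      have e2 := huniq (T, g + ((g' + v') - (g + v))) ⟨e1, by
        show g' + v' - (g + (g' + v' - (g + v))) ∈ T
        rw [show g' + v' - (g + (g' + v' - (g + v))) = v by abel]
        exact h3⟩
      have e3 := huniq (T', g') ⟨h1', by
        show g' + v' - g' ∈ T'
        rw [add_sub_cancel_left]
        exact h3'⟩
      have e4 := e2.trans e3.symm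
      rw [Prod.mk.injEq] at e4
      obtain ⟨rfl, e5⟩ := e4
      -- both base points lie in the fundamental domain
      have e6 : v' = v := by
        have : g + (g' + v' - (g + v)) = g' := e5
        have h6 : g' + (v' - v) = g' := by
          calc g' + (v' - v) = g + (g' + v' - (g + v)) := by abel
            _ = g' := this
        have h7 := add_eq_left.1 h6
        exact sub_eq_zero.1 h7
      subst e6
      have e7 : g = g' := by
        rw [hZ] at h2 h2'
        have h8 := congrArg Prod.fst heq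
        have h9 := congrArg Prod.snd heq
        simp only [red, Prod.fst_add, Prod.snd_add] at h8 h9
        have h10 : g.1 % (p : ℤ) = g'.1 % p := Int.ModEq.add_right_cancel' _ h8
        have h11 : g.2 % (p : ℤ) = g'.2 % p := Int.ModEq.add_right_cancel' _ h9
        rw [Int.emod_eq_of_lt h2.1.1 h2.1.2, Int.emod_eq_of_lt h2'.1.1 h2'.1.2] at h10
        rw [Int.emod_eq_of_lt h2.2.1 h2.2.2, Int.emod_eq_of_lt h2'.2.1 h2'.2.2] at h11
        exact Prod.ext h10 h11
      subst e7
      rfl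
    · intro z hz
      obtain ⟨⟨T, g⟩, ⟨h1, h2⟩, -⟩ := hB.2 z
      refine ⟨⟨(T, red g), z - g⟩, ?_, ?_⟩
      · rw [Finset.mem_sigma, hS]
        exact ⟨⟨(hredB T g).1 h1, hred g⟩, h2⟩
      · rw [hZ] at hz
        apply Prod.ext
        · show (g.1 % (p : ℤ) + (z.1 - g.1)) % p = z.1
          rw [Int.emod_add_emod, add_sub_cancel, Int.emod_eq_of_lt hz.1.1 hz.1.2]
        · show (g.2 % (p : ℤ) + (z.2 - g.2)) % p = z.2
          rw [Int.emod_add_emod, add_sub_cancel, Int.emod_eq_of_lt hz.2.1 hz.2.2]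
  rw [Finset.card_sigma] at hcard
  have heven : Even (∑ q ∈ S, q.1.card) := by
    apply Finset.even_sum
    intro q hq
    exact hcon q ((hS q).1 hq).1
  rw [hcard, Finset.card_product, Int.card_Ico, Nat.even_mul] at heven
  rw [Nat.even_iff] at heven
  omega

end Pool.Agent.Helper64.Tiling
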