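import Mathlib
import Pool.Agent.Helper64.Tiling.Build

set_option autoImplicit false

namespace Pool.Agent.Helper64.Tiling

/-! If the machine halts then there is a continuous tiling; the tile set always tiles. -/

/-! ### Combining regions -/

theorem TilesRegion.translate {𝒯 : Set PTile} {R : Set (ℤ × ℤ)} (h : TilesRegion 𝒯 R)
    (v : ℤ × ℤ) : TilesRegion 𝒯 {z | z - v ∈ R} := by
  obtain ⟨P, h1, h2⟩ := h
  refine ⟨{p | (p.1, p.2 - v) ∈ P}, ?_, ?_⟩
  · intro p hp
    obtain ⟨h3, h4⟩ := h1 _ hp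
    refine ⟨h3, fun z hz => h4 (z - v) ?_⟩
    show z - v - (p.2 - v) ∈ p.1
    rw [sub_sub_sub_cancel_right]
    exact hz
  · intro z hz
    obtain ⟨⟨T, g⟩, ⟨h3, h4⟩, h5⟩ := h2 (z - v) hz
    refine ⟨(T, g + v), ⟨?_, ?_⟩, ?_⟩
    · show (T, g + v - v) ∈ P
      rw [add_sub_cancel_right]
      exact h3
    · show z - (g + v) ∈ T
      rw [show z - (g + v) = z - v - g by abel]
      exact h4
    · rintro ⟨T', g'⟩ ⟨h6, h7⟩
      have h8 := h5 (T', g' - v) ⟨h6, by
        show z - v - (g' - v) ∈ T'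
        rw [sub_sub_sub_cancel_right]
        exact h7⟩
      rw [Prod.mk.injEq] at h8
      rw [Prod.mk.injEq]
      exact ⟨h8.1, by rw [← h8.2, sub_add_cancel]⟩

theorem TilesRegion.union {𝒯 : Set PTile} {R S : Set (ℤ × ℤ)} (hR : TilesRegion 𝒯 R)
    (hS : TilesRegion 𝒯 S) (hRS : ∀ z, z ∈ R → z ∉ S) : TilesRegion 𝒯 (R ∪ S) := by
  obtain ⟨P, h1, h2⟩ := hR
  obtain ⟨P', h1', h2'⟩ := hS
  refine ⟨P ∪ P', ?_, ?_⟩
  · rintro p (hp | hp)
    · exact ⟨(h1 p hp).1, fun z hz => Or.inl ((h1 p hp).2 z hz)⟩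
    · exact ⟨(h1' p hp).1, fun z hz => Or.inr ((h1' p hp).2 z hz)⟩
  · rintro z (hz | hz)
    · obtain ⟨p, ⟨h3, h4⟩, h5⟩ := h2 z hz
      refine ⟨p, ⟨Or.inl h3, h4⟩, ?_⟩
      rintro p' ⟨h6 | h6, h7⟩
      · exact h5 p' ⟨h6, h7⟩
      · exact absurd ((h1' p' h6).2 z h7) (hRS z hz)
    · obtain ⟨p, ⟨h3, h4⟩, h5⟩ := h2' z hz
      refine ⟨p, ⟨Or.inr h3, h4⟩, ?_⟩
      rintro p' ⟨h6 | h6, h7⟩
      · exact absurd hz (hRS z ((h1 p' h6).2 z h7))
      · exact h5 p' ⟨h6, h7⟩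

theorem tilesRegion_congr {𝒯 : Set PTile} {R S : Set (ℤ × ℤ)} (h : TilesRegion 𝒯 R)
    (hRS : R = S) : TilesRegion 𝒯 S := hRS ▸ h

theorem rect_add_width {𝒯 : Set PTile} {W W' H : ℤ} (hW : 0 ≤ W) (hW' : 0 ≤ W')
    (h : TilesRegion 𝒯 (rect W H)) (h' : TilesRegion 𝒯 (rect W' H)) :
    TilesRegion 𝒯 (rect (W + W') H) := by
  apply tilesRegion_congr (h.union (h'.translate (W, 0)) ?_)
  · ext z
    constructor
    · rintro (⟨a, b, c, d⟩ | ⟨a, b, c, d⟩)
      · exact ⟨a, by omega, c, d⟩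
      · simp only [Prod.fst_sub, Prod.snd_sub] at a b c d
        exact ⟨by omega, by omega, by omega, by omega⟩
    · rintro ⟨a, b, c, d⟩
      by_cases hz : z.1 < W
      · exact Or.inl ⟨a, hz, c, d⟩
      · refine Or.inr ⟨?_, ?_, ?_, ?_⟩ <;> simp only [Prod.fst_sub, Prod.snd_sub] <;> omega
  · rintro z ⟨a, b, c, d⟩ ⟨a', b', c', d'⟩
    simp only [Prod.fst_sub] at a' b'
    omega

theorem rect_add_height {𝒯 : Set PTile} {W H H' : ℤ} (hH : 0 ≤ H) (hH' : 0 ≤ H')
    (h : TilesRegion 𝒯 (rect W H)) (h' : TilesRegion 𝒯 (rect W H')) :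
    TilesRegion 𝒯 (rect W (H + H')) := by
  apply tilesRegion_congr (h.union (h'.translate (0, H)) ?_)
  · ext z
    constructor
    · rintro (⟨a, b, c, d⟩ | ⟨a, b, c, d⟩)
      · exact ⟨a, b, c, by omega⟩
      · simp only [Prod.fst_sub, Prod.snd_sub] at a b c d
        exact ⟨by omega, by omega, by omega, by omega⟩
    · rintro ⟨a, b, c, d⟩
      by_cases hz : z.2 < H
      · exact Or.inl ⟨a, b, c, hz⟩
      · refine Or.inr ⟨?_, ?_, ?_, ?_⟩ <;> simp only [Prod.fst_sub, Prod.snd_sub] <;> omega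
  · rintro z ⟨a, b, c, d⟩ ⟨a', b', c', d'⟩
    simp only [Prod.snd_sub] at c' d'
    omega

/-- A set of integers closed under addition containing all large numbers `≡ 1 mod k` contains all
large numbers. -/
theorem all_large {k : ℤ} (hk : 1 ≤ k) {A0 : ℕ} {P : ℤ → Prop}
    (hadd : ∀ a b, 0 ≤ a → 0 ≤ b → P a → P b → P (a + b))
    (hP : ∀ a : ℕ, A0 ≤ a → P (k * (a + 1) + 1)) (W : ℤ)
    (hW : k * (k * (A0 + 1) + 1) ≤ W) : P W := by
  have hA0 : (0 : ℤ) ≤ A0 := by positivity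
  set x : ℤ := k * (A0 + 1) + 1 with hx
  have hx0 : 1 ≤ x := by
    rw [hx]
    nlinarith
  have hPx : P x := hP A0 le_rfl
  -- multiples
  have hmul : ∀ (r : ℕ) (y : ℤ), 0 ≤ y → P y → P (x * r + y) := by
    intro r
    induction r with
    | zero =>
      intro y _ hy
      simpa using hy
    | succ r ih =>
      intro y hy0 hy
      have h1 := hadd x (x * r + y) (by omega) (by positivity) hPx (ih y hy0 hy)
      have h2 : x + (x * r + y) = x * ((r + 1 : ℕ) : ℤ) + y := by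
        push_cast
        ring
      rwa [h2] at h1
  -- the residue of W
  set r : ℤ := (W - 1) % k with hr
  have hr0 : 0 ≤ r := Int.emod_nonneg _ (by omega)
  have hrk : r < k := Int.emod_lt_of_pos _ (by omega)
  have h1 := Int.mul_ediv_add_emod (W - 1) k
  -- W - x r ≡ 1
  have h2 : W - x * r = k * ((W - 1) / k - (A0 + 1) * r) + 1 := by
    rw [hx]
    have : (W - 1) = k * ((W - 1) / k) + r := by rw [hr]; exact h1.symm
    linear_combination this
  have h3 : (A0 : ℤ) + 1 ≤ (W - 1) / k - (A0 + 1) * r := by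
    have h4 : x * (r + 1) ≤ x * k := mul_le_mul_of_nonneg_left (by omega) (by omega)
    have h5 : x ≤ W - x * r := by nlinarith
    rw [h2, hx] at h5
    have h6 : k * ((A0 : ℤ) + 1) ≤ k * ((W - 1) / k - (A0 + 1) * r) := by linarith
    exact le_of_mul_le_mul_left h6 (by omega)
  obtain ⟨a, ha⟩ : ∃ a : ℕ, (a : ℤ) = (W - 1) / k - (A0 + 1) * r - 1 :=
    ⟨((W - 1) / k - (A0 + 1) * r - 1).toNat, Int.toNat_of_nonneg (by omega)⟩
  have h7 := hP a (by omega)
  rw [show (a : ℤ) + 1 = (W - 1) / k - (A0 + 1) * r by omega, ← h2] at h7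
  have h8 := hmul r.toNat (W - x * r) (by
    rw [h2]
    have : 0 ≤ (W - 1) / k - (A0 + 1) * r := by omega
    positivity) h7
  rw [Int.toNat_of_nonneg hr0, add_sub_cancel] at h8
  exact h8

section

variable {Q K Γ : Type} {M : Mach Q K Γ} {m k : ℤ} {code : Color Q K Γ → ℤ}
  {c0 : Q × (K → List Γ)} {e : ℕ}

theorem tilesRegion_grid (h : CodeGood m k code) {A B : ℕ} (hA : 2 * e + 2 ≤ A)
    (hlen : ∀ t κ, ((M.run c0 t).2 κ).length ≤ A) (hlen0 : ∀ κ, (c0.2 κ).length ≤ 2 * e + 2)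
    (hB : 1 ≤ B) (hhalt : M.next (M.run c0 (B - 1)) = none) :
    TilesRegion (planarTiles M m k code c0 e) (rect (pos k (A + 1)) (pos k (B + 1))) := by
  have hg := gridOK h hA hlen hlen0 hB hhalt
  let P : Set (PTile × (ℤ × ℤ)) := {p | (∃ i j, i ≤ A ∧ j ≤ B ∧ ¬ (j = 0 ∧ i ≤ 2 * e + 1) ∧
    p = (cells m (gridDesc M k code c0 e A B i j), (pos k i, pos k j))) ∨
    p = (seedTile m k code c0 e, (0, 0))}
  have hseedcell : ∀ z, z - (0, 0) ∈ seedTile m k code c0 e ↔ ∃ i, i ≤ 2 * e + 1 ∧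
      Cell m (gridDesc M k code c0 e A B i 0) (z - (pos k i, pos k 0)) := by
    intro z
    rw [show z - (0, 0) = z from sub_zero z, mem_seedTile]
    constructor
    · rintro ⟨i, hi, hz⟩
      exact ⟨i, hi, by rw [gridDesc_seed hi, pos_zero]; exact hz⟩
    · rintro ⟨i, hi, hz⟩
      rw [gridDesc_seed hi, pos_zero] at hz
      exact ⟨i, hi, hz⟩
  refine ⟨P, ?_, ?_⟩
  · rintro p (⟨i, j, hi, hj, hij, rfl⟩ | rfl)
    · refine ⟨Or.inl ⟨_, gridDesc_fix hA hlen hB hhalt hi hj hij, rfl⟩, fun z hz => ?_⟩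
      exact grid_subset hg hi hj (mem_cells.1 hz)
    · refine ⟨Or.inr rfl, fun z hz => ?_⟩
      obtain ⟨i, hi, hz'⟩ := (hseedcell z).1 hz
      exact grid_subset hg (by omega) (by omega) hz'
  · intro z hz
    obtain ⟨i, j, hi, hj, hc⟩ := grid_exists hg hz
    by_cases hij : j = 0 ∧ i ≤ 2 * e + 1
    · obtain ⟨rfl, hi2⟩ := hij
      refine ⟨(seedTile m k code c0 e, (0, 0)), ⟨Or.inr rfl, (hseedcell z).2 ⟨i, hi2, hc⟩⟩, ?_⟩
      rintro p ⟨⟨i', j', hi', hj', hij', rfl⟩ | rfl, hp⟩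
      · exfalso
        obtain ⟨rfl, rfl⟩ := grid_unique hg.toGridPre hi' hj' hi hj (mem_cells.1 hp) hc
        exact hij' ⟨rfl, hi2⟩
      · rfl
    · refine ⟨_, ⟨Or.inl ⟨i, j, hi, hj, hij, rfl⟩, mem_cells.2 hc⟩, ?_⟩
      rintro p ⟨⟨i', j', hi', hj', hij', rfl⟩ | rfl, hp⟩
      · obtain ⟨rfl, rfl⟩ := grid_unique hg.toGridPre hi' hj' hi hj (mem_cells.1 hp) hc
        rfl
      · exfalso
        obtain ⟨i', hi', hz'⟩ := (hseedcell z).1 hp
        obtain ⟨rfl, rfl⟩ := grid_unique hg.toGridPre (by omega) (by omega) hi hj hz' hc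
        exact hij ⟨rfl, hi'⟩

theorem run_const {t : ℕ} (h : M.next (M.run c0 t) = none) :
    ∀ s, t ≤ s → M.run c0 s = M.run c0 t := by
  intro s hs
  induction s with
  | zero =>
    have : t = 0 := by omega
    rw [this]
  | succ s ih =>
    rcases Nat.lt_or_ge s t with h1 | h1
    · have : s + 1 = t := by omega
      rw [this]
    · show (M.next (M.run c0 s)).getD (M.run c0 s) = M.run c0 t
      rw [ih h1, h]
      rfl

/-- If the machine halts then there is a continuous tiling. -/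
theorem continuous_of_halts [Finite K] {n : ℕ} (hn : 2 ≤ n) (h : CodeGood m k code)
    (hlen0 : ∀ κ, (c0.2 κ).length ≤ 2 * e + 2) (hhalts : M.Halts c0) :
    HasContinuousTiling (n := n) (flatTile '' planarTiles M m k code c0 e) := by
  obtain ⟨t, ht⟩ := hhalts
  have hconst := run_const ht
  -- a bound for the lengths
  have hfin : Fintype K := Fintype.ofFinite K
  obtain ⟨L, hL⟩ : ∃ L : ℕ, ∀ s κ, ((M.run c0 s).2 κ).length ≤ L := by
    refine ⟨(Finset.range (t + 1)).sup fun s => Finset.univ.sup fun κ =>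
      ((M.run c0 s).2 κ).length, ?_⟩
    have key : ∀ s, s ≤ t → ∀ κ, ((M.run c0 s).2 κ).length ≤
        (Finset.range (t + 1)).sup fun s => Finset.univ.sup fun κ =>
          ((M.run c0 s).2 κ).length := by
      intro s hs κ
      refine le_trans ?_ (Finset.le_sup (f := fun s => Finset.univ.sup fun κ =>
        ((M.run c0 s).2 κ).length) (Finset.mem_range.2 (show s < t + 1 by omega)))
      exact Finset.le_sup (f := fun κ => ((M.run c0 s).2 κ).length) (Finset.mem_univ κ)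
    intro s κ
    rcases Nat.lt_or_ge t s with h1 | h1
    · rw [hconst s h1.le]
      exact key t le_rfl κ
    · exact key s h1 κ
  have hk := h.hk
  have hm := h.hm
  -- large rectangles with sides ≡ 1
  set A0 : ℕ := 2 * e + 2 + L + t + 1 with hA0
  have hbase : ∀ a b : ℕ, A0 ≤ a → A0 ≤ b →
      TilesRegion (planarTiles M m k code c0 e) (rect (k * (a + 1) + 1) (k * (b + 1) + 1)) := by
    intro a b ha hb
    have h1 := tilesRegion_grid (M := M) h (A := a) (B := b) (by omega)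
      (fun s κ => (hL s κ).trans (by omega)) hlen0 (by omega)
      (by rw [hconst (b - 1) (by omega)]; exact ht)
    rw [pos_eq, pos_eq] at h1
    exact h1
  set N : ℤ := k * (k * (A0 + 1) + 1) with hN
  have hN1 : 1 ≤ N := by
    rw [hN]
    have : (0 : ℤ) ≤ A0 := by positivity
    have h1 : (0 : ℤ) ≤ k * (A0 + 1) := mul_nonneg (by omega) (by omega)
    nlinarith [mul_nonneg (show (0 : ℤ) ≤ k by omega) h1]
  have hall : ∀ W H : ℤ, N ≤ W → N ≤ H → TilesRegion (planarTiles M m k code c0 e) (rect W H) := by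
    intro W H hW hH
    apply all_large (k := k) (by omega) (A0 := A0)
      (P := fun H => TilesRegion (planarTiles M m k code c0 e) (rect W H)) _ _ H hH
    · intro a b ha hb h1 h2
      exact rect_add_height ha hb h1 h2
    · intro b hb
      apply all_large (k := k) (by omega) (A0 := A0)
        (P := fun W => TilesRegion (planarTiles M m k code c0 e) (rect W (k * (b + 1) + 1))) _ _
        W hW
      · intro a b ha hb h1 h2
        exact rect_add_width ha hb h1 h2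
      · intro a ha
        exact hbase a b ha hb
  apply continuousTiling_of_rectangles hn _ (fun T hT => zero_mem_planarTiles h hT) N.toNat
    (by omega)
  intro W H hW hH
  exact hall W H (by omega) (by omega)

/-- The tile set always tiles. -/
theorem tiles_always {n : ℕ} (hn : 2 ≤ n) (h : CodeGood m k code) :
    Tiles (n := n) (flatTile '' planarTiles M m k code c0 e) := by
  have hk := h.hk
  have hm := h.hm
  let sq : Desc := ⟨k, k, 0, 0, 0, 0⟩
  have hsq : ∀ v : ℤ × ℤ, v ∈ cells m sq ↔ (0 ≤ v.1 ∧ v.1 < k) ∧ 0 ≤ v.2 ∧ v.2 < k := by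
    intro v
    rw [mem_cells]
    constructor
    · rintro (⟨h1, h2, h3, h4, -, -⟩ | ⟨h1, -⟩ | ⟨h1, -⟩)
      · exact ⟨⟨h1, h2⟩, h3, h4⟩
      · exact absurd rfl h1
      · exact absurd rfl h1
    · rintro ⟨⟨h1, h2⟩, h3, h4⟩
      exact Or.inl ⟨h1, h2, h3, h4, Or.inl rfl, Or.inl rfl⟩
  let i0 : Fin n := ⟨0, by omega⟩
  let i1 : Fin n := ⟨1, by omega⟩
  refine ⟨fun T => {g | T = flatTile (cells m sq) ∧ g i0 % k = 0 ∧ g i1 % k = 0}, fun z => ?_⟩
  let v : ℤ × ℤ := (z i0 % k, z i1 % k)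
  have hf0 : ∀ v : ℤ × ℤ, (flat v : Vec n) i0 = v.1 := by
    intro v
    simp [flat, i0]
  have hf1 : ∀ v : ℤ × ℤ, (flat v : Vec n) i1 = v.2 := by
    intro v
    simp [flat, i1]
  refine ⟨(flatTile (cells m sq), z - flat v), ⟨⟨_, Or.inl ⟨sq, Fix.square, rfl⟩, rfl⟩,
    ⟨rfl, ?_, ?_⟩, ?_⟩, ?_⟩
  · show (z i0 - (flat v : Vec n) i0) % k = 0
    rw [hf0]
    show (z i0 - z i0 % k) % k = 0
    exact Int.emod_eq_zero_of_dvd (Int.dvd_self_sub_emod)
  · show (z i1 - (flat v : Vec n) i1) % k = 0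
    rw [hf1]
    show (z i1 - z i1 % k) % k = 0
    exact Int.emod_eq_zero_of_dvd (Int.dvd_self_sub_emod)
  · show z - (z - flat v) ∈ flatTile (cells m sq)
    rw [sub_sub_cancel]
    refine mem_flatTile.2 ⟨v, (hsq v).2 ⟨⟨Int.emod_nonneg _ (by omega),
      Int.emod_lt_of_pos _ (by omega)⟩, Int.emod_nonneg _ (by omega),
      Int.emod_lt_of_pos _ (by omega)⟩, rfl⟩
  · rintro ⟨T, g⟩ ⟨-, ⟨h1, h2, h3⟩, h4⟩
    simp only at h1 h2 h3 h4
    subst h1
    obtain ⟨u, hu, hug⟩ := mem_flatTile.1 h4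
    rw [hsq] at hu
    have hg : g = z - flat u := by
      rw [hug]
      abel
    have hu1 : u.1 = z i0 % k := by
      have h5 : g i0 = z i0 - u.1 := by
        rw [hg]
        show z i0 - (flat u : Vec n) i0 = _
        rw [hf0]
      rw [h5] at h2
      have h6 : z i0 % k = u.1 % k := Int.emod_eq_emod_iff_emod_sub_eq_zero.2 h2
      rw [h6, Int.emod_eq_of_lt hu.1.1 hu.1.2]
    have hu2 : u.2 = z i1 % k := by
      have h5 : g i1 = z i1 - u.2 := by
        rw [hg]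
        show z i1 - (flat u : Vec n) i1 = _
        rw [hf1]
      rw [h5] at h3
      have h6 : z i1 % k = u.2 % k := Int.emod_eq_emod_iff_emod_sub_eq_zero.2 h3
      rw [h6, Int.emod_eq_of_lt hu.2.1 hu.2.2]
    have : u = v := Prod.ext hu1 hu2
    rw [hg, this]

end

end Pool.Agent.Helper64.Tiling
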