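import Mathlib
import Pool.Agent.Helper64.Tiling.Extract
import Pool.Agent.Helper64.Tiling.Parity

set_option autoImplicit false

namespace Pool.Agent.Helper64.Tiling

/-! If the machine does not halt then there is no continuous tiling. -/

section

variable {Q K Γ : Type} {M : Mach Q K Γ} {m k : ℤ} {code : Color Q K Γ → ℤ}
  {c0 : Q × (K → List Γ)} {e : ℕ}

theorem exists_vt (h : CodeGood m k code) {B : Set (PTile × (ℤ × ℤ))}
    (hB : PlanarTiling (planarTiles M m k code c0 e) B) :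
    ∃ V, VT M m k code c0 e V ∧ ∀ g, (seedTile m k code c0 e, g) ∈ B →
      ∀ i, i ≤ 2 * e + 1 → (seedBlock k code c0 e i, g + (pos k i, 0)) ∈ V := by
  let V : Set (Desc × (ℤ × ℤ)) := {p | (Fix M k code p.1 ∧ (cells m p.1, p.2) ∈ B) ∨
    ∃ i g, i ≤ 2 * e + 1 ∧ (seedTile m k code c0 e, g) ∈ B ∧
      p = (seedBlock k code c0 e i, g + (pos k i, 0))}
  refine ⟨V, ⟨?_, fun z => ?_⟩, ?_⟩
  · rintro p (⟨hp, -⟩ | ⟨i, g, hi, -, rfl⟩)
    · exact Or.inl hp
    · exact Or.inr ⟨i, hi, rfl⟩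
  · obtain ⟨⟨T, g⟩, ⟨h1, h2⟩, huniq⟩ := hB.2 z
    have hT := hB.1 _ h1
    simp only at hT h2 huniq
    -- uniqueness
    have hone : ∀ p p' : Desc × (ℤ × ℤ), p ∈ V → p' ∈ V → Cell m p.1 (z - p.2) →
        Cell m p'.1 (z - p'.2) → p = p' := by
      -- the real tile behind a block
      have hreal : ∀ p : Desc × (ℤ × ℤ), p ∈ V → Cell m p.1 (z - p.2) →
          (Fix M k code p.1 ∧ cells m p.1 = T ∧ p.2 = g) ∨
          (seedTile m k code c0 e = T ∧ ∃ i, i ≤ 2 * e + 1 ∧
            p = (seedBlock k code c0 e i, g + (pos k i, 0))) := by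
        rintro p (⟨hp, hpB⟩ | ⟨i, g', hi, hpB, rfl⟩) hz
        · have h3 := huniq (cells m p.1, p.2) ⟨hpB, mem_cells.2 hz⟩
          rw [Prod.mk.injEq] at h3
          exact Or.inl ⟨hp, h3⟩
        · have h3 := huniq (seedTile m k code c0 e, g') ⟨hpB, mem_seedTile.2 ⟨i, hi, by
            have h4 : z - (g' + (pos k i, 0)) = z - g' - (pos k i, 0) := by abel
            rw [← h4]
            exact hz⟩⟩
          rw [Prod.mk.injEq] at h3
          obtain ⟨h4, rfl⟩ := h3
          exact Or.inr ⟨h4, i, hi, rfl⟩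
      rintro p p' hp hp' hz hz'
      rcases hreal p hp hz with ⟨a1, a2, a3⟩ | ⟨a1, i, a2, a3⟩
      · rcases hreal p' hp' hz' with ⟨b1, b2, b3⟩ | ⟨b1, i, b2, b3⟩
        · have h3 : p.1 = p'.1 := desc_unique (a1.good h) (b1.good h) fun y => by
            rw [← mem_cells, ← mem_cells, a2, b2]
          exact Prod.ext h3 (a3.trans b3.symm)
        · exact absurd (b1.trans a2.symm) (seedTile_ne h (a1.good h))
      · rcases hreal p' hp' hz' with ⟨b1, b2, b3⟩ | ⟨b1, i', b2, b3⟩
        · exact absurd (a1.trans b2.symm) (seedTile_ne h (b1.good h))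
        · subst a3
          subst b3
          have h4 : ∀ i, z - (g + (pos k i, 0)) = z - g - (pos k i, 0) := fun i => by abel
          simp only [h4] at hz hz'
          have h5 := seedTile_unique h a2 b2 hz hz'
          subst h5
          rfl
    rcases hT with ⟨d, hd, rfl⟩ | rfl
    · refine ⟨(d, g), ⟨Or.inl ⟨hd, h1⟩, mem_cells.1 h2⟩, fun p' hp' => ?_⟩
      exact hone p' (d, g) hp'.1 (Or.inl ⟨hd, h1⟩) hp'.2 (mem_cells.1 h2)
    · obtain ⟨i, hi, hz⟩ := mem_seedTile.1 h2
      have h3 : Cell m (seedBlock k code c0 e i) (z - (g + (pos k i, 0))) := by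
        have h4 : z - (g + (pos k i, 0)) = z - g - (pos k i, 0) := by abel
        rw [h4]
        exact hz
      refine ⟨(seedBlock k code c0 e i, g + (pos k i, 0)), ⟨Or.inr ⟨i, g, hi, h1, rfl⟩, h3⟩,
        fun p' hp' => ?_⟩
      exact hone p' _ hp'.1 (Or.inr ⟨i, g, hi, h1, rfl⟩) hp'.2 h3
  · intro g hg i hi
    exact Or.inr ⟨i, g, hi, hg, rfl⟩

/-- No halt, no continuous tiling. -/
theorem not_continuous {n : ℕ} (hn : 2 ≤ n) (h : CodeGood m k code)
    (hlen : ∀ κ, (c0.2 κ).length ≤ 2 * e + 2) (hnh : ¬ M.Halts c0) :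
    ¬ HasContinuousTiling (n := n) (flatTile '' planarTiles M m k code c0 e) := by
  intro hcont
  obtain ⟨w, hw⟩ := exists_periodic hn _ (finite_planarTiles h c0 e) hcont
  obtain ⟨p, hwp, hp⟩ : ∃ p, w ≤ p ∧ p % 2 = 1 := ⟨2 * w + 1, by omega, by omega⟩
  obtain ⟨B, hB, hper⟩ := hw p hwp
  obtain ⟨⟨T, g⟩, hTg, hodd⟩ := exists_odd_tile (finite_planarTiles h c0 e) hB hp hper
  have hseedB : (seedTile m k code c0 e, g) ∈ B := by
    rcases hB.1 _ hTg with ⟨d, hd, hdT⟩ | hT
    · exfalso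
      apply hodd
      have hdT' : cells m d = T := hdT
      show Even T.card
      rw [← hdT']
      exact even_card_cells h.hmod h.hkmod (hd.good h) hd.size
    · have hT' : T = seedTile m k code c0 e := hT
      rw [← hT']
      exact hTg
  obtain ⟨V, hV, hVseed⟩ := exists_vt h hB
  apply no_tiling h hV (u := g) (hVseed g hseedB) hlen hnh (p := p) (by omega)
  · intro N
    have h1 : (seedTile m k code c0 e, g + ((p : ℤ) * N, 0)) ∈ B := by
      rw [hper _ _ g ?_ ?_]
      · exact hseedB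
      · show (g.1 + (p : ℤ) * N) % p = g.1 % p
        rw [Int.add_mul_emod_self_left]
      · show (g.2 + 0) % (p : ℤ) = g.2 % p
        rw [add_zero]
    have h2 := hVseed _ h1 0 (by omega)
    rw [pos_zero] at h2
    rw [show g + ((p : ℤ) * N, 0) = g + ((p : ℤ) * N, 0) + (0, 0) from (add_zero _).symm]
    exact h2
  · intro N
    have h1 : (seedTile m k code c0 e, g + (0, (p : ℤ) * N)) ∈ B := by
      rw [hper _ _ g ?_ ?_]
      · exact hseedB
      · show (g.1 + 0) % (p : ℤ) = g.1 % p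
        rw [add_zero]
      · show (g.2 + (p : ℤ) * N) % p = g.2 % p
        rw [Int.add_mul_emod_self_left]
    have h2 := hVseed _ h1 0 (by omega)
    rw [pos_zero] at h2
    rw [show g + (0, (p : ℤ) * N) = g + (0, (p : ℤ) * N) + (0, 0) from (add_zero _).symm]
    exact h2

end

end Pool.Agent.Helper64.Tiling
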